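import Mathlib

/-! Functors from commutative rings to rational vector spaces with the formal properties of
rational algebraic K-theory, and the statements about them. (They are applied to the concrete
functors of `Pool.Agent.KBT.KTh`; no property is assumed in the final theorems.) -/

set_option autoImplicit false

open CategoryTheory Polynomial

namespace Pool.Agent.KBT

/-- The ring `A` as an object of the category of commutative rings. -/
abbrev Sp (A : Type) [CommRing A] : CommRingCat.{0} := CommRingCat.of A

/-- no condition -/
def IsSm (_ : CommRingCat.{0}) : Prop := True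

/-- Functors from commutative rings to rational vector spaces (indexed by `ℤ × ℤ`). -/
structure MotTheory where
  /-- the vector spaces -/
  H : CommRingCat.{0} → ℤ → ℤ → Type
  [grp : ∀ X k j, AddCommGroup (H X k j)]
  [mod : ∀ X k j, Module ℚ (H X k j)]
  /-- functoriality -/
  pull : ∀ {X Y : CommRingCat.{0}} (_ : X ⟶ Y) (k j : ℤ), H X k j →ₗ[ℚ] H Y k j

attribute [instance] MotTheory.grp MotTheory.mod

namespace MotTheory

variable (T : MotTheory)

/-- The map induced by a homomorphism of rings. -/
noncomputable def res {A B : Type} [CommRing A] [CommRing B] (f : A →+* B) (k j : ℤ) :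
    T.H (Sp A) k j →ₗ[ℚ] T.H (Sp B) k j :=
  T.pull (CommRingCat.ofHom f) k j

/-- Functoriality. -/
def Functoriality : Prop :=
  (∀ (X : CommRingCat.{0}) (k j : ℤ), T.pull (𝟙 X) k j = LinearMap.id) ∧
  ∀ (X Y Z : CommRingCat.{0}) (f : X ⟶ Y) (g : Y ⟶ Z) (k j : ℤ),
    T.pull (f ≫ g) k j = (T.pull g k j).comp (T.pull f k j)

/-- The maps induced by extensions of fields are injective. -/
def ResInjective : Prop :=
  ∀ {F E : Type} [Field F] [Field E] [CharZero F] (f : F →+* E) (k j : ℤ),
    Function.Injective (T.res f k j)

/-- Continuity for fields: every class comes from a finitely generated subfield. -/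
def Continuity : Prop :=
  ∀ (E : Type) [Field E] [CharZero E] (k j : ℤ) (a : T.H (Sp E) k j),
    ∃ F : IntermediateField ℚ E, F.FG ∧ ∃ b : T.H (Sp F) k j, T.res (algebraMap F E) k j b = a

/-- Every class over the fraction field of a domain is defined over a localisation. -/
def SpreadOut : Prop :=
  ∀ (A K : Type) [CommRing A] [IsDomain A] [Field K] [Algebra A K] [IsFractionRing A K] (k j : ℤ)
    (u : T.H (Sp K) k j), ∃ (s : A) (f : Localization.Away s →+* K), s ≠ 0 ∧
      f.comp (algebraMap A (Localization.Away s)) = algebraMap A K ∧ ∃ v, T.res f k j v = u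

/-- Two classes over a domain which agree over the fraction field agree over a localisation. -/
def Agree : Prop :=
  ∀ (A K : Type) [CommRing A] [IsDomain A] [Field K] [Algebra A K] [IsFractionRing A K] (k j : ℤ)
    (u v : T.H (Sp A) k j), T.res (algebraMap A K) k j u = T.res (algebraMap A K) k j v →
      ∃ s : A, s ≠ 0 ∧ T.res (algebraMap A (Localization.Away s)) k j u =
        T.res (algebraMap A (Localization.Away s)) k j v

end MotTheory

/-- The formal properties that are used. -/
structure IsMotivic (T : MotTheory) : Prop where
  functoriality : T.Functoriality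
  res_injective : T.ResInjective
  continuity : T.Continuity
  spread_out' : T.SpreadOut
  agree' : T.Agree

theorem IsMotivic.spread_out {T : MotTheory} (hT : IsMotivic T) (F : Type) [Field F] [CharZero F]
    (A K : Type) [CommRing A] [IsDomain A] [Algebra F A]
    [Algebra.Smooth F A] [Field K] [Algebra A K] [IsFractionRing A K] (k j : ℤ)
    (u : T.H (Sp K) k j) : ∃ (s : A) (f : Localization.Away s →+* K), s ≠ 0 ∧
      f.comp (algebraMap A (Localization.Away s)) = algebraMap A K ∧ ∃ v, T.res f k j v = u :=
  hT.spread_out' A K k j u

theorem IsMotivic.agree {T : MotTheory} (hT : IsMotivic T) (F : Type) [Field F] [CharZero F]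
    (A K : Type) [CommRing A] [IsDomain A] [Algebra F A]
    [Algebra.Smooth F A] [Field K] [Algebra A K] [IsFractionRing A K] (k j : ℤ)
    (u v : T.H (Sp A) k j) (h : T.res (algebraMap A K) k j u = T.res (algebraMap A K) k j v) :
      ∃ s : A, s ≠ 0 ∧ T.res (algebraMap A (Localization.Away s)) k j u =
        T.res (algebraMap A (Localization.Away s)) k j v :=
  hT.agree' A K k j u v h

/-- The vector space vanishes for all fields of characteristic zero. -/
def FieldsVanish (T : MotTheory) (k w : ℤ) : Prop :=
  ∀ (F : Type) [Field F] [CharZero F], Subsingleton (T.H (Sp F) k w)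

/-- The algebraic numbers in a field of characteristic zero. -/
abbrev Qbar (E : Type) [Field E] [CharZero E] : IntermediateField ℚ E := algebraicClosure ℚ E

/-- The classes over `E` modulo the classes coming from the subfield `F`. -/
abbrev NewClasses (T : MotTheory) (F E : Type) [Field F] [Field E] [Algebra F E] (k w : ℤ) :
    Type :=
  T.H (Sp E) k w ⧸ LinearMap.range (T.res (algebraMap F E) k w)

/-- The transcendence degree over `ℚ` is infinite. -/
def Large (E : Type) [Field E] [CharZero E] : Prop :=
  Cardinal.aleph0 ≤ Algebra.trdeg ℚ E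

/-- All restriction maps between algebraically closed fields of characteristic zero are
bijective. -/
def Rigid (T : MotTheory) (k w : ℤ) : Prop :=
  ∀ (F E : Type) [Field F] [Field E] [CharZero F] [IsAlgClosed F] [IsAlgClosed E] (f : F →+* E),
    Function.Bijective (T.res f k w)

/-- All classes over `ℂ` come from the algebraic numbers. -/
def FromQbar (T : MotTheory) (k w : ℤ) : Prop :=
  Function.Bijective (T.res (algebraMap (Qbar ℂ) ℂ) k w)

/-- The classes over `ℂ` modulo those over the algebraic numbers have dimension less than the
continuum. -/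
def SmallOverC (T : MotTheory) (k w : ℤ) : Prop :=
  Module.rank ℚ (NewClasses T (Qbar ℂ) ℂ k w) < Cardinal.continuum

/-- The automorphisms of `ℂ` over the algebraic numbers act trivially. -/
def AutTrivial (T : MotTheory) (k w : ℤ) : Prop :=
  ∀ (σ : ℂ ≃ₐ[Qbar ℂ] ℂ) (u : T.H (Sp ℂ) k w), T.res (σ : ℂ →+* ℂ) k w u = u

/-- The orbits of the automorphisms of `ℂ` over the algebraic numbers have less than continuum
many elements. -/
def SmallOrbits (T : MotTheory) (k w : ℤ) : Prop :=
  ∀ u : T.H (Sp ℂ) k w, Cardinal.mk (Set.range fun σ : ℂ ≃ₐ[Qbar ℂ] ℂ =>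
    T.res (σ : ℂ →+* ℂ) k w u) < Cardinal.continuum

/-- For all complex curves all classes over the function field are constant. -/
def CurvesConstant (T : MotTheory) (k w : ℤ) : Prop :=
  ∀ (E : Type) [Field E] [Algebra (RatFunc ℂ) E] [FiniteDimensional (RatFunc ℂ) E],
    Function.Surjective (T.res ((algebraMap (RatFunc ℂ) E).comp (algebraMap ℂ (RatFunc ℂ))) k w)

/-- There is an algebraically closed field `Ω` of infinite transcendence degree `τ` over `ℚ` such
that the classes over `Ω` modulo those over the algebraic numbers have dimension less than `τ`. -/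
def SmallSomewhere (T : MotTheory) (k w : ℤ) : Prop :=
  ∃ (Ω : Type) (_ : Field Ω) (_ : CharZero Ω), IsAlgClosed Ω ∧ Large Ω ∧
    Module.rank ℚ (NewClasses T (Qbar Ω) Ω k w) < Algebra.trdeg ℚ Ω

/-- There is a field `Ω` of infinite transcendence degree `τ` over `ℚ` such that the classes over
`Ω` modulo those over `ℚ` have dimension less than `τ`. -/
def SmallOverSomeField (T : MotTheory) (k w : ℤ) : Prop :=
  ∃ (Ω : Type) (_ : Field Ω) (_ : CharZero Ω), Large Ω ∧
    Module.rank ℚ (NewClasses T ℚ Ω k w) < Algebra.trdeg ℚ Ω

/-- All classes over `F(t)` come from `F`. -/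
def LineConstant (T : MotTheory) (F : Type) [Field F] [CharZero F] (k w : ℤ) : Prop :=
  Function.Surjective (T.res (algebraMap F (RatFunc F)) k w)

end Pool.Agent.KBT
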