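import Mathlib
import Pool.Agent.KBT.Core

set_option autoImplicit false

open AlgebraicGeometry CategoryTheory Polynomial TensorProduct

namespace Pool.Agent.KBT

open Pool.Agent.Helper19.BS

/-- Generic smoothness in characteristic zero. -/
theorem exists_smooth_localization (k A : Type) [Field k] [CharZero k] [CommRing A] [IsDomain A]
    [Algebra k A] [Algebra.FiniteType k A] :
    ∃ s : A, s ≠ 0 ∧ Algebra.Smooth k (Localization.Away s) := by
  have hfp : Algebra.FinitePresentation k A := Algebra.FinitePresentation.of_finiteType.1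
    inferInstance
  let η : PrimeSpectrum A := ⟨⊥, Ideal.isPrime_bot⟩
  have hη : η ∈ Algebra.smoothLocus k A := by
    show Algebra.FormallySmooth k (Localization.AtPrime (⊥ : Ideal A))
    have h1 : Algebra.EssFiniteType k (FractionRing A) :=
      Algebra.EssFiniteType.comp k A (FractionRing A)
    have h2 : Algebra.FormallySmooth k (FractionRing A) := inferInstance
    have h3 : (⊥ : Ideal A).primeCompl = nonZeroDivisors A := by
      ext x
      rw [mem_nonZeroDivisors_iff_ne_zero]
      rfl
    have h4 : IsLocalization (⊥ : Ideal A).primeCompl (FractionRing A) := by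
      rw [h3]; infer_instance
    have e := IsLocalization.algEquiv (⊥ : Ideal A).primeCompl (FractionRing A)
      (Localization.AtPrime (⊥ : Ideal A))
    exact Algebra.FormallySmooth.of_equiv (e.restrictScalars k)
  obtain ⟨_, ⟨f, rfl⟩, hf, hsub⟩ :=
    PrimeSpectrum.isTopologicalBasis_basic_opens.exists_subset_of_mem_open hη
      Algebra.isOpen_smoothLocus
  refine ⟨f, ?_, Algebra.basicOpen_subset_smoothLocus_iff_smooth.1 hsub⟩
  intro h0
  exact hf (by rw [h0]; exact Ideal.zero_mem _)

variable {T : MotTheory} (hT : IsMotivic T)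

include hT

open scoped IntermediateField.algebraAdjoinAdjoin in
/-- Smooth affine models: a class over a finitely generated extension `E = k(G)` of `k` is the
restriction of a class on a smooth affine variety with function field `E`. -/
theorem exists_model {k Ω : Type} [Field k] [CharZero k] [Field Ω] [Algebra k Ω]
    (G : Finset Ω) (i j : ℤ) (u : T.H (Sp (IntermediateField.adjoin k (G : Set Ω))) i j) :
    ∃ (A : Type) (_ : CommRing A) (_ : IsDomain A) (_ : Algebra k A) (_ : Algebra.Smooth k A)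
      (τ : A →ₐ[k] IntermediateField.adjoin k (G : Set Ω)),
      Function.Injective τ ∧ (∀ g ∈ G, ∃ a : A, (τ a : Ω) = g) ∧
      ∃ u' : T.H (Sp A) i j,
        T.res (τ : A →+* IntermediateField.adjoin k (G : Set Ω)) i j u' = u := by
  let A₀ := Algebra.adjoin k (G : Set Ω)
  let E := IntermediateField.adjoin k (G : Set Ω)
  have hft : Algebra.FiniteType k A₀ :=
    (Subalgebra.fg_iff_finiteType _).1 ⟨G, rfl⟩
  obtain ⟨s₀, hs₀, hsm⟩ := exists_smooth_localization k A₀
  let A₁ := Localization.Away s₀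
  have hu₀ : IsUnit (algebraMap A₀ E s₀) :=
    isUnit_iff_ne_zero.2 (fun h => hs₀ ((map_eq_zero_iff _
      (FaithfulSMul.algebraMap_injective A₀ E)).1 h))
  let f₁ : A₁ →+* E := IsLocalization.Away.lift s₀ hu₀
  have hf₁ : f₁.comp (algebraMap A₀ A₁) = algebraMap A₀ E := IsLocalization.Away.lift_comp s₀ _
  let _ : Algebra A₁ E := f₁.toAlgebra
  have hst : IsScalarTower A₀ A₁ E := IsScalarTower.of_algebraMap_eq' hf₁.symm
  have hM : Submonoid.powers s₀ ≤ nonZeroDivisors A₀ := powers_le_nonZeroDivisors_of_noZeroDivisors hs₀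
  have hd₁ : IsDomain A₁ := IsLocalization.isDomain_localization hM
  have hfr₁ : IsFractionRing A₁ E :=
    IsFractionRing.isFractionRing_of_isDomain_of_isLocalization (Submonoid.powers s₀) A₁ E
  obtain ⟨s₁, f, hs₁, hf, v, hv⟩ := hT.spread_out k A₁ E i j u
  let A₂ := Localization.Away s₁
  have hd₂ : IsDomain A₂ :=
    IsLocalization.isDomain_localization (powers_le_nonZeroDivisors_of_noZeroDivisors hs₁)
  have hsm₂ : Algebra.Smooth k A₂ := by
    have h1 : Algebra.Smooth A₁ A₂ := Algebra.Smooth.of_isLocalization_Away s₁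
    exact Algebra.Smooth.comp k A₁ A₂
  have hfk : ∀ c : k, f (algebraMap k A₂ c) = algebraMap k E c := by
    intro c
    have h1 : algebraMap k A₂ c = algebraMap A₁ A₂ (algebraMap k A₁ c) :=
      IsScalarTower.algebraMap_apply k A₁ A₂ c
    have h2 : f (algebraMap A₁ A₂ (algebraMap k A₁ c)) = algebraMap A₁ E (algebraMap k A₁ c) :=
      congrArg (fun g : A₁ →+* E => g (algebraMap k A₁ c)) hf
    rw [h1, h2]
    have h3 : algebraMap k A₁ c = algebraMap A₀ A₁ (algebraMap k A₀ c) :=
      IsScalarTower.algebraMap_apply k A₀ A₁ c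
    rw [h3]
    have h4 : algebraMap A₁ E (algebraMap A₀ A₁ (algebraMap k A₀ c)) =
        algebraMap A₀ E (algebraMap k A₀ c) :=
      congrArg (fun g : A₀ →+* E => g (algebraMap k A₀ c)) hf₁
    rw [h4]
    rfl
  let τ : A₂ →ₐ[k] E := { f with commutes' := hfk }
  have hτ : (τ : A₂ →+* E) = f := rfl
  refine ⟨A₂, inferInstance, hd₂, inferInstance, hsm₂, τ, ?_, ?_, v, ?_⟩
  · -- injectivity
    have hinj : Function.Injective (algebraMap A₁ E) := IsFractionRing.injective A₁ E
    rw [injective_iff_map_eq_zero]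
    intro b hb
    obtain ⟨n, a, ha⟩ := IsLocalization.Away.surj s₁ b
    have h1 : f (b * algebraMap A₁ A₂ s₁ ^ n) = f (algebraMap A₁ A₂ a) := congrArg f ha
    have h2 : f b = 0 := hb
    rw [map_mul, h2, zero_mul] at h1
    have h3 : f (algebraMap A₁ A₂ a) = algebraMap A₁ E a :=
      congrArg (fun g : A₁ →+* E => g a) hf
    rw [h3] at h1
    have h4 : a = 0 := hinj (by rw [← h1, map_zero])
    rw [h4, map_zero] at ha
    have hu : IsUnit (algebraMap A₁ A₂ s₁ ^ n) :=
      (IsLocalization.Away.algebraMap_isUnit s₁).pow n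
    rwa [hu.mul_left_eq_zero] at ha
  · intro g hg
    let a₀ : A₀ := ⟨g, Algebra.subset_adjoin hg⟩
    refine ⟨algebraMap A₁ A₂ (algebraMap A₀ A₁ a₀), ?_⟩
    have h1 : f (algebraMap A₁ A₂ (algebraMap A₀ A₁ a₀)) =
        algebraMap A₁ E (algebraMap A₀ A₁ a₀) :=
      congrArg (fun g : A₁ →+* E => g (algebraMap A₀ A₁ a₀)) hf
    have h2 : algebraMap A₁ E (algebraMap A₀ A₁ a₀) = algebraMap A₀ E a₀ :=
      congrArg (fun g : A₀ →+* E => g a₀) hf₁
    show ((f (algebraMap A₁ A₂ (algebraMap A₀ A₁ a₀)) : E) : Ω) = g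
    rw [h1, h2]
    rfl
  · rw [hτ]; exact hv

end Pool.Agent.KBT
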