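import Mathlib
import Pool.Agent.KBT.Rigid

set_option autoImplicit false

open AlgebraicGeometry CategoryTheory Polynomial TensorProduct Cardinal

namespace Pool.Agent.KBT

open Pool.Agent.Helper19.BS

/-- Embedding of the algebraic closure of `k(t)` mapping `t` to given independent elements. -/
theorem exists_embed_aux {k E Ω : Type} [Field k] [Field E] [Field Ω] [IsAlgClosed Ω] [Algebra k E]
    [Algebra k Ω] {r : ℕ} (t : Fin r → E) (w : Fin r → Ω) (ht : AlgebraicIndependent k t)
    (hw : AlgebraicIndependent k w) (L : IntermediateField k E)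
    (hL : L = (algebraicClosure (IntermediateField.adjoin k (Set.range t)) E).restrictScalars k) :
    ∃ ψ : L →+* Ω, (∀ c : k, ψ (algebraMap k L c) = algebraMap k Ω c) ∧
      ∀ i (h : t i ∈ L), ψ ⟨t i, h⟩ = w i := by
  subst hL
  let K₁ := IntermediateField.adjoin k (Set.range t)
  let e : K₁ ≃ₐ[k] IntermediateField.adjoin k (Set.range w) :=
    ht.aevalEquivField.symm.trans hw.aevalEquivField
  let ρ : K₁ →ₐ[k] Ω := (IntermediateField.adjoin k (Set.range w)).val.comp
    (e : K₁ →ₐ[k] IntermediateField.adjoin k (Set.range w))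
  have hρ : ∀ i, ρ ⟨t i, IntermediateField.subset_adjoin k _ ⟨i, rfl⟩⟩ = w i := by
    intro i
    have h1 : ht.aevalEquivField (algebraMap (MvPolynomial (Fin r) k)
        (FractionRing (MvPolynomial (Fin r) k)) (MvPolynomial.X i)) =
        (⟨t i, IntermediateField.subset_adjoin k _ ⟨i, rfl⟩⟩ : K₁) := by
      apply Subtype.ext
      rw [AlgebraicIndependent.aevalEquivField_algebraMap_apply_coe]
      simp
    have h2 : e ⟨t i, IntermediateField.subset_adjoin k _ ⟨i, rfl⟩⟩ =
        hw.aevalEquivField (algebraMap (MvPolynomial (Fin r) k)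
          (FractionRing (MvPolynomial (Fin r) k)) (MvPolynomial.X i)) := by
      rw [← h1]
      show hw.aevalEquivField (ht.aevalEquivField.symm (ht.aevalEquivField _)) = _
      rw [AlgEquiv.symm_apply_apply]
    show ((e ⟨t i, IntermediateField.subset_adjoin k _ ⟨i, rfl⟩⟩ :
      IntermediateField.adjoin k (Set.range w)) : Ω) = w i
    rw [h2, AlgebraicIndependent.aevalEquivField_algebraMap_apply_coe]
    simp
  let _ : Algebra K₁ Ω := (ρ : K₁ →+* Ω).toAlgebra
  let ψ : algebraicClosure K₁ E →ₐ[K₁] Ω := IsAlgClosed.lift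
  refine ⟨(ψ : algebraicClosure K₁ E →+* Ω), ?_, ?_⟩
  · intro c
    have h1 := ψ.commutes (algebraMap k K₁ c)
    have h2 : algebraMap K₁ Ω (algebraMap k K₁ c) = algebraMap k Ω c := ρ.commutes c
    rw [h2] at h1
    exact h1
  · intro i _
    have h1 := ψ.commutes (⟨t i, IntermediateField.subset_adjoin k _ ⟨i, rfl⟩⟩ : K₁)
    have h2 : algebraMap K₁ Ω (⟨t i, IntermediateField.subset_adjoin k _ ⟨i, rfl⟩⟩ : K₁) =
        w i := hρ i
    rw [h2] at h1
    exact h1

/-- Embedding of the algebraic closure of `k(t)` mapping `t` to given independent elements. -/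
theorem exists_embed {k E Ω : Type} [Field k] [Field E] [Field Ω] [IsAlgClosed Ω] [Algebra k E]
    [Algebra k Ω] {r : ℕ} (t : Fin r → E) (w : Fin r → Ω) (ht : AlgebraicIndependent k t)
    (hw : AlgebraicIndependent k w) :
    ∃ ψ : clos k (Set.range t) →+* Ω,
      (∀ c : k, ψ (algebraMap k (clos k (Set.range t)) c) = algebraMap k Ω c) ∧
      ∀ i (h : t i ∈ clos k (Set.range t)), ψ ⟨t i, h⟩ = w i :=
  exists_embed_aux t w ht hw _ (clos_eq k _)

/-- Infinitely many independent elements. -/
theorem exists_indep {k Ω : Type} [Field k] [Field Ω] [Algebra k Ω]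
    (hinf : ℵ₀ ≤ Algebra.trdeg k Ω) (r : ℕ) : ∃ w : Fin r → Ω, AlgebraicIndependent k w := by
  obtain ⟨B, hB⟩ := exists_isTranscendenceBasis k Ω
  have hBinf : Infinite B := by
    rw [Cardinal.infinite_iff, hB.cardinalMk_eq_trdeg]
    exact hinf
  let f : Fin r ↪ B := ⟨fun i => Infinite.natEmbedding B i, fun i j hij =>
    Fin.ext ((Infinite.natEmbedding B).injective hij)⟩
  exact ⟨fun i => (f i : Ω), hB.1.comp f f.injective⟩

variable {T : MotTheory} (hT : IsMotivic T)

include hT

theorem surj_of_bijective {k K : Type} [Field k] [CharZero k] [Field K] [CharZero K]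
    (f : k →+* K) (hf : Function.Bijective f) (i j : ℤ) :
    Function.Surjective (T.res f i j) := by
  intro u
  let e := RingEquiv.ofBijective f hf
  refine ⟨T.res (e.symm : K →+* k) i j u, ?_⟩
  rw [← res_comp' hT]
  have h : f.comp (e.symm : K →+* k) = RingHom.id K := by
    ext x
    show e (e.symm x) = x
    simp
  rw [h, res_id hT (isSm_field K)]

/-- `H(k) → H(Ω)` surjective for one large `Ω` implies the same for all algebraically closed
extensions of `k`. -/
theorem surj_transfer {k Ω E : Type} [Field k] [CharZero k] [IsAlgClosed k] [Field Ω]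
    [IsAlgClosed Ω] [Algebra k Ω] [Field E] [Algebra k E]
    (hinf : ℵ₀ ≤ Algebra.trdeg k Ω) (i j : ℤ)
    (h : Function.Surjective (T.res (algebraMap k Ω) i j)) :
    Function.Surjective (T.res (algebraMap k E) i j) := by
  classical
  intro u
  have hcE : CharZero E := charZero_of_injective_algebraMap (algebraMap k E).injective
  have hcΩ : CharZero Ω := charZero_of_injective_algebraMap (algebraMap k Ω).injective
  obtain ⟨F, hF, b, hb⟩ := hT.continuity E i j u
  obtain ⟨G, hG⟩ := hF
  obtain ⟨B, r, β₀, hB, hβ₀, hβG, hGc⟩ := exists_basis (k := k) G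
  obtain ⟨w, hw⟩ := exists_indep hinf r
  obtain ⟨ψ, hψ, -⟩ := exists_embed (fun i => (β₀ i : E)) w (hB.1.comp β₀ hβ₀) hw
  let C := clos k (Set.range fun i => (β₀ i : E))
  have hcC : CharZero C := charZero_of_injective_algebraMap (algebraMap k C).injective
  have hFC : ∀ z : F, (z : E) ∈ C := by
    intro z
    have h1 : F ≤ (IntermediateField.restrictScalars ℚ C) := by
      rw [← hG, IntermediateField.adjoin_le_iff]
      intro g hg
      exact hGc g hg
    exact h1 z.2
  let ι : F →+* C :=
    { toFun := fun z => ⟨z, hFC z⟩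
      map_one' := rfl
      map_mul' := fun _ _ => rfl
      map_zero' := rfl
      map_add' := fun _ _ => rfl }
  let uC := T.res ι i j b
  have huC : T.res (algebraMap C E) i j uC = u := by
    rw [← hb]
    exact res_eq hT (isSm_field F) (isSm_field C) (isSm_field E) (RingHom.ext fun _ => rfl) i j b
  obtain ⟨c, hc⟩ := h (T.res ψ i j uC)
  refine ⟨c, ?_⟩
  have h2 : T.res (algebraMap k C) i j c = uC := by
    apply hT.res_injective ψ
    rw [← hc]
    exact res_eq hT (isSm_field k) (isSm_field C) (isSm_field Ω) (RingHom.ext hψ) i j c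
  rw [← huC, ← h2]
  exact (res_eq hT (isSm_field k) (isSm_field C) (isSm_field E) (f := algebraMap k C)
    (g := algebraMap C E) (h := algebraMap k E) rfl i j c).symm

/-- If `H(k) → H(Ω)` is surjective for `k` the algebraic closure of `ℚ` and one large `Ω`, then
all restriction maps between algebraically closed fields are surjective. -/
theorem surj_all {k Ω : Type} [Field k] [CharZero k] [IsAlgClosed k] [Algebra.IsAlgebraic ℚ k]
    [Field Ω] [IsAlgClosed Ω] [Algebra k Ω] (hinf : ℵ₀ ≤ Algebra.trdeg k Ω) (i j : ℤ)
    (h : Function.Surjective (T.res (algebraMap k Ω) i j)) {F E : Type} [Field F] [Field E]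
    [CharZero F] [IsAlgClosed F] (f : F →+* E) : Function.Surjective (T.res f i j) := by
  intro u
  have hcE : CharZero E := charZero_of_injective_ringHom f.injective
  let g : k →ₐ[ℚ] F := IsAlgClosed.lift
  let _ : Algebra k E := (f.comp (g : k →+* F)).toAlgebra
  obtain ⟨c, hc⟩ := surj_transfer hT (E := E) hinf i j h u
  refine ⟨T.res (g : k →+* F) i j c, ?_⟩
  rw [← res_comp' hT]
  exact hc

/-- Reduction to curves: if `H(C) → H(M)` is surjective for some `C ⊇ k` and an algebraically
closed `M ⊇ C` transcendental over `C`, then `H(k) → H(K)` is surjective for `K` the algebraic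
closure of `k(x)` in a field containing `x`. -/
theorem surj_curve {k C M E' : Type} [Field k] [CharZero k] [IsAlgClosed k] [Field C]
    [Algebra k C] [Field M] [IsAlgClosed M] [Algebra C M] [Field E'] [Algebra k E']
    (X : M) (hX : Transcendental C X) (x : E') (hx : Transcendental k x) (i j : ℤ)
    (h : Function.Surjective (T.res (algebraMap C M) i j)) :
    Function.Surjective
      (T.res (algebraMap k (clos k (Set.range fun _ : Fin 1 => x))) i j) := by
  classical
  let _ : Algebra k M := ((algebraMap C M).comp (algebraMap k C)).toAlgebra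
  have hst : IsScalarTower k C M := IsScalarTower.of_algebraMap_eq' rfl
  let K := clos k (Set.range fun _ : Fin 1 => x)
  intro u
  have hcK : CharZero K := charZero_of_injective_algebraMap (algebraMap k K).injective
  have hcC : CharZero C := charZero_of_injective_algebraMap (algebraMap k C).injective
  have hcM : CharZero M := charZero_of_injective_algebraMap (algebraMap C M).injective
  have hXC : AlgebraicIndependent C (fun _ : Fin 1 => X) :=
    algebraicIndependent_unique_type_iff.2 hX
  have hXk : AlgebraicIndependent k (fun _ : Fin 1 => X) :=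
    hXC.restrictScalars (algebraMap k C).injective
  have hxk : AlgebraicIndependent k (fun _ : Fin 1 => x) :=
    algebraicIndependent_unique_type_iff.2 hx
  obtain ⟨ΦR, hΦk, hΦx'⟩ := exists_embed (fun _ : Fin 1 => x) (fun _ : Fin 1 => X) hxk hXk
  let x' : K := ⟨x, subset_clos k _ ⟨0, rfl⟩⟩
  have hΦx : ΦR x' = X := hΦx' 0 _
  let Φ : K →ₐ[k] M := { ΦR with commutes' := hΦk }
  obtain ⟨v, hv⟩ := h (T.res ΦR i j u)
  -- the model
  obtain ⟨F, hF, b, hb⟩ := hT.continuity K i j u
  obtain ⟨G₀, hG₀⟩ := hF
  let G : Finset K := insert x' G₀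
  let E := IntermediateField.adjoin k (G : Set K)
  have hcE : CharZero E := charZero_of_injective_algebraMap (algebraMap k E).injective
  have hFE : ∀ z : F, (z : K) ∈ E := by
    intro z
    have h1 : F ≤ (IntermediateField.restrictScalars ℚ E) := by
      rw [← hG₀, IntermediateField.adjoin_le_iff]
      intro g hg
      exact IntermediateField.subset_adjoin k (G : Set K) (Finset.mem_insert_of_mem hg)
    exact h1 z.2
  let ι : F →+* E :=
    { toFun := fun z => ⟨z, hFE z⟩
      map_one' := rfl
      map_mul' := fun _ _ => rfl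
      map_zero' := rfl
      map_add' := fun _ _ => rfl }
  let uE := T.res ι i j b
  have huE : T.res (algebraMap E K) i j uE = u := by
    rw [← hb]
    exact res_eq hT (isSm_field F) (isSm_field E) (isSm_field K) (RingHom.ext fun _ => rfl) i j b
  obtain ⟨A, _, _, _, _, τ, hτ, hGA, u', hu'⟩ := exists_model hT G i j uE
  have hdens : DensePoints k A := densePoints_of_isAlgClosed k A
  have hdom : IsDomain (A ⊗[k] C) := isDomain_tensor hdens
  let τM : A →ₐ[k] M := Φ.comp ((E.val).comp τ)
  have hτM : Function.Injective τM :=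
    ΦR.injective.comp (Subtype.val_injective.comp hτ)
  obtain ⟨a₀, ha₀⟩ := hGA x' (Finset.mem_insert_self _ _)
  have hinj : Function.Injective (both (L := C) τM) := by
    refine both_injective τM hτM (fun _ : Fin 1 => a₀) ?_ ?_ hdom
    · intro a
      refine isAlgebraic_of_map (K.val.comp ((E.val).comp τ))
        (Subtype.val_injective.comp (Subtype.val_injective.comp hτ)) _ a ?_
      have h1 : (K.val.comp ((E.val).comp τ)) a ∈ clos k (Set.range fun _ : Fin 1 => x) :=
        ((E.val.comp τ) a).2
      rw [mem_clos, IntermediateField.isAlgebraic_adjoin_iff] at h1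
      have h2 : (fun _ : Fin 1 => (K.val.comp ((E.val).comp τ)) a₀) = fun _ => x := by
        funext _
        show (((τ a₀ : E) : K) : E') = x
        rw [ha₀]
      rw [h2]
      exact h1
    · have h2 : (fun _ : Fin 1 => τM a₀) = fun _ => X := by
        funext _
        show ΦR ((τ a₀ : E) : K) = X
        rw [ha₀, hΦx]
      rw [h2]
      exact hXC
  have smA : IsSm (Sp A) := isSm_of_smooth k A
  have hkey : T.res (τM : A →+* M) i j u' = T.res (algebraMap C M) i j v := by
    rw [hv, ← huE, ← hu']
    rw [← res_comp hT smA (isSm_field E) (isSm_field K),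
      ← res_comp hT smA (isSm_field K) (isSm_field M)]
    rfl
  obtain ⟨c, hc⟩ := evaluate hT hdens τM hinj i j u' v hkey
  refine ⟨c, ?_⟩
  apply hT.res_injective ΦR
  rw [← hv, ← hc]
  exact (res_eq hT (isSm_field k) (isSm_field K) (isSm_field M) (RingHom.ext hΦk) i j c).trans
    (res_eq hT (isSm_field k) (isSm_field C) (isSm_field M) (f := algebraMap k C)
      (g := algebraMap C M) (h := algebraMap k M) rfl i j c).symm

end Pool.Agent.KBT
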