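import Mathlib
import Pool.Agent.KBT.Curves

set_option autoImplicit false

open AlgebraicGeometry CategoryTheory Polynomial TensorProduct Cardinal

namespace Pool.Agent.KBT

open Pool.Agent.Helper19.BS

/-- Linear algebra: independence of a family modulo a submodule. -/
theorem exists_mem_of_rank_lt {V B : Type} [AddCommGroup V] [Module ℚ V] (N : Submodule ℚ V)
    (w : B → V) (R : B → Submodule ℚ V) (hN : ∀ x, N ≤ R x) (hw : ∀ x y, y ≠ x → w y ∈ R x)
    (hsmall : Module.rank ℚ (V ⧸ N) < #B) : ∃ x, w x ∈ R x := by
  classical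
  by_contra hcon
  push Not at hcon
  have hli : LinearIndependent ℚ (fun x => N.mkQ (w x)) := by
    rw [linearIndependent_iff']
    intro s g hg x hx
    by_contra hgx
    apply hcon x
    have h3 : N.mkQ (∑ y ∈ s, g y • w y) = 0 := by
      rw [map_sum]
      simpa only [map_smul] using hg
    have h4 : (∑ y ∈ s, g y • w y) ∈ N := by
      rwa [Submodule.mkQ_apply, Submodule.Quotient.mk_eq_zero] at h3
    have h5 := hN x h4
    rw [← Finset.add_sum_erase s _ hx] at h5
    have h6 : (∑ y ∈ s.erase x, g y • w y) ∈ R x :=
      Submodule.sum_mem _ fun y hy =>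
        Submodule.smul_mem _ _ (hw x y (Finset.ne_of_mem_erase hy))
    have h7 := Submodule.sub_mem _ h5 h6
    rw [add_sub_cancel_right] at h7
    have h8 := Submodule.smul_mem _ (g x)⁻¹ h7
    rwa [smul_smul, inv_mul_cancel₀ hgx, one_smul] at h8
  have h9 := hli.cardinal_le_rank
  exact absurd hsmall (not_lt.2 h9)

variable {T : MotTheory} (hT : IsMotivic T)

include hT

/-- Descent for rational function fields: if `τ` sends `t` to elements which are independent over
`L` and the image of `u` comes from `L` then `u` is constant. -/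
theorem const_of_image {k Ω : Type} [Field k] [CharZero k] [Field Ω] [CharZero Ω] [Algebra k Ω]
    {n : ℕ} (x : Fin n → Ω) (hx : AlgebraicIndependent k x) (L : IntermediateField k Ω)
    (hL : AlgebraicIndependent L x) (i j : ℤ)
    (u : T.H (Sp (FractionRing (MvPolynomial (Fin n) k))) i j)
    (hu : T.res ((IntermediateField.adjoin k (Set.range x)).val.comp
      (hx.aevalEquivField : FractionRing (MvPolynomial (Fin n) k) →ₐ[k]
        IntermediateField.adjoin k (Set.range x)) :
        FractionRing (MvPolynomial (Fin n) k) →+* Ω) i j u ∈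
      LinearMap.range (T.res (algebraMap L Ω) i j)) :
    ∃ c, T.res (algebraMap k (FractionRing (MvPolynomial (Fin n) k))) i j c = u := by
  let A₀ := MvPolynomial (Fin n) k
  let K := FractionRing A₀
  have hcK : CharZero K := charZero_of_injective_algebraMap (algebraMap k K).injective
  have hcL : CharZero L := charZero_of_injective_algebraMap (algebraMap k L).injective
  let σ : K →ₐ[k] Ω := (IntermediateField.adjoin k (Set.range x)).val.comp
    (hx.aevalEquivField : K →ₐ[k] IntermediateField.adjoin k (Set.range x))
  obtain ⟨v, hv⟩ := hu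
  have hsm₀ : Algebra.Smooth k A₀ :=
    { formallySmooth := inferInstance
      finitePresentation := inferInstance }
  obtain ⟨s, f, hs, hf, w, hw⟩ := hT.spread_out k A₀ K i j u
  let A := Localization.Away s
  have hdA : IsDomain A :=
    IsLocalization.isDomain_localization (powers_le_nonZeroDivisors_of_noZeroDivisors hs)
  have hsm : Algebra.Smooth k A := by
    have h1 : Algebra.Smooth A₀ A := Algebra.Smooth.of_isLocalization_Away s
    exact Algebra.Smooth.comp k A₀ A
  have hinfk : Infinite k := inferInstance
  have hdens : DensePoints k A := (densePoints_mvPolynomial k n).away hs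
  have hdom : IsDomain (A ⊗[k] L) := isDomain_tensor hdens
  have hfa : ∀ a : A₀, f (algebraMap A₀ A a) = algebraMap A₀ K a := fun a =>
    congrArg (fun g : A₀ →+* K => g a) hf
  have hfk : ∀ c : k, f (algebraMap k A c) = algebraMap k K c := by
    intro c
    rw [IsScalarTower.algebraMap_apply k A₀ A, hfa]
    exact (IsScalarTower.algebraMap_apply k A₀ K c).symm
  let fA : A →ₐ[k] K := { f with commutes' := hfk }
  have hfinj : Function.Injective f := by
    rw [injective_iff_map_eq_zero]
    intro b hb
    obtain ⟨n, a, ha⟩ := IsLocalization.Away.surj s b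
    have h1 : f (b * algebraMap A₀ A s ^ n) = f (algebraMap A₀ A a) := congrArg f ha
    rw [map_mul, hb, zero_mul, hfa] at h1
    have h4 : a = 0 := (IsFractionRing.injective A₀ K) (by rw [← h1, map_zero])
    rw [h4, map_zero] at ha
    have hu : IsUnit (algebraMap A₀ A s ^ n) :=
      (IsLocalization.Away.algebraMap_isUnit s).pow n
    rwa [hu.mul_left_eq_zero] at ha
  let τ : A →ₐ[k] Ω := σ.comp fA
  have hτ : Function.Injective τ := σ.toRingHom.injective.comp hfinj
  have hτX : ∀ i, τ (algebraMap A₀ A (MvPolynomial.X i)) = x i := by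
    intro i
    show σ (f (algebraMap A₀ A (MvPolynomial.X i))) = x i
    rw [hfa]
    show ((hx.aevalEquivField (algebraMap A₀ K (MvPolynomial.X i)) :
      IntermediateField.adjoin k (Set.range x)) : Ω) = x i
    rw [AlgebraicIndependent.aevalEquivField_algebraMap_apply_coe]
    simp
  have hinj : Function.Injective (both (L := L) τ) := by
    refine both_injective τ hτ (fun i => algebraMap A₀ A (MvPolynomial.X i)) ?_ ?_ hdom
    · intro a
      refine isAlgebraic_of_map τ hτ _ a ?_
      have h2 : (fun i => τ (algebraMap A₀ A (MvPolynomial.X i))) = x := funext hτX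
      rw [h2, ← IntermediateField.isAlgebraic_adjoin_iff]
      exact isAlgebraic_algebraMap (hx.aevalEquivField (fA a))
    · have h2 : (fun i => τ (algebraMap A₀ A (MvPolynomial.X i))) = x := funext hτX
      rw [h2]
      exact hL
  have smA : IsSm (Sp A) := isSm_of_smooth k A
  have hkey : T.res (τ : A →+* Ω) i j w = T.res (algebraMap L Ω) i j v := by
    rw [hv, ← hw]
    exact (res_eq hT smA (isSm_field K) (isSm_field Ω) (f := f) (g := (σ : K →+* Ω))
      (h := (τ : A →+* Ω)) rfl i j w).symm
  obtain ⟨c, hc⟩ := evaluate hT hdens τ hinj i j w v hkey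
  refine ⟨c, ?_⟩
  apply hT.res_injective (σ : K →+* Ω)
  have h5 : T.res (σ : K →+* Ω) i j u = T.res (algebraMap L Ω) i j v := hv.symm
  rw [h5, ← hc]
  exact (res_eq hT (isSm_field k) (isSm_field K) (isSm_field Ω) (f := algebraMap k K)
    (g := (σ : K →+* Ω)) (h := algebraMap k Ω) (RingHom.ext fun z => σ.commutes z) i j c).trans
    (res_eq hT (isSm_field k) (isSm_field L) (isSm_field Ω) (f := algebraMap k L)
    (g := algebraMap L Ω) (h := algebraMap k Ω) rfl i j c).symm

/-- If `H(Ω)` is small for some field `Ω` of infinite transcendence degree over `k` then the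
classes over all rational function fields over `k` are constant. -/
theorem surj_frac_of_small {k Ω : Type} [Field k] [CharZero k] [Field Ω] [CharZero Ω]
    [Algebra k Ω] (hinf : ℵ₀ ≤ Algebra.trdeg k Ω) (i j : ℤ)
    (hsmall : Module.rank ℚ (T.H (Sp Ω) i j ⧸ LinearMap.range (T.res (algebraMap k Ω) i j)) <
      Algebra.trdeg k Ω) (n : ℕ) :
    Function.Surjective (T.res (algebraMap k (FractionRing (MvPolynomial (Fin n) k))) i j) := by
  intro u
  obtain ⟨B, hB⟩ := exists_isTranscendenceBasis k Ω
  have hBinf : Infinite B := by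
    rw [Cardinal.infinite_iff, hB.cardinalMk_eq_trdeg]
    exact hinf
  obtain ⟨β, hβ, hdis⟩ := exists_blocks B n
  let xx : B → Fin n → Ω := fun y i => (β y i : Ω)
  have hxx : ∀ y, AlgebraicIndependent k (xx y) := fun y => hB.1.comp (β y) (hβ y)
  let L : B → IntermediateField k Ω := fun y =>
    clos k (((↑) : B → Ω) '' (Set.range (β y))ᶜ)
  have hL : ∀ y, AlgebraicIndependent (L y) (xx y) := fun y =>
    indep_clos k ((↑) : B → Ω) hB.1 (β y) (hβ y)
  let K := FractionRing (MvPolynomial (Fin n) k)
  have hcK : CharZero K := charZero_of_injective_algebraMap (algebraMap k K).injective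
  let σ : B → (K →ₐ[k] Ω) := fun y =>
    (IntermediateField.adjoin k (Set.range (xx y))).val.comp
      ((hxx y).aevalEquivField : K →ₐ[k] IntermediateField.adjoin k (Set.range (xx y)))
  have hmem : ∀ x y, y ≠ x → ∀ z, σ y z ∈ L x := by
    intro x y hyx z
    have h1 : IntermediateField.adjoin k (Set.range (xx y)) ≤ L x := by
      refine le_trans (IntermediateField.adjoin.mono k _ _ ?_) (adjoin_le_clos k _)
      rintro _ ⟨i, rfl⟩
      refine ⟨β y i, ?_, rfl⟩
      rintro ⟨j', hj'⟩
      exact hdis x y (Ne.symm hyx) j' i hj'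
    exact h1 ((hxx y).aevalEquivField z).2
  obtain ⟨x, hx⟩ := exists_mem_of_rank_lt (LinearMap.range (T.res (algebraMap k Ω) i j))
    (fun y : B => T.res (σ y : K →+* Ω) i j u)
    (fun x => LinearMap.range (T.res (algebraMap (L x) Ω) i j)) (by
      rintro x _ ⟨c, rfl⟩
      have hcL : CharZero (L x) :=
        charZero_of_injective_algebraMap (algebraMap k (L x)).injective
      refine ⟨T.res (algebraMap k (L x)) i j c, ?_⟩
      exact res_eq hT (isSm_field k) (isSm_field (L x)) (isSm_field Ω) rfl i j c) (by
      intro x y hyx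
      have hcL : CharZero (L x) :=
        charZero_of_injective_algebraMap (algebraMap k (L x)).injective
      let e : K →+* L x :=
        { toFun := fun z => ⟨σ y z, hmem x y hyx z⟩
          map_one' := Subtype.ext (map_one (σ y))
          map_mul' := fun _ _ => Subtype.ext (map_mul (σ y) _ _)
          map_zero' := Subtype.ext (map_zero (σ y))
          map_add' := fun _ _ => Subtype.ext (map_add (σ y) _ _) }
      refine ⟨T.res e i j u, ?_⟩
      exact res_eq hT (isSm_field K) (isSm_field (L x)) (isSm_field Ω)
        (h := (σ y : K →+* Ω)) rfl i j u) (by rw [hB.cardinalMk_eq_trdeg]; exact hsmall)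
  exact const_of_image hT (xx x) (hxx x) (L x) (hL x) i j u hx

end Pool.Agent.KBT
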