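import Mathlib
import Pool.Agent.KBT.Omega

set_option autoImplicit false

open AlgebraicGeometry CategoryTheory Polynomial Cardinal

namespace Pool.Agent.KBT

open Pool.Agent.Helper19.BS

theorem trdeg_complex : Algebra.trdeg ℚ ℂ = 𝔠 := by
  obtain ⟨B, hB⟩ := exists_isTranscendenceBasis ℚ ℂ
  rw [← hB.cardinalMk_eq_trdeg, ← Cardinal.mk_complex]
  have h := IsAlgClosed.cardinal_eq_cardinal_transcendence_basis_of_aleph0_lt' ((↑) : B → ℂ) hB
    (by simp) (by rw [Cardinal.mk_complex]; exact Cardinal.aleph0_lt_continuum)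
  exact h.symm

theorem large_complex : Large ℂ := by
  unfold Large
  rw [trdeg_complex]
  exact Cardinal.aleph0_le_continuum

instance isAlgebraic_qbar (Ω : Type) [Field Ω] [CharZero Ω] : Algebra.IsAlgebraic ℚ (Qbar Ω) := by
  have h := algebraicClosure.isAlgebraic ℚ Ω
  convert h
  · rfl
  · exact Subsingleton.elim _ _

theorem trdeg_qbar (Ω : Type) [Field Ω] [CharZero Ω] :
    Algebra.trdeg (Qbar Ω) Ω = Algebra.trdeg ℚ Ω := by
  obtain ⟨B, hB⟩ := exists_isTranscendenceBasis ℚ Ω
  have h : IsTranscendenceBasis (Qbar Ω) ((↑) : B → Ω) :=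
    (Algebra.IsAlgebraic.isTranscendenceBasis_iff ℚ (Qbar Ω)).1 hB
  rw [← hB.cardinalMk_eq_trdeg, ← h.cardinalMk_eq_trdeg]

theorem isAlgClosed_qbar (Ω : Type) [Field Ω] [CharZero Ω] [IsAlgClosed Ω] :
    IsAlgClosed (Qbar Ω) := by
  have h := algebraicClosure.isAlgClosure ℚ Ω
  exact h.isAlgClosed

variable {T : MotTheory} (hT : IsMotivic T)

include hT

theorem surj_small {Ω : Type} [Field Ω] [CharZero Ω] [IsAlgClosed Ω] (hΩ : Large Ω) (k w : ℤ)
    (h : Module.rank ℚ (NewClasses T (Qbar Ω) Ω k w) < Algebra.trdeg ℚ Ω) :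
    Function.Surjective (T.res (algebraMap (Qbar Ω) Ω) k w) := by
  have := isAlgClosed_qbar Ω
  rw [← trdeg_qbar Ω] at h
  refine surj_of_small hT ?_ k w h
  rw [trdeg_qbar]
  exact hΩ

theorem rigid_of_surj {Ω : Type} [Field Ω] [CharZero Ω] [IsAlgClosed Ω] (hΩ : Large Ω) (k w : ℤ)
    (h : Function.Surjective (T.res (algebraMap (Qbar Ω) Ω) k w)) : Rigid T k w := by
  have := isAlgClosed_qbar Ω
  intro F E _ _ _ _ _ f
  refine ⟨hT.res_injective f k w, ?_⟩
  refine surj_all hT (k := Qbar Ω) (Ω := Ω) ?_ k w h f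
  rw [trdeg_qbar]
  exact hΩ

theorem auts_of_surj (k w : ℤ) (h : Function.Surjective (T.res (algebraMap (Qbar ℂ) ℂ) k w)) :
    AutTrivial T k w := by
  intro σ u
  obtain ⟨c, rfl⟩ := h u
  exact res_eq hT (isSm_field (Qbar ℂ)) (isSm_field ℂ) (isSm_field ℂ)
    (RingHom.ext fun z => σ.commutes z) k w c

theorem curves_of_rigid (k w : ℤ) (h : Rigid T k w) : CurvesConstant T k w := by
  intro E _ _ _
  have hcE : CharZero E := charZero_of_injective_ringHom
    (f := (algebraMap (RatFunc ℂ) E).comp (algebraMap ℂ (RatFunc ℂ))) (RingHom.injective _)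
  have hcM : CharZero (AlgebraicClosure E) :=
    charZero_of_injective_algebraMap (algebraMap E (AlgebraicClosure E)).injective
  exact surj_of_factor hT _ (algebraMap E (AlgebraicClosure E))
    ((algebraMap E (AlgebraicClosure E)).comp
      ((algebraMap (RatFunc ℂ) E).comp (algebraMap ℂ (RatFunc ℂ)))) (fun x => rfl) k w
    (h _ _ _).2

/-- The equivalent forms of rigidity in a fixed degree and weight. -/
theorem tfae_rigid (k w : ℤ) : List.TFAE
    [Rigid T k w, FromQbar T k w, SmallOverC T k w, AutTrivial T k w, SmallOrbits T k w,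
     CurvesConstant T k w, SmallSomewhere T k w] := by
  have hc := isAlgClosed_qbar ℂ
  tfae_have 1 → 2 := fun h => h _ _ _
  tfae_have 2 → 3 := by
    intro h
    have ht := LinearMap.range_eq_top.2 h.2
    have : Subsingleton (NewClasses T (Qbar ℂ) ℂ k w) := Submodule.Quotient.subsingleton_iff.2 ht
    unfold SmallOverC
    rw [rank_subsingleton']
    exact lt_of_lt_of_le Cardinal.aleph0_pos Cardinal.aleph0_le_continuum
  tfae_have 3 → 7 := by
    intro h
    refine ⟨ℂ, inferInstance, inferInstance, inferInstance, large_complex, ?_⟩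
    rw [trdeg_complex]
    exact h
  tfae_have 7 → 1 := by
    rintro ⟨Ω, _, _, hcl, hΩ, h⟩
    exact rigid_of_surj hT hΩ k w (surj_small hT hΩ k w h)
  tfae_have 2 → 4 := fun h => auts_of_surj hT k w h.2
  tfae_have 4 → 5 := by
    intro h u
    have hr : (Set.range fun σ : ℂ ≃ₐ[Qbar ℂ] ℂ => T.res (σ : ℂ →+* ℂ) k w u) = {u} := by
      ext v
      constructor
      · rintro ⟨σ, rfl⟩
        exact h σ u
      · rintro rfl
        exact ⟨AlgEquiv.refl, h _ _⟩
    rw [hr, Cardinal.mk_singleton]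
    exact lt_of_lt_of_le Cardinal.one_lt_aleph0 Cardinal.aleph0_le_continuum
  tfae_have 5 → 2 := by
    intro h
    refine ⟨hT.res_injective _ k w, ?_⟩
    refine surj_of_orbits hT ?_ k w ?_
    · rw [trdeg_qbar]
      exact large_complex
    · intro u
      rw [trdeg_qbar, trdeg_complex]
      exact h u
  tfae_have 1 → 6 := curves_of_rigid hT k w
  tfae_have 6 → 2 := fun h => ⟨hT.res_injective _ k w, surj_of_curves hT k w h⟩
  tfae_finish

/-- Vanishing passes to subfields. -/
theorem sub_of_hom {F E : Type} [Field F] [Field E] [CharZero F] (f : F →+* E) {k j : ℤ}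
    (h : Subsingleton (T.H (Sp E) k j)) : Subsingleton (T.H (Sp F) k j) :=
  (hT.res_injective f k j).subsingleton

/-- The vanishing for all fields is rigidity and the vanishing for the algebraic numbers. -/
theorem rigid_iff_vanish (k w : ℤ) :
    FieldsVanish T k w ↔ Rigid T k w ∧ Subsingleton (T.H (Sp (Qbar ℂ)) k w) := by
  constructor
  · intro h
    refine ⟨?_, h (Qbar ℂ)⟩
    intro F E _ _ _ _ _ f
    have hcE : CharZero E := charZero_of_injective_ringHom f.injective
    have h1 := h E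
    exact ⟨hT.res_injective f k w, fun u => ⟨0, Subsingleton.elim _ _⟩⟩
  · rintro ⟨h, h0⟩ F _ _
    let Ω := AlgebraicClosure F
    have hcΩ : CharZero Ω := charZero_of_injective_algebraMap (algebraMap F Ω).injective
    have h1 := isAlgClosed_qbar Ω
    have h2 := isAlgClosed_qbar ℂ
    have h3 : Function.Surjective (T.res (algebraMap (Qbar Ω) Ω) k w) := (h _ _ _).2
    have h4 : IsAlgClosure ℚ (Qbar Ω) := ⟨h1, isAlgebraic_qbar Ω⟩
    have h5 : IsAlgClosure ℚ (Qbar ℂ) := ⟨h2, isAlgebraic_qbar ℂ⟩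
    let e : Qbar Ω ≃ₐ[ℚ] Qbar ℂ := IsAlgClosure.equiv ℚ (Qbar Ω) (Qbar ℂ)
    have h6 : Subsingleton (T.H (Sp (Qbar Ω)) k w) := sub_of_hom hT (e : Qbar Ω →+* Qbar ℂ) h0
    exact sub_of_hom hT (algebraMap F Ω) h3.subsingleton

theorem rigid_of_rank (k w : ℤ) (h : Module.rank ℚ (T.H (Sp ℂ) k w) < 𝔠) : Rigid T k w := by
  refine ((tfae_rigid hT k w).out 2 0).1 ?_
  exact lt_of_le_of_lt (rank_quotient_le _) h

omit hT in
theorem rank_of_vanish (k w : ℤ) (h : FieldsVanish T k w) :
    Module.rank ℚ (T.H (Sp ℂ) k w) < 𝔠 := by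
  have := h ℂ
  rw [rank_subsingleton']
  exact lt_of_lt_of_le Cardinal.aleph0_pos Cardinal.aleph0_le_continuum

end Pool.Agent.KBT
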