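import Mathlib
import Pool.Agent.KBT.RConj
import Pool.Agent.KBT.Final0

set_option autoImplicit false

open AlgebraicGeometry CategoryTheory Polynomial TensorProduct Cardinal

namespace Pool.Agent.KBT.R

open Pool.Agent.Helper19.BS

/-- Automorphisms moving a finite part of a transcendence basis into disjoint blocks of the
first half of a transcendence basis indexed by `X ⊕ X`. -/
theorem exists_auts' {k Ω : Type} [Field k] [Field Ω] [Algebra k Ω] [IsAlgClosed Ω] {X : Type}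
    [Infinite X] (z : X ⊕ X → Ω) (hz : IsTranscendenceBasis k z) {B : Set Ω}
    (hB : IsTranscendenceBasis k ((↑) : B → Ω)) {r : ℕ} (β₀ : Fin r → B)
    (hβ₀ : Function.Injective β₀) :
    ∃ (β : X → Fin r → X) (σ : X → Ω ≃ₐ[k] Ω), (∀ s, Function.Injective (β s)) ∧
      (∀ s t, s ≠ t → ∀ i j, β s i ≠ β t j) ∧ ∀ s i, σ s (β₀ i : Ω) = z (.inl (β s i)) := by
  obtain ⟨β, hβ, hdis⟩ := exists_blocks X r
  have hcard : #B = #(X ⊕ X) := by
    rw [hB.cardinalMk_eq_trdeg, ← hz.cardinalMk_eq_trdeg]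
  obtain ⟨e⟩ := Cardinal.eq.1 hcard
  have h1 : ∀ s, ∃ σ : Ω ≃ₐ[k] Ω, ∀ i, σ (β₀ i : Ω) = z (.inl (β s i)) := by
    intro s
    obtain ⟨g, hg⟩ := Equiv.Perm.exists_extending_pair (fun i => e (β₀ i))
      (fun i => (.inl (β s i) : X ⊕ X)) (e.injective.comp hβ₀) (Sum.inl_injective.comp (hβ s))
    obtain ⟨σ, hσ⟩ := exists_aut ((↑) : B → Ω) (z ∘ (e.trans g)) hB (hz.comp_equiv (e.trans g))
    refine ⟨σ, fun i => ?_⟩
    rw [hσ, Function.comp_apply, Equiv.trans_apply, hg]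
  choose σ hσ using h1
  exact ⟨β, σ, hβ, hdis, hσ⟩

/-- the equivalence of a set with two copies of itself -/
theorem exists_double (X : Type) [Infinite X] : Nonempty (X ⊕ X ≃ X) := by
  apply Cardinal.eq.1
  rw [mk_sum, lift_id]
  exact add_eq_self (aleph0_le_mk X)

variable {T : MotTheory} (hT : IsMotivic T)

include hT

/-- The main step: if `c` is a complex conjugation of `Ω` and the classes `u + c u` are few modulo
the classes over the algebraic numbers then all classes over `Ω` come from the algebraic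
numbers. -/
theorem surj_of_conj {Ω : Type} [Field Ω] [CharZero Ω] [IsAlgClosed Ω] (hΩ : Large Ω)
    (c : Ω ≃+* Ω) (I : Ω) (hI : I * I = -1) (hcI : c I = -I) {J : Type} (x : J → Ω)
    (hx : IsTranscendenceBasis ℚ x) (hcx : ∀ s, c (x s) = x s) (i j : ℤ)
    (hsmall : Module.rank ℚ (LinearMap.range
      ((LinearMap.range (T.res (algebraMap (Qbar Ω) Ω) i j)).mkQ ∘ₗ
        (LinearMap.id + T.res (c : Ω →+* Ω) i j))) < Algebra.trdeg ℚ Ω) :
    Function.Surjective (T.res (algebraMap (Qbar Ω) Ω) i j) := by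
  classical
  have hcl := isAlgClosed_qbar Ω
  have hIalg : IsAlgebraic ℚ I := by
    refine ⟨(X ^ 2 + 1 : ℚ[X]), ?_, ?_⟩
    · intro h0
      have := congrArg (Polynomial.eval 1) h0
      norm_num at this
    · rw [map_add, map_pow, Polynomial.aeval_X, map_one, sq, hI]
      ring
  let I0 : Qbar Ω := ⟨I, mem_algebraicClosure_iff.2 hIalg⟩
  have hI0 : I0 * I0 = -1 := Subtype.ext hI
  have hJinf : Infinite J := by
    rw [Cardinal.infinite_iff, hx.cardinalMk_eq_trdeg]
    exact hΩ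
  obtain ⟨e⟩ := exists_double J
  have hx' : IsTranscendenceBasis (Qbar Ω) (x ∘ e) :=
    (Algebra.IsAlgebraic.isTranscendenceBasis_iff ℚ (Qbar Ω)).1 (hx.comp_equiv e)
  let z : J ⊕ J → Ω := pairs I (x ∘ e)
  have hz : IsTranscendenceBasis (Qbar Ω) z := pairs_basis I0 hI0 (x ∘ e) hx'
  have hcz : ∀ s, c (z (.inl s)) = z (.inr s) := by
    intro s
    show c (x (e (.inl s)) + I * x (e (.inr s))) = x (e (.inl s)) - I * x (e (.inr s))
    rw [map_add, map_mul, hcI, hcx, hcx]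
    ring
  have hck : ∀ q : Qbar Ω, ∃ q' : Qbar Ω, c (algebraMap (Qbar Ω) Ω q) =
      algebraMap (Qbar Ω) Ω q' := by
    intro q
    have h1 : IsAlgebraic ℚ (q : Ω) := mem_algebraicClosure_iff.1 q.2
    have h2 : IsAlgebraic ℚ (c (q : Ω)) := by
      refine IsAlgebraic.ringHom_of_comp_eq (RingHom.id ℚ) (c : Ω →+* Ω) h1 Function.injective_id ?_
      exact RingHom.ext fun a => by simp
    exact ⟨⟨c (q : Ω), mem_algebraicClosure_iff.2 h2⟩, rfl⟩
  intro u
  by_contra hcon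
  have hcon' : u ∉ LinearMap.range (T.res (algebraMap (Qbar Ω) Ω) i j) := hcon
  obtain ⟨B, r, β₀, E, uE, hB, hβ₀, huE, hE, hiso⟩ := isolate hT (k := Qbar Ω) i j u
  have hcE : CharZero E := charZero_of_injective_algebraMap (algebraMap (Qbar Ω) E).injective
  obtain ⟨β, σ, hβ, hdis, hσ⟩ := exists_auts' z hz hB β₀ hβ₀
  let L : J → IntermediateField (Qbar Ω) Ω := fun s =>
    clos (Qbar Ω) (z '' (Set.range (fun i => (.inl (β s i) : J ⊕ J)))ᶜ)
  have hcL : ∀ s, CharZero (L s) := fun s =>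
    charZero_of_injective_algebraMap (algebraMap (Qbar Ω) (L s)).injective
  have hind : ∀ s, AlgebraicIndependent (L s) (fun i => σ s (β₀ i : Ω)) := by
    intro s
    have := indep_clos (Qbar Ω) z hz.1 (fun i => (.inl (β s i) : J ⊕ J))
      (Sum.inl_injective.comp (hβ s))
    simpa only [hσ] using this
  have hm1 : ∀ s t, t ≠ s → ∀ y ∈ E, σ t y ∈ L s := by
    intro s t hts y hy
    refine map_mem_clos (Qbar Ω) (σ t) _ _ ?_ (hE hy)
    rintro _ ⟨i, rfl⟩
    rw [hσ]
    refine ⟨.inl (β t i), ?_, rfl⟩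
    rintro ⟨j, hj⟩
    exact hdis s t (Ne.symm hts) j i (Sum.inl_injective hj)
  have hm2 : ∀ s t, ∀ y ∈ E, c (σ t y) ∈ L s := by
    intro s t y hy
    have h1 : σ t y ∈ clos (Qbar Ω) (Set.range fun i => z (.inl (β t i))) := by
      refine map_mem_clos (Qbar Ω) (σ t) _ _ ?_ (hE hy)
      rintro _ ⟨i, rfl⟩
      rw [hσ]
      exact ⟨i, rfl⟩
    refine semi_mem_clos c hck _ _ ?_ h1
    rintro _ ⟨i, rfl⟩
    rw [hcz]
    refine ⟨.inr (β t i), ?_, rfl⟩
    rintro ⟨j, hj⟩
    exact Sum.inl_ne_inr hj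
  have hr1 : ∀ s t, t ≠ s → T.res ((σ t : Ω ≃ₐ[Qbar Ω] Ω) : Ω →+* Ω) i j u ∈
      LinearMap.range (T.res (algebraMap (L s) Ω) i j) := by
    intro s t hts
    let ε : E →+* L s :=
      { toFun := fun y => ⟨σ t y, hm1 s t hts y y.2⟩
        map_one' := Subtype.ext (map_one (σ t))
        map_mul' := fun _ _ => Subtype.ext (map_mul (σ t) _ _)
        map_zero' := Subtype.ext (map_zero (σ t))
        map_add' := fun _ _ => Subtype.ext (map_add (σ t) _ _) }
    refine ⟨T.res ε i j uE, ?_⟩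
    rw [← huE]
    exact (res_comp' hT ε (algebraMap (L s) Ω) i j uE).symm.trans
      (res_comp' hT (algebraMap E Ω) ((σ t : Ω ≃ₐ[Qbar Ω] Ω) : Ω →+* Ω) i j uE)
  have hr2 : ∀ s t, T.res (c : Ω →+* Ω) i j (T.res ((σ t : Ω ≃ₐ[Qbar Ω] Ω) : Ω →+* Ω) i j u) ∈
      LinearMap.range (T.res (algebraMap (L s) Ω) i j) := by
    intro s t
    let ε : E →+* L s :=
      { toFun := fun y => ⟨c (σ t y), hm2 s t y y.2⟩
        map_one' := Subtype.ext (by simp)
        map_mul' := fun _ _ => Subtype.ext (by simp)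
        map_zero' := Subtype.ext (by simp)
        map_add' := fun _ _ => Subtype.ext (by simp) }
    refine ⟨T.res ε i j uE, ?_⟩
    rw [← huE, ← res_comp' hT, ← res_comp' hT, ← res_comp' hT]
    rfl
  have hnot : ∀ s, T.res ((σ s : Ω ≃ₐ[Qbar Ω] Ω) : Ω →+* Ω) i j u ∉
      LinearMap.range (T.res (algebraMap (L s) Ω) i j) :=
    fun s hs => hcon' (hiso (σ s) (L s) (hind s) hs)
  let N := LinearMap.range (T.res (algebraMap (Qbar Ω) Ω) i j)
  let Φ : T.H (Sp Ω) i j →ₗ[ℚ] (T.H (Sp Ω) i j ⧸ N) :=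
    N.mkQ ∘ₗ (LinearMap.id + T.res (c : Ω →+* Ω) i j)
  let v : J → T.H (Sp Ω) i j := fun s => T.res ((σ s : Ω ≃ₐ[Qbar Ω] Ω) : Ω →+* Ω) i j u
  let w : J → LinearMap.range Φ := fun s => ⟨Φ (v s), v s, rfl⟩
  have hw : LinearIndependent ℚ w := by
    rw [linearIndependent_iff']
    intro S g hg s hs
    by_contra hgs
    apply hnot s
    have h2 : Φ (∑ t ∈ S, g t • v t) = 0 := by
      have h3 := congrArg (Subtype.val) hg
      rw [map_sum]
      simpa [w] using h3
    have h4 : (∑ t ∈ S, g t • v t) + T.res (c : Ω →+* Ω) i j (∑ t ∈ S, g t • v t) ∈ N := by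
      have h5 : N.mkQ ((∑ t ∈ S, g t • v t) +
          T.res (c : Ω →+* Ω) i j (∑ t ∈ S, g t • v t)) = 0 := h2
      rwa [Submodule.mkQ_apply, Submodule.Quotient.mk_eq_zero] at h5
    have hNL : N ≤ LinearMap.range (T.res (algebraMap (L s) Ω) i j) := by
      rintro _ ⟨a, rfl⟩
      refine ⟨T.res (algebraMap (Qbar Ω) (L s)) i j a, ?_⟩
      rw [← res_comp' hT]
      rfl
    have h6 := hNL h4
    have h7 : T.res (c : Ω →+* Ω) i j (∑ t ∈ S, g t • v t) ∈
        LinearMap.range (T.res (algebraMap (L s) Ω) i j) := by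
      rw [map_sum]
      refine Submodule.sum_mem _ fun t _ => ?_
      rw [map_smul]
      exact Submodule.smul_mem _ _ (hr2 s t)
    have h8 := Submodule.sub_mem _ h6 h7
    rw [add_sub_cancel_right, ← Finset.add_sum_erase S _ hs] at h8
    have h9 : (∑ t ∈ S.erase s, g t • v t) ∈
        LinearMap.range (T.res (algebraMap (L s) Ω) i j) :=
      Submodule.sum_mem _ fun t ht => Submodule.smul_mem _ _ (hr1 s t (Finset.ne_of_mem_erase ht))
    have h10 := Submodule.sub_mem _ h8 h9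
    rw [add_sub_cancel_right] at h10
    have h11 := Submodule.smul_mem _ (g s)⁻¹ h10
    rwa [smul_smul, inv_mul_cancel₀ hgs, one_smul] at h11
  have h9 := hw.cardinal_le_rank
  rw [hx.cardinalMk_eq_trdeg] at h9
  exact absurd hsmall (not_lt.2 h9)

end Pool.Agent.KBT.R
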