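import Mathlib
import Pool.Agent.KBT.RFamily

set_option autoImplicit false

open AlgebraicGeometry CategoryTheory Polynomial TensorProduct Cardinal Pool.Agent.Helper19.BS

namespace Pool.Agent.KBT.R

/-- The transfer for finite Galois extensions: the sum of the conjugates of a class comes from the
base field. -/
def Descent (T : MotTheory) : Prop :=
  ∀ (K L : Type) [Field K] [Field L] [CharZero K] [Algebra K L] [FiniteDimensional K L]
    [IsGalois K L] (k w : ℤ) (u : T.H (Sp L) k w),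
    ∑ σ : L ≃ₐ[K] L, T.res (σ : L →+* L) k w u ∈ LinearMap.range (T.res (algebraMap K L) k w)

/-- Real closed fields, characterised (Artin-Schreier) by the property of having an algebraically
closed extension of degree two. -/
def RealClosed (K : Type) [Field K] : Prop :=
  ∃ (Ω : Type) (_ : Field Ω) (_ : Algebra K Ω), IsAlgClosed Ω ∧ Module.finrank K Ω = 2

/-- a conjugation -/
structure Conj (K Ω : Type) [Field K] [Field Ω] [Algebra K Ω] where
  c : Ω ≃ₐ[K] Ω
  I : Ω
  hI : I * I = -1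
  hcI : c I = -I
  hcc : ∀ z, c (c z) = z
  huniv : ∀ σ : Ω ≃ₐ[K] Ω, σ = 1 ∨ σ = c
  hne : c ≠ 1

theorem normal_of_isAlgClosed {K Ω : Type} [Field K] [Field Ω] [Algebra K Ω] [IsAlgClosed Ω]
    [Algebra.IsAlgebraic K Ω] : Normal K Ω := by
  have h : IsAlgClosure K Ω := ⟨inferInstance, inferInstance⟩
  exact IsAlgClosure.normal K Ω

theorem exists_conj {K Ω : Type} [Field K] [CharZero K] [Field Ω] [Algebra K Ω] [IsAlgClosed Ω]
    (h : Module.finrank K Ω = 2) : FiniteDimensional K Ω ∧ IsGalois K Ω ∧ Nonempty (Conj K Ω) := by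
  have hfin : FiniteDimensional K Ω := FiniteDimensional.of_finrank_pos (by rw [h]; norm_num)
  have hnorm : Normal K Ω := normal_of_isAlgClosed
  have hgal : IsGalois K Ω := ⟨⟩
  refine ⟨hfin, hgal, ?_⟩
  have hcard : Nat.card (Ω ≃ₐ[K] Ω) = 2 := by rw [IsGalois.card_aut_eq_finrank, h]
  obtain ⟨a, b, hab, huniv⟩ := Nat.card_eq_two_iff.1 hcard
  have hex : ∃ c : Ω ≃ₐ[K] Ω, c ≠ 1 ∧ ∀ σ : Ω ≃ₐ[K] Ω, σ = 1 ∨ σ = c := by
    have hmem : ∀ σ : Ω ≃ₐ[K] Ω, σ = a ∨ σ = b := by
      intro σ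
      have : σ ∈ ({a, b} : Set (Ω ≃ₐ[K] Ω)) := by rw [huniv]; trivial
      simpa using this
    rcases hmem 1 with h1 | h1
    · refine ⟨b, ?_, ?_⟩
      · rw [h1]; exact hab.symm
      · intro σ; rw [h1]; exact hmem σ
    · refine ⟨a, ?_, ?_⟩
      · rw [h1]; exact hab
      · intro σ; rw [h1]; exact (hmem σ).symm
  obtain ⟨c, hc1, hcu⟩ := hex
  have hcc : ∀ z, c (c z) = z := by
    intro z
    rcases hcu (c * c) with h2 | h2
    · have := congrArg (fun σ : Ω ≃ₐ[K] Ω => σ z) h2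
      exact this
    · exact absurd (mul_eq_left.1 h2) hc1
  have hs : ∃ s : Ω, c s ≠ s := by
    by_contra hcon
    push Not at hcon
    exact hc1 (AlgEquiv.ext hcon)
  obtain ⟨s, hs⟩ := hs
  let s' := s - c s
  have hs' : s' ≠ 0 := sub_ne_zero.2 (Ne.symm hs)
  have hcs' : c s' = -s' := by
    show c (s - c s) = -(s - c s)
    rw [map_sub, hcc]; ring
  obtain ⟨y, hy⟩ := IsAlgClosed.exists_eq_mul_self s'
  let w := y * c y
  have hcw : c w = w := by
    show c (y * c y) = y * c y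
    rw [map_mul, hcc, mul_comm]
  have hww : w * w = -(s' * s') := by
    show y * c y * (y * c y) = _
    have h3 : c s' = c y * c y := by rw [hy, map_mul]
    calc y * c y * (y * c y) = (y * y) * (c y * c y) := by ring
      _ = s' * c s' := by rw [← hy, ← h3]
      _ = -(s' * s') := by rw [hcs']; ring
  refine ⟨⟨c, w / s', ?_, ?_, hcc, hcu, hc1⟩⟩
  · rw [div_mul_div_comm, hww, neg_div, div_self (mul_ne_zero hs' hs')]
  · rw [map_div₀, hcw, hcs', div_neg]

theorem Conj.decomp {K Ω : Type} [Field K] [CharZero K] [Field Ω] [Algebra K Ω]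
    [FiniteDimensional K Ω] [IsGalois K Ω] (C : Conj K Ω) (z : Ω) :
    ∃ a b : K, z = algebraMap K Ω a + C.I * algebraMap K Ω b := by
  have hfix : ∀ y : Ω, C.c y = y → ∃ a : K, algebraMap K Ω a = y := by
    intro y hy
    have := (IsGalois.mem_range_algebraMap_iff_fixed (F := K) (E := Ω) y).2 (fun σ => by
      rcases C.huniv σ with rfl | rfl
      · rfl
      · exact hy)
    exact this
  have h2 : (2 : Ω) ≠ 0 := by
    have : CharZero Ω := charZero_of_injective_algebraMap (algebraMap K Ω).injective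
    exact two_ne_zero
  have hI0 : C.I ≠ 0 := by
    intro h0
    have := C.hI
    rw [h0, mul_zero] at this
    exact one_ne_zero (neg_eq_zero.1 this.symm)
  obtain ⟨a, ha⟩ := hfix ((z + C.c z) / 2) (by
    rw [map_div₀, map_add, C.hcc, map_ofNat, add_comm])
  obtain ⟨b, hb⟩ := hfix ((z - C.c z) / (2 * C.I)) (by
    rw [map_div₀, map_sub, C.hcc, map_mul, map_ofNat, C.hcI]
    field_simp
    ring)
  refine ⟨a, b, ?_⟩
  rw [ha, hb]
  field_simp
  ring

variable {T : MotTheory} (hT : IsMotivic T) (hD : Descent T)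

include hD in
theorem add_conj_mem {K Ω : Type} [Field K] [CharZero K] [Field Ω] [Algebra K Ω]
    [FiniteDimensional K Ω] [IsGalois K Ω] (C : Conj K Ω) (i j : ℤ) (u : T.H (Sp Ω) i j)
    (hid : T.res ((1 : Ω ≃ₐ[K] Ω) : Ω →+* Ω) i j u = u) :
    u + T.res (C.c : Ω →+* Ω) i j u ∈ LinearMap.range (T.res (algebraMap K Ω) i j) := by
  classical
  have h := hD K Ω i j u
  have hu : (Finset.univ : Finset (Ω ≃ₐ[K] Ω)) = {1, C.c} := by
    ext σ
    simp only [Finset.mem_univ, Finset.mem_insert, Finset.mem_singleton, true_iff]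
    exact C.huniv σ
  rw [hu, Finset.sum_pair (Ne.symm C.hne), hid] at h
  exact h

include hT hD

/-- If there are few classes over a real closed field of infinite transcendence degree then there
is rigidity. -/
theorem rigid_of_real {K : Type} [Field K] [CharZero K] (hK : RealClosed K) (hL : Large K)
    (i j : ℤ) (hsmall : Module.rank ℚ (NewClasses T (Qbar K) K i j) < Algebra.trdeg ℚ K) :
    Rigid T i j := by
  obtain ⟨Ω, _, _, hcl, hrank⟩ := hK
  obtain ⟨hfin, hgal, ⟨C⟩⟩ := exists_conj hrank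
  have hcΩ : CharZero Ω := charZero_of_injective_algebraMap (algebraMap K Ω).injective
  obtain ⟨J, x, hx⟩ := exists_isTranscendenceBasis' ℚ K
  have hx' : IsTranscendenceBasis ℚ (algebraMap K Ω ∘ x) := hx.algebraMap_comp
  have htr : Algebra.trdeg ℚ Ω = Algebra.trdeg ℚ K := by
    rw [← hx.cardinalMk_eq_trdeg, ← hx'.cardinalMk_eq_trdeg]
  have hΩ : Large Ω := by
    unfold Large
    rw [htr]
    exact hL
  apply rigid_of_surj hT hΩ i j
  refine surj_of_conj hT hΩ (C.c : Ω ≃+* Ω) C.I C.hI C.hcI (algebraMap K Ω ∘ x) hx'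
    (fun s => C.c.commutes (x s)) i j ?_
  refine lt_of_le_of_lt ?_ (lt_of_lt_of_eq hsmall htr.symm)
  let N := LinearMap.range (T.res (algebraMap (Qbar Ω) Ω) i j)
  let Ψ : T.H (Sp K) i j →ₗ[ℚ] (T.H (Sp Ω) i j ⧸ N) := N.mkQ ∘ₗ T.res (algebraMap K Ω) i j
  have hker : LinearMap.range (T.res (algebraMap (Qbar K) K) i j) ≤ LinearMap.ker Ψ := by
    rintro _ ⟨a, rfl⟩
    show N.mkQ (T.res (algebraMap K Ω) i j (T.res (algebraMap (Qbar K) K) i j a)) = 0
    rw [Submodule.mkQ_apply, Submodule.Quotient.mk_eq_zero]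
    let ε : Qbar K →+* Qbar Ω :=
      { toFun := fun z => ⟨algebraMap K Ω z, mem_algebraicClosure_iff.2
          ((mem_algebraicClosure_iff.1 z.2).algebraMap)⟩
        map_one' := Subtype.ext (by simp)
        map_mul' := fun _ _ => Subtype.ext (by simp)
        map_zero' := Subtype.ext (by simp)
        map_add' := fun _ _ => Subtype.ext (by simp) }
    refine ⟨T.res ε i j a, ?_⟩
    rw [← res_comp' hT, ← res_comp' hT]
    rfl
  let Ψ' : NewClasses T (Qbar K) K i j →ₗ[ℚ] (T.H (Sp Ω) i j ⧸ N) := Submodule.liftQ _ Ψ hker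
  have hle : LinearMap.range (N.mkQ ∘ₗ (LinearMap.id + T.res ((C.c : Ω ≃+* Ω) : Ω →+* Ω) i j)) ≤
      LinearMap.range Ψ' := by
    rintro _ ⟨u, rfl⟩
    obtain ⟨a, ha⟩ := add_conj_mem hD C i j u (res_id hT (isSm_field Ω) i j u)
    refine ⟨Submodule.Quotient.mk a, ?_⟩
    show N.mkQ (T.res (algebraMap K Ω) i j a) = N.mkQ _
    rw [ha]
    rfl
  exact (Submodule.rank_mono hle).trans (rank_range_le Ψ')

/-- Rigidity implies that all classes over real closed fields come from the algebraic numbers. -/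
theorem real_of_rigid {K : Type} [Field K] [CharZero K] (hK : RealClosed K) (i j : ℤ)
    (h : Rigid T i j) : Function.Bijective (T.res (algebraMap (Qbar K) K) i j) := by
  refine ⟨hT.res_injective _ i j, ?_⟩
  obtain ⟨Ω, _, _, hcl, hrank⟩ := hK
  obtain ⟨hfin, hgal, ⟨C⟩⟩ := exists_conj hrank
  have hcΩ : CharZero Ω := charZero_of_injective_algebraMap (algebraMap K Ω).injective
  have hclQ := isAlgClosed_qbar Ω
  let ε : Qbar K →+* Qbar Ω :=
    { toFun := fun z => ⟨algebraMap K Ω z, mem_algebraicClosure_iff.2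
        ((mem_algebraicClosure_iff.1 z.2).algebraMap)⟩
      map_one' := Subtype.ext (by simp)
      map_mul' := fun _ _ => Subtype.ext (by simp)
      map_zero' := Subtype.ext (by simp)
      map_add' := fun _ _ => Subtype.ext (by simp) }
  let _ : Algebra (Qbar K) (Qbar Ω) := ε.toAlgebra
  have hIalg : IsAlgebraic ℚ C.I := by
    refine ⟨(X ^ 2 + 1 : ℚ[X]), ?_, ?_⟩
    · intro h0
      have := congrArg (Polynomial.eval 1) h0
      norm_num at this
    · rw [map_add, map_pow, Polynomial.aeval_X, map_one, sq, C.hI]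
      ring
  have hcalg : ∀ z : Ω, IsAlgebraic ℚ z → IsAlgebraic ℚ (C.c z) := by
    intro z hz
    refine IsAlgebraic.ringHom_of_comp_eq (RingHom.id ℚ) (C.c : Ω →+* Ω) hz
      Function.injective_id ?_
    exact RingHom.ext fun a => by simp
  let I0 : Qbar Ω := ⟨C.I, mem_algebraicClosure_iff.2 hIalg⟩
  have hdec : ∀ z : Qbar Ω, ∃ a b : Qbar K, z = ε a + I0 * ε b := by
    intro z
    obtain ⟨a, b, hab⟩ := C.decomp (z : Ω)
    have hz : IsAlgebraic ℚ (z : Ω) := mem_algebraicClosure_iff.1 z.2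
    have hI2 := C.hI
    have hI0 : C.I ≠ 0 := by
      intro h0
      rw [h0, mul_zero] at hI2
      exact one_ne_zero (neg_eq_zero.1 hI2.symm)
    have h2 : (2 : Ω) ≠ 0 := two_ne_zero
    have hcz : C.c (z : Ω) = algebraMap K Ω a - C.I * algebraMap K Ω b := by
      rw [hab, map_add, map_mul, C.hcI, C.c.commutes, C.c.commutes]
      ring
    have ha : IsAlgebraic ℚ (algebraMap K Ω a) := by
      have h3 : algebraMap K Ω a = (2 : Ω)⁻¹ * ((z : Ω) + C.c z) := by
        rw [hcz, hab]; field_simp; ring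
      rw [h3]
      have h4 : IsAlgebraic ℚ ((2 : Ω)⁻¹) := by
        have : ((2 : Ω)⁻¹) = algebraMap ℚ Ω ((2 : ℚ)⁻¹) := by simp
        rw [this]; exact isAlgebraic_algebraMap _
      exact h4.mul (hz.add (hcalg _ hz))
    have hb : IsAlgebraic ℚ (algebraMap K Ω b) := by
      have h3 : algebraMap K Ω b = (2 : Ω)⁻¹ * (C.I * (C.c z - (z : Ω))) := by
        rw [hcz, hab]
        have : C.I * (algebraMap K Ω a - C.I * algebraMap K Ω b -
            (algebraMap K Ω a + C.I * algebraMap K Ω b)) =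
            -(2 * (C.I * C.I) * algebraMap K Ω b) := by ring
        rw [this, hI2]; field_simp
      rw [h3]
      have h4 : IsAlgebraic ℚ ((2 : Ω)⁻¹) := by
        have : ((2 : Ω)⁻¹) = algebraMap ℚ Ω ((2 : ℚ)⁻¹) := by simp
        rw [this]; exact isAlgebraic_algebraMap _
      exact h4.mul (hIalg.mul ((hcalg _ hz).sub hz))
    have ha' : IsAlgebraic ℚ a :=
      (isAlgebraic_algebraMap_iff (algebraMap K Ω).injective).1 ha
    have hb' : IsAlgebraic ℚ b :=
      (isAlgebraic_algebraMap_iff (algebraMap K Ω).injective).1 hb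
    exact ⟨⟨a, mem_algebraicClosure_iff.2 ha'⟩, ⟨b, mem_algebraicClosure_iff.2 hb'⟩,
      Subtype.ext hab⟩
  have hfin0 : FiniteDimensional (Qbar K) (Qbar Ω) := by
    let f : (Qbar K × Qbar K) →ₗ[Qbar K] Qbar Ω :=
      { toFun := fun p => ε p.1 + I0 * ε p.2
        map_add' := fun p q => by
          simp only [Prod.fst_add, Prod.snd_add, map_add]; ring
        map_smul' := fun r p => by
          show ε (r * p.1) + I0 * ε (r * p.2) = ε r * (ε p.1 + I0 * ε p.2)
          rw [map_mul, map_mul]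
          ring }
    refine Module.Finite.of_surjective f ?_
    intro z
    obtain ⟨a, b, hab⟩ := hdec z
    exact ⟨(a, b), hab.symm⟩
  have hnorm0 : Normal (Qbar K) (Qbar Ω) := normal_of_isAlgClosed
  have hgal0 : IsGalois (Qbar K) (Qbar Ω) := ⟨⟩
  intro u
  obtain ⟨c0, hc0⟩ := (h (Qbar Ω) Ω (algebraMap (Qbar Ω) Ω)).2 (T.res (algebraMap K Ω) i j u)
  obtain ⟨a, ha⟩ := hD (Qbar K) (Qbar Ω) i j c0
  -- every automorphism of `Qbar Ω` over `Qbar K` extends
  have hext : ∀ σ : Qbar Ω ≃ₐ[Qbar K] Qbar Ω, ∃ σ' : Ω ≃ₐ[K] Ω, ∀ z : Qbar Ω,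
      ((σ z : Qbar Ω) : Ω) = σ' z := by
    intro σ
    have h1 : σ I0 * σ I0 = -1 := by
      rw [← map_mul]
      have : I0 * I0 = -1 := Subtype.ext C.hI
      rw [this, map_neg, map_one]
    have h2 : σ I0 = I0 ∨ σ I0 = -I0 := by
      have h3 : (σ I0 - I0) * (σ I0 + I0) = 0 := by
        have : I0 * I0 = -1 := Subtype.ext C.hI
        calc (σ I0 - I0) * (σ I0 + I0) = σ I0 * σ I0 - I0 * I0 := by ring
          _ = 0 := by rw [h1, this, sub_self]
      rcases mul_eq_zero.1 h3 with h4 | h4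
      · exact Or.inl (sub_eq_zero.1 h4)
      · exact Or.inr (eq_neg_of_add_eq_zero_left h4)
    have hσ : ∀ y : Qbar K, σ (ε y) = ε y := fun y => σ.commutes y
    rcases h2 with h2 | h2
    · refine ⟨1, fun z => ?_⟩
      obtain ⟨y1, y2, hy⟩ := hdec z
      rw [hy, map_add, map_mul, hσ, hσ, h2]
      rfl
    · refine ⟨C.c, fun z => ?_⟩
      obtain ⟨y1, y2, hy⟩ := hdec z
      rw [hy, map_add, map_mul, hσ, hσ, h2]
      show ((ε y1 : Qbar Ω) : Ω) + (-(C.I)) * ((ε y2 : Qbar Ω) : Ω) =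
        C.c (((ε y1 : Qbar Ω) : Ω) + C.I * ((ε y2 : Qbar Ω) : Ω))
      have e1 : ((ε y1 : Qbar Ω) : Ω) = algebraMap K Ω y1 := rfl
      have e2 : ((ε y2 : Qbar Ω) : Ω) = algebraMap K Ω y2 := rfl
      rw [map_add, map_mul, C.hcI, e1, e2, C.c.commutes, C.c.commutes]
  have hsum : T.res (algebraMap (Qbar Ω) Ω) i j
      (∑ σ : Qbar Ω ≃ₐ[Qbar K] Qbar Ω, T.res (σ : Qbar Ω →+* Qbar Ω) i j c0) =
      (Fintype.card (Qbar Ω ≃ₐ[Qbar K] Qbar Ω)) • T.res (algebraMap K Ω) i j u := by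
    rw [map_sum]
    have : ∀ σ : Qbar Ω ≃ₐ[Qbar K] Qbar Ω, T.res (algebraMap (Qbar Ω) Ω) i j
        (T.res (σ : Qbar Ω →+* Qbar Ω) i j c0) = T.res (algebraMap K Ω) i j u := by
      intro σ
      obtain ⟨σ', hσ'⟩ := hext σ
      have e1 : (algebraMap (Qbar Ω) Ω).comp (σ : Qbar Ω →+* Qbar Ω) =
          (σ' : Ω →+* Ω).comp (algebraMap (Qbar Ω) Ω) := RingHom.ext fun z => hσ' z
      have e2 : (σ' : Ω →+* Ω).comp (algebraMap K Ω) = algebraMap K Ω :=
        RingHom.ext fun z => σ'.commutes z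
      rw [← res_comp' hT, e1, res_comp' hT, hc0, ← res_comp' hT, e2]
    rw [Finset.sum_congr rfl fun σ _ => this σ, Finset.sum_const, Finset.card_univ]
  refine ⟨((Fintype.card (Qbar Ω ≃ₐ[Qbar K] Qbar Ω) : ℚ)⁻¹) • a, ?_⟩
  apply hT.res_injective (algebraMap K Ω)
  have e3 : (algebraMap K Ω).comp (algebraMap (Qbar K) K) =
      (algebraMap (Qbar Ω) Ω).comp (algebraMap (Qbar K) (Qbar Ω)) := RingHom.ext fun z => rfl
  rw [map_smul, map_smul, ← res_comp' hT, e3, res_comp' hT, ha, hsum, ← Nat.cast_smul_eq_nsmul ℚ,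
    smul_smul, inv_mul_cancel₀, one_smul]
  exact Nat.cast_ne_zero.2 Fintype.card_ne_zero

end Pool.Agent.KBT.R
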