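import Mathlib
import Pool.Agent.KBT.RReal

set_option autoImplicit false

open AlgebraicGeometry CategoryTheory Polynomial TensorProduct Cardinal

namespace Pool.Agent.KBT.A

open Pool.Agent.Helper19.BS Pool.Agent.KBT.R

/-- The automorphisms of a finite Galois extension of the field of algebraic numbers in `K`
extend to automorphisms over `K` of an algebraic closure of `K`. -/
theorem exists_extension {K Ω : Type} [Field K] [CharZero K] [Field Ω] [Algebra K Ω] [CharZero Ω]
    [IsGalois K Ω] (N : IntermediateField (Qbar K) Ω) [FiniteDimensional (Qbar K) N]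
    [IsGalois (Qbar K) N] (halg : ∀ x : N, IsAlgebraic ℚ (x : Ω)) (σ : N ≃ₐ[Qbar K] N) :
    ∃ σ' : Ω ≃ₐ[K] Ω, ∀ x : N, σ' (x : Ω) = (σ x : Ω) := by
  let ρ₁ : (Ω ≃ₐ[K] Ω) →* (Ω ≃ₐ[Qbar K] Ω) :=
    { toFun := fun τ => τ.restrictScalars (Qbar K)
      map_one' := rfl
      map_mul' := fun _ _ => rfl }
  let ρ : (Ω ≃ₐ[K] Ω) →* (N ≃ₐ[Qbar K] N) := (AlgEquiv.restrictNormalHom N).comp ρ₁
  have hρ : ∀ (τ : Ω ≃ₐ[K] Ω) (x : N), ((ρ τ x : N) : Ω) = τ (x : Ω) := fun τ x =>
    AlgEquiv.restrictNormalHom_apply N (ρ₁ τ) x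
  let H := ρ.range
  have h1 : IntermediateField.fixedField H = ⊥ := by
    rw [eq_bot_iff]
    intro x hx
    have h2 : ∀ τ : Ω ≃ₐ[K] Ω, τ (x : Ω) = (x : Ω) := by
      intro τ
      rw [← hρ]
      have := hx ⟨ρ τ, τ, rfl⟩
      exact congrArg Subtype.val this
    obtain ⟨y, hy⟩ := (InfiniteGalois.mem_range_algebraMap_iff_fixed (k := K) (K := Ω) (x : Ω)).2 h2
    have hyalg : IsAlgebraic ℚ y := by
      have := halg x
      rw [← hy] at this
      exact (isAlgebraic_algebraMap_iff (algebraMap K Ω).injective).1 this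
    rw [IntermediateField.mem_bot]
    exact ⟨⟨y, mem_algebraicClosure_iff.2 hyalg⟩, Subtype.ext hy⟩
  have h2 : H = ⊤ := by
    have h3 := IntermediateField.fixingSubgroup_fixedField H
    rw [h1, IntermediateField.fixingSubgroup_bot] at h3
    exact h3.symm
  have h3 : σ ∈ H := by rw [h2]; trivial
  obtain ⟨τ, hτ⟩ := h3
  refine ⟨τ, fun x => ?_⟩
  rw [← hρ, hτ]

variable {T : MotTheory} (hT : IsMotivic T) (hD : Descent T)

include hT hD

/-- Rigidity implies that all classes over any field come from the algebraic numbers. -/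
theorem field_of_rigid (K : Type) [Field K] [CharZero K] (i j : ℤ)
    (h : Rigid T i j) : Function.Bijective (T.res (algebraMap (Qbar K) K) i j) := by
  classical
  refine ⟨hT.res_injective _ i j, ?_⟩
  let Ω := AlgebraicClosure K
  have hcΩ : CharZero Ω := charZero_of_injective_algebraMap (algebraMap K Ω).injective
  have hclQ := isAlgClosed_qbar Ω
  have hgal : IsGalois K Ω := ⟨⟩
  intro u
  obtain ⟨c0, hc0⟩ := (h (Qbar Ω) Ω (algebraMap (Qbar Ω) Ω)).2 (T.res (algebraMap K Ω) i j u)
  obtain ⟨F, ⟨G, hG⟩, b, hb⟩ := hT.continuity (Qbar Ω) i j c0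
  -- a finite Galois extension of `Qbar K` containing `F`
  let G' : Set Ω := (algebraMap (Qbar Ω) Ω) '' (G : Set (Qbar Ω))
  let N₀ : IntermediateField (Qbar K) Ω := IntermediateField.adjoin (Qbar K) G'
  have hG'alg : ∀ x ∈ G', IsAlgebraic ℚ x := by
    rintro _ ⟨g, -, rfl⟩
    exact mem_algebraicClosure_iff.1 g.2
  have hfin₀ : FiniteDimensional (Qbar K) N₀ := by
    have : Finite G' := (G.finite_toSet.image _).to_subtype
    refine IntermediateField.finiteDimensional_adjoin fun x hx => ?_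
    exact ((hG'alg x hx).tower_top (Qbar K)).isIntegral
  have halg₀ : Algebra.IsAlgebraic (Qbar K) N₀ := inferInstance
  let N : IntermediateField (Qbar K) Ω := IntermediateField.normalClosure (Qbar K) N₀ Ω
  have hN : N₀ ≤ N := N₀.le_normalClosure
  have hfin : FiniteDimensional (Qbar K) N := inferInstance
  have hnorm : Normal (Qbar K) N := by
    have h1 : IsNormalClosure (Qbar K) N₀ N :=
      Algebra.IsAlgebraic.isNormalClosure_normalClosure fun x => IsAlgClosed.splits _
    exact h1.normal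
  have hgalN : IsGalois (Qbar K) N := ⟨⟩
  have hNalg : ∀ x : N, IsAlgebraic ℚ (x : Ω) := by
    intro x
    have h1 : IsAlgebraic (Qbar K) (x : Ω) := (Algebra.IsAlgebraic.isAlgebraic x).algebraMap
    exact h1.restrictScalars ℚ
  have hcN : CharZero N := charZero_of_injective_algebraMap (algebraMap (Qbar K) N).injective
  -- the class over `N`
  have hFN : ∀ z : F, algebraMap (Qbar Ω) Ω z ∈ N := by
    intro z
    have h1 : F.map (algebraMap (Qbar Ω) Ω).toRatAlgHom ≤ N.restrictScalars ℚ := by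
      rw [← hG, IntermediateField.adjoin_map, IntermediateField.adjoin_le_iff]
      exact (IntermediateField.subset_adjoin (Qbar K) G').trans hN
    exact h1 ⟨z, z.2, rfl⟩
  let ι : F →+* N :=
    { toFun := fun z => ⟨algebraMap (Qbar Ω) Ω z, hFN z⟩
      map_one' := rfl
      map_mul' := fun _ _ => rfl
      map_zero' := rfl
      map_add' := fun _ _ => rfl }
  let c1 := T.res ι i j b
  have hc1 : T.res (algebraMap N Ω) i j c1 = T.res (algebraMap K Ω) i j u := by
    rw [← hc0, ← hb, ← res_comp' hT, ← res_comp' hT]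
    rfl
  obtain ⟨a, ha⟩ := hD (Qbar K) N i j c1
  have hsum : T.res (algebraMap N Ω) i j
      (∑ σ : N ≃ₐ[Qbar K] N, T.res (σ : N →+* N) i j c1) =
      (Fintype.card (N ≃ₐ[Qbar K] N)) • T.res (algebraMap K Ω) i j u := by
    rw [map_sum]
    have : ∀ σ : N ≃ₐ[Qbar K] N, T.res (algebraMap N Ω) i j
        (T.res (σ : N →+* N) i j c1) = T.res (algebraMap K Ω) i j u := by
      intro σ
      obtain ⟨σ', hσ'⟩ := exists_extension N hNalg σ
      have e1 : (algebraMap N Ω).comp (σ : N →+* N) =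
          (σ' : Ω →+* Ω).comp (algebraMap N Ω) := RingHom.ext fun z => (hσ' z).symm
      have e2 : (σ' : Ω →+* Ω).comp (algebraMap K Ω) = algebraMap K Ω :=
        RingHom.ext fun z => σ'.commutes z
      rw [← res_comp' hT, e1, res_comp' hT, hc1, ← res_comp' hT, e2]
    rw [Finset.sum_congr rfl fun σ _ => this σ, Finset.sum_const, Finset.card_univ]
  refine ⟨((Fintype.card (N ≃ₐ[Qbar K] N) : ℚ)⁻¹) • a, ?_⟩
  apply hT.res_injective (algebraMap K Ω)
  have e3 : (algebraMap K Ω).comp (algebraMap (Qbar K) K) =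
      (algebraMap N Ω).comp (algebraMap (Qbar K) N) := RingHom.ext fun z => rfl
  rw [map_smul, map_smul, ← res_comp' hT, e3, res_comp' hT, ha, hsum, ← Nat.cast_smul_eq_nsmul ℚ,
    smul_smul, inv_mul_cancel₀, one_smul]
  exact Nat.cast_ne_zero.2 Fintype.card_ne_zero

end Pool.Agent.KBT.A
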