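import Mathlib
import Pool.Agent.KBT.Rigid
import Pool.Agent.KBT.RReal

set_option autoImplicit false

open AlgebraicGeometry CategoryTheory Polynomial TensorProduct Cardinal

namespace Pool.Agent.KBT.A

open Pool.Agent.Helper19.BS Pool.Agent.KBT.R

variable {T : MotTheory} (hT : IsMotivic T)

include hT

/-- If the image of a class under an embedding `φ` comes from a subfield `L` over which the
images of a transcendence basis are independent, then it comes from the algebraic numbers. -/
theorem isolate_embedding {Ω : Type} [Field Ω] [CharZero Ω] [IsAlgClosed Ω] (i j : ℤ)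
    {F : Type} [Field F] [CharZero F] (G : Finset F)
    (hG : IntermediateField.adjoin ℚ (G : Set F) = ⊤) (u : T.H (Sp F) i j) {r : ℕ}
    (t : Fin r → F) (ht : ∀ z : F, IsAlgebraic (IntermediateField.adjoin ℚ (Set.range t)) z)
    (φ : F →+* Ω) (L : Type) [Field L] [Algebra (Qbar Ω) L] [Algebra L Ω]
    [IsScalarTower (Qbar Ω) L Ω] (hind : AlgebraicIndependent L (fun i => φ (t i)))
    (h : T.res φ i j u ∈ LinearMap.range (T.res (algebraMap L Ω) i j)) :
    T.res φ i j u ∈ LinearMap.range (T.res (algebraMap (Qbar Ω) Ω) i j) := by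
  classical
  have hcl := isAlgClosed_qbar Ω
  let φ' : F →ₐ[ℚ] Ω := φ.toRatAlgHom
  let G' : Finset Ω := G.image φ ∪ Finset.univ.image (fun i => φ (t i))
  let E := IntermediateField.adjoin (Qbar Ω) (G' : Set Ω)
  have hcE : CharZero E := charZero_of_injective_algebraMap (algebraMap (Qbar Ω) E).injective
  have hFE : ∀ z : F, φ z ∈ E := by
    intro z
    have h1 : (⊤ : IntermediateField ℚ F).map φ' ≤ (IntermediateField.restrictScalars ℚ E) := by
      rw [← hG, IntermediateField.adjoin_map, IntermediateField.adjoin_le_iff]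
      rintro _ ⟨g, hg, rfl⟩
      refine IntermediateField.subset_adjoin (Qbar Ω) (G' : Set Ω) ?_
      rw [Finset.mem_coe, Finset.mem_union]
      exact Or.inl (Finset.mem_image_of_mem _ hg)
    exact h1 ⟨z, trivial, rfl⟩
  let ι : F →+* E :=
    { toFun := fun z => ⟨φ z, hFE z⟩
      map_one' := Subtype.ext (map_one φ)
      map_mul' := fun _ _ => Subtype.ext (map_mul φ _ _)
      map_zero' := Subtype.ext (map_zero φ)
      map_add' := fun _ _ => Subtype.ext (map_add φ _ _) }
  let uE := T.res ι i j u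
  have huE : T.res (algebraMap E Ω) i j uE = T.res φ i j u := by
    rw [← res_comp' hT]
    rfl
  obtain ⟨A, _, _, _, _, τ, hτ, hGA, u', hu'⟩ := exists_model hT G' i j uE
  have htG : ∀ i, φ (t i) ∈ G' := fun i => Finset.mem_union_right _
    (Finset.mem_image_of_mem _ (Finset.mem_univ i))
  have halg : ∀ z : F, φ z ∈ clos (Qbar Ω) (Set.range fun i => φ (t i)) := by
    intro z
    rw [mem_clos]
    have h1 := ht z
    let M := IntermediateField.adjoin (Qbar Ω) (Set.range fun i => φ (t i))
    have h2 : ∀ y ∈ IntermediateField.adjoin ℚ (Set.range t), φ y ∈ M := by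
      intro y hy
      have h3 : (IntermediateField.adjoin ℚ (Set.range t)).map φ' ≤
          (IntermediateField.restrictScalars ℚ M) := by
        rw [IntermediateField.adjoin_map, IntermediateField.adjoin_le_iff]
        rintro _ ⟨_, ⟨i, rfl⟩, rfl⟩
        exact IntermediateField.subset_adjoin (Qbar Ω) _ ⟨i, rfl⟩
      exact h3 ⟨y, hy, rfl⟩
    let ε : IntermediateField.adjoin ℚ (Set.range t) →+* M :=
      { toFun := fun z => ⟨φ z, h2 z z.2⟩
        map_one' := Subtype.ext (map_one φ)
        map_mul' := fun _ _ => Subtype.ext (map_mul φ _ _)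
        map_zero' := Subtype.ext (map_zero φ)
        map_add' := fun _ _ => Subtype.ext (map_add φ _ _) }
    exact IsAlgebraic.ringHom_of_comp_eq ε φ h1 ε.injective (RingHom.ext fun _ => rfl)
  have hE : E ≤ clos (Qbar Ω) (Set.range fun i => φ (t i)) := by
    rw [IntermediateField.adjoin_le_iff]
    intro g hg
    rcases Finset.mem_union.1 (Finset.mem_coe.1 hg) with hg | hg
    · obtain ⟨z, -, rfl⟩ := Finset.mem_image.1 hg
      exact halg z
    · obtain ⟨z, -, rfl⟩ := Finset.mem_image.1 hg
      exact halg (t z)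
  obtain ⟨v, hv⟩ := h
  let τx : A →ₐ[Qbar Ω] Ω := (E.val).comp τ
  have hτx : Function.Injective τx := Subtype.val_injective.comp hτ
  have hdens : DensePoints (Qbar Ω) A := densePoints_of_isAlgClosed (Qbar Ω) A
  have hdom : IsDomain (A ⊗[Qbar Ω] L) := isDomain_tensor hdens
  choose t' ht' using fun i => hGA (φ (t i)) (htG i)
  have hinj : Function.Injective (both (L := L) τx) := by
    refine both_injective τx hτx t' ?_ ?_ hdom
    · intro a
      refine isAlgebraic_of_map τx hτx t' a ?_
      have h1 : τx a ∈ clos (Qbar Ω) (Set.range fun i => φ (t i)) := hE (τ a).2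
      rw [mem_clos, IntermediateField.isAlgebraic_adjoin_iff] at h1
      have h2 : (fun i => τx (t' i)) = fun i => φ (t i) := funext ht'
      rw [h2]
      exact h1
    · have h2 : (fun i => τx (t' i)) = fun i => φ (t i) := funext ht'
      rw [h2]
      exact hind
  have hcL : CharZero L := charZero_of_injective_algebraMap (algebraMap (Qbar Ω) L).injective
  have smA : IsSm (Sp A) := isSm_of_smooth (Qbar Ω) A
  have hkey : T.res (τx : A →+* Ω) i j u' = T.res (algebraMap L Ω) i j v := by
    rw [hv, ← huE, ← hu']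
    exact res_comp hT smA (isSm_field E) (isSm_field Ω) (τ : A →+* E) (algebraMap E Ω) i j u'
  obtain ⟨c, hc⟩ := evaluate hT hdens τx hinj i j u' v hkey
  refine ⟨c, ?_⟩
  rw [← hv, ← hc, ← res_comp' hT, ← IsScalarTower.algebraMap_eq]

/-- Being constant is independent of the embedding into an algebraically closed field. -/
theorem const_transfer {F Ω₁ Ω₂ : Type} [Field F] [CharZero F] [Field Ω₁] [CharZero Ω₁]
    [Field Ω₂] [CharZero Ω₂] [IsAlgClosed Ω₂] (φ₁ : F →+* Ω₁) (φ₂ : F →+* Ω₂) (i j : ℤ)
    (u : T.H (Sp F) i j)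
    (h : T.res φ₁ i j u ∈ LinearMap.range (T.res (algebraMap (Qbar Ω₁) Ω₁) i j)) :
    T.res φ₂ i j u ∈ LinearMap.range (T.res (algebraMap (Qbar Ω₂) Ω₂) i j) := by
  obtain ⟨c, hc⟩ := h
  let _ : Algebra F Ω₁ := φ₁.toAlgebra
  let _ : Algebra F Ω₂ := φ₂.toAlgebra
  let F₁ := algebraicClosure F Ω₁
  have hcF : CharZero F₁ := charZero_of_injective_algebraMap (algebraMap F F₁).injective
  let ε : Qbar Ω₁ →+* F₁ :=
    { toFun := fun z => ⟨(z : Ω₁), mem_algebraicClosure_iff.2 (by
        have h1 : IsAlgebraic ℚ (z : Ω₁) := mem_algebraicClosure_iff.1 z.2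
        exact IsAlgebraic.tower_top F h1)⟩
      map_one' := rfl
      map_mul' := fun _ _ => rfl
      map_zero' := rfl
      map_add' := fun _ _ => rfl }
  have h1 : T.res (algebraMap F F₁) i j u = T.res ε i j c := by
    apply hT.res_injective (algebraMap F₁ Ω₁)
    rw [← res_comp' hT, ← res_comp' hT]
    have e1 : (algebraMap F₁ Ω₁).comp (algebraMap F F₁) = φ₁ := rfl
    have e2 : (algebraMap F₁ Ω₁).comp ε = algebraMap (Qbar Ω₁) Ω₁ := rfl
    rw [e1, e2, hc]
  have halg : Algebra.IsAlgebraic F F₁ := algebraicClosure.isAlgebraic F Ω₁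
  let l : F₁ →ₐ[F] Ω₂ := IsAlgClosed.lift
  have hl : (l : F₁ →+* Ω₂).comp (algebraMap F F₁) = φ₂ := RingHom.ext fun z => l.commutes z
  let ε' : Qbar Ω₁ →+* Qbar Ω₂ :=
    { toFun := fun z => ⟨l (ε z), mem_algebraicClosure_iff.2 (by
        have h1 : IsAlgebraic ℚ (z : Ω₁) := mem_algebraicClosure_iff.1 z.2
        have h2 : IsAlgebraic ℚ z :=
          (isAlgebraic_algebraMap_iff (algebraMap (Qbar Ω₁) Ω₁).injective).1 h1
        exact IsAlgebraic.ringHom_of_comp_eq (RingHom.id ℚ) ((l : F₁ →+* Ω₂).comp ε) h2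
          Function.injective_id (RingHom.ext fun a => by simp))⟩
      map_one' := Subtype.ext (by simp)
      map_mul' := fun _ _ => Subtype.ext (by simp)
      map_zero' := Subtype.ext (by simp)
      map_add' := fun _ _ => Subtype.ext (by simp) }
  refine ⟨T.res ε' i j c, ?_⟩
  have e3 : (algebraMap (Qbar Ω₂) Ω₂).comp ε' = (l : F₁ →+* Ω₂).comp ε := rfl
  rw [← res_comp' hT, e3, res_comp' hT, ← h1, ← res_comp' hT, hl]

end Pool.Agent.KBT.A
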