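import Mathlib
import Pool.Agent.KBT.AIso

set_option autoImplicit false

open AlgebraicGeometry CategoryTheory Polynomial TensorProduct Cardinal

namespace Pool.Agent.KBT.A

open Pool.Agent.Helper19.BS Pool.Agent.KBT.R

/-- Embeddings of finitely generated fields into finite Galois extensions of `K` all of whose
conjugates are independent. -/
def Embeds (K Ω : Type) [Field K] [Field Ω] [CharZero Ω] [Algebra K Ω] : Prop :=
  ∀ (K₀ : IntermediateField ℚ Ω), ℵ₀ ≤ Algebra.trdeg K₀ Ω →
  ∀ (F : Type) [Field F] [CharZero F] (G : Finset F),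
    IntermediateField.adjoin ℚ (G : Set F) = ⊤ →
    ∃ (K₁ : IntermediateField K Ω) (_ : FiniteDimensional K K₁) (_ : IsGalois K K₁) (r : ℕ)
      (t : Fin r → F) (ψ : F →+* K₁),
      (∀ z : F, IsAlgebraic (IntermediateField.adjoin ℚ (Set.range t)) z) ∧
      AlgebraicIndependent K₀ (fun q : (K₁ ≃ₐ[K] K₁) × Fin r =>
        ((q.1 (ψ (t q.2)) : K₁) : Ω))

theorem mem_clos_of_isAlgebraic {k Ω : Type} [Field k] [Field Ω] [Algebra k Ω] [CharZero Ω]
    (S : Set Ω) (z : Ω) (hz : IsAlgebraic ℚ z) : z ∈ clos k S := by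
  rw [mem_clos]
  have : CharZero (IntermediateField.adjoin k S) :=
    RingHom.charZero (algebraMap (IntermediateField.adjoin k S) Ω)
  exact hz.tower_top _

variable {T : MotTheory} (hT : IsMotivic T) (hD : Descent T)

include hT hD

/-- The main step. -/
theorem surj_of_embeds {K Ω : Type} [Field K] [CharZero K] [Field Ω] [CharZero Ω] [Algebra K Ω]
    [IsAlgClosed Ω] (hE : Embeds K Ω) (i j : ℤ) (K₀ : IntermediateField ℚ K)
    (hinf : ℵ₀ ≤ Algebra.trdeg K₀ K)
    (hgen : ∀ u : T.H (Sp K) i j, ∃ a b, u = T.res (algebraMap K₀ K) i j a +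
      T.res (algebraMap (Qbar K) K) i j b) :
    Function.Surjective (T.res (algebraMap (Qbar Ω) Ω) i j) := by
  classical
  have hcl := isAlgClosed_qbar Ω
  let f : K →ₐ[ℚ] Ω := (algebraMap K Ω).toRatAlgHom
  let M : IntermediateField ℚ Ω := K₀.map f
  have hMinf : ℵ₀ ≤ Algebra.trdeg M Ω := by
    obtain ⟨B, hB⟩ := exists_isTranscendenceBasis K₀ K
    have h1 : AlgebraicIndependent M (f ∘ ((↑) : B → K)) :=
      hB.1.ringHom_of_comp_eq (K₀.equivMap f) f (K₀.equivMap f).surjective f.injective
        (RingHom.ext fun _ => rfl)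
    rw [← hB.cardinalMk_eq_trdeg] at hinf
    exact hinf.trans h1.cardinalMk_le_trdeg
  intro u
  obtain ⟨F, ⟨G, hG⟩, b, hb⟩ := hT.continuity Ω i j u
  -- generators of `F` as an abstract field
  have hG' : ∃ G' : Finset F, IntermediateField.adjoin ℚ (G' : Set F) = ⊤ := by
    have hfg : (⊤ : IntermediateField ℚ F).FG := by
      have h1 : F.FG := ⟨G, hG⟩
      have h2 : Algebra.EssFiniteType ℚ F := (IntermediateField.essFiniteType_iff).2 h1
      exact (IntermediateField.fg_top_iff).2 h2
    exact hfg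
  obtain ⟨G', hG'⟩ := hG'
  obtain ⟨K₁, hfin, hgal, r, t, ψ, ht, hind⟩ := hE M hMinf F G' hG'
  have hcK : CharZero K₁ := charZero_of_injective_algebraMap (algebraMap K K₁).injective
  let Q := (K₁ ≃ₐ[K] K₁)
  let φ : Q → F →+* Ω := fun q => (algebraMap K₁ Ω).comp ((q : K₁ →+* K₁).comp ψ)
  let z : Q × Fin r → Ω := fun q => φ q.1 (t q.2)
  let S : Set Ω := z '' (Set.range (fun i => ((1 : Q), i)))ᶜ
  let L : IntermediateField M Ω := clos M S
  have hcL : CharZero L := charZero_of_injective_algebraMap (algebraMap M L).injective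
  have hindL : AlgebraicIndependent L (fun i => φ 1 (t i)) :=
    indep_clos M z hind (fun i => ((1 : Q), i)) (fun i j h => (Prod.ext_iff.1 h).2)
  let ηQ : Qbar Ω →+* L :=
    { toFun := fun y => ⟨(y : Ω), mem_clos_of_isAlgebraic S (y : Ω)
        (mem_algebraicClosure_iff.1 y.2)⟩
      map_one' := rfl
      map_mul' := fun _ _ => rfl
      map_zero' := rfl
      map_add' := fun _ _ => rfl }
  let _ : Algebra (Qbar Ω) L := ηQ.toAlgebra
  have hst : IsScalarTower (Qbar Ω) L Ω := IsScalarTower.of_algebraMap_eq fun _ => rfl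
  have hmem : ∀ q' : Q, q' ≠ 1 → ∀ y : F, φ q' y ∈ L := by
    intro q' hqq y
    have h1 : φ q' y ∈ clos M (Set.range fun i => z (q', i)) := by
      rw [mem_clos]
      let N := IntermediateField.adjoin M (Set.range fun i => z (q', i))
      have h2 : ∀ y ∈ IntermediateField.adjoin ℚ (Set.range t), φ q' y ∈ N := by
        intro y hy
        have h3 : (IntermediateField.adjoin ℚ (Set.range t)).map (φ q').toRatAlgHom ≤
            (IntermediateField.restrictScalars ℚ N) := by
          rw [IntermediateField.adjoin_map, IntermediateField.adjoin_le_iff]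
          rintro _ ⟨_, ⟨i, rfl⟩, rfl⟩
          exact IntermediateField.subset_adjoin M _ ⟨i, rfl⟩
        exact h3 ⟨y, hy, rfl⟩
      let ε : IntermediateField.adjoin ℚ (Set.range t) →+* N :=
        { toFun := fun y => ⟨φ q' y, h2 y y.2⟩
          map_one' := Subtype.ext (map_one (φ q'))
          map_mul' := fun _ _ => Subtype.ext (map_mul (φ q') _ _)
          map_zero' := Subtype.ext (map_zero (φ q'))
          map_add' := fun _ _ => Subtype.ext (map_add (φ q') _ _) }
      exact IsAlgebraic.ringHom_of_comp_eq ε (φ q') (ht y) ε.injective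
        (RingHom.ext fun _ => rfl)
    refine clos_mono M ?_ h1
    rintro _ ⟨i, rfl⟩
    refine ⟨(q', i), ?_, rfl⟩
    rintro ⟨k, hk⟩
    exact hqq (Prod.ext_iff.1 hk).1.symm
  let R := LinearMap.range (T.res (algebraMap L Ω) i j)
  have hoth : ∀ q' : Q, q' ≠ 1 → T.res (φ q') i j b ∈ R := by
    intro q' hqq
    let ε : F →+* L :=
      { toFun := fun y => ⟨φ q' y, hmem q' hqq y⟩
        map_one' := Subtype.ext (map_one (φ q'))
        map_mul' := fun _ _ => Subtype.ext (map_mul (φ q') _ _)
        map_zero' := Subtype.ext (map_zero (φ q'))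
        map_add' := fun _ _ => Subtype.ext (map_add (φ q') _ _) }
    refine ⟨T.res ε i j b, ?_⟩
    rw [← res_comp' hT]
    rfl
  obtain ⟨n, hn⟩ : ∃ n : T.H (Sp K) i j, T.res (algebraMap K Ω) i j n =
      ∑ δ : K₁ ≃ₐ[K] K₁, T.res (φ δ) i j b := by
    obtain ⟨n, hn⟩ := hD K K₁ i j (T.res ψ i j b)
    refine ⟨n, ?_⟩
    have e1 : algebraMap K Ω = (algebraMap K₁ Ω).comp (algebraMap K K₁) := rfl
    rw [e1, res_comp' hT, hn, map_sum]
    refine Finset.sum_congr rfl fun δ _ => ?_
    rw [← res_comp' hT, ← res_comp' hT]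
    rfl
  have hnR : T.res (algebraMap K Ω) i j n ∈ R := by
    obtain ⟨a₁, a₂, ha⟩ := hgen n
    rw [ha, map_add]
    refine Submodule.add_mem _ ?_ ?_
    · let ε : K₀ →+* L :=
        { toFun := fun y => ⟨algebraMap K Ω y, by
            have h1 : algebraMap K Ω y ∈ M := ⟨y, y.2, rfl⟩
            exact (L.algebraMap_mem ⟨_, h1⟩)⟩
          map_one' := Subtype.ext (by simp)
          map_mul' := fun _ _ => Subtype.ext (by simp)
          map_zero' := Subtype.ext (by simp)
          map_add' := fun _ _ => Subtype.ext (by simp) }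
      refine ⟨T.res ε i j a₁, ?_⟩
      rw [← res_comp' hT, ← res_comp' hT]
      rfl
    · let ε : Qbar K →+* L :=
        { toFun := fun y => ⟨algebraMap K Ω y, mem_clos_of_isAlgebraic S _
            ((mem_algebraicClosure_iff.1 y.2).algebraMap)⟩
          map_one' := Subtype.ext (by simp)
          map_mul' := fun _ _ => Subtype.ext (by simp)
          map_zero' := Subtype.ext (by simp)
          map_add' := fun _ _ => Subtype.ext (by simp) }
      refine ⟨T.res ε i j a₂, ?_⟩
      rw [← res_comp' hT, ← res_comp' hT]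
      rfl
  have hR1 : T.res (φ 1) i j b ∈ R := by
    rw [hn, ← Finset.add_sum_erase Finset.univ _ (Finset.mem_univ (1 : K₁ ≃ₐ[K] K₁))] at hnR
    have h6 : (∑ δ ∈ Finset.univ.erase (1 : K₁ ≃ₐ[K] K₁), T.res (φ δ) i j b) ∈ R :=
      Submodule.sum_mem _ fun δ hδ => hoth _ (Finset.ne_of_mem_erase hδ)
    have h7 := Submodule.sub_mem _ hnR h6
    rwa [add_sub_cancel_right] at h7
  have h1 := isolate_embedding hT i j G' hG' b t ht (φ 1) L hindL hR1
  have h2 := const_transfer hT (φ 1) (algebraMap F Ω) i j b h1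
  rw [hb] at h2
  exact h2

end Pool.Agent.KBT.A
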