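import Mathlib
import Pool.Agent.KBT.ASurj

set_option autoImplicit false

open AlgebraicGeometry CategoryTheory Polynomial TensorProduct Cardinal

namespace Pool.Agent.KBT.A

open Pool.Agent.Helper19.BS Pool.Agent.KBT.R

/-- finite transcendence bases of finitely generated fields -/
theorem exists_tbasis (F : Type) [Field F] [CharZero F] (G : Finset F)
    (hG : IntermediateField.adjoin ℚ (G : Set F) = ⊤) : ∃ (r : ℕ) (t : Fin r → F),
      AlgebraicIndependent ℚ t ∧
      ∀ z : F, IsAlgebraic (IntermediateField.adjoin ℚ (Set.range t)) z := by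
  obtain ⟨B, r, β₀, hB, hβ₀, hβG, hGc⟩ := exists_basis (k := ℚ) G
  refine ⟨r, fun i => (β₀ i : F), hB.1.comp β₀ hβ₀, fun z => ?_⟩
  rw [← mem_clos]
  have h1 : (⊤ : IntermediateField ℚ F) ≤ clos ℚ (Set.range fun i => (β₀ i : F)) := by
    rw [← hG, IntermediateField.adjoin_le_iff]
    exact hGc
  exact h1 trivial

/-- extension of embeddings -/
theorem exists_emb {F Ω : Type} [Field F] [CharZero F] [Field Ω] [CharZero Ω] [IsAlgClosed Ω]
    {r : ℕ} (t : Fin r → F) (ht : AlgebraicIndependent ℚ t)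
    (halg : ∀ z : F, IsAlgebraic (IntermediateField.adjoin ℚ (Set.range t)) z)
    (w : Fin r → Ω) (hw : AlgebraicIndependent ℚ w) :
    ∃ ψ : F →+* Ω, ∀ i, ψ (t i) = w i := by
  obtain ⟨ψ, -, hψ⟩ := exists_embed (k := ℚ) t w ht hw
  have hmem : ∀ z : F, z ∈ clos ℚ (Set.range t) := fun z => (mem_clos ℚ _ z).2 (halg z)
  let ι : F →+* clos ℚ (Set.range t) :=
    { toFun := fun z => ⟨z, hmem z⟩
      map_one' := rfl
      map_mul' := fun _ _ => rfl
      map_zero' := rfl
      map_add' := fun _ _ => rfl }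
  exact ⟨ψ.comp ι, fun i => hψ i (hmem _)⟩

/-- Infinitely many independent elements in `K`. -/
theorem exists_indep_sub {K Ω : Type} [Field K] [Field Ω] [CharZero Ω] [Algebra K Ω]
    [Algebra.IsAlgebraic K Ω] (K₀ : IntermediateField ℚ Ω) (hinf : ℵ₀ ≤ Algebra.trdeg K₀ Ω)
    (X : Type) [Finite X] : ∃ y : X → K, AlgebraicIndependent K₀ (fun x => algebraMap K Ω (y x)) := by
  let S : Set Ω := Set.range (algebraMap K Ω)
  have halg : Algebra.IsAlgebraic (Algebra.adjoin K₀ S) Ω := by
    refine ⟨fun z => ?_⟩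
    let ε : K →+* Algebra.adjoin K₀ S :=
      { toFun := fun y => ⟨algebraMap K Ω y, Algebra.subset_adjoin ⟨y, rfl⟩⟩
        map_one' := Subtype.ext (by simp)
        map_mul' := fun _ _ => Subtype.ext (by simp)
        map_zero' := Subtype.ext (by simp)
        map_add' := fun _ _ => Subtype.ext (by simp) }
    exact IsAlgebraic.ringHom_of_comp_eq ε (RingHom.id Ω) (Algebra.IsAlgebraic.isAlgebraic z)
      ε.injective (RingHom.ext fun _ => rfl)
  obtain ⟨B, hBS, hB⟩ := exists_isTranscendenceBasis_subset (R := K₀) S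
  have hBinf : Infinite B := by
    rw [Cardinal.infinite_iff, hB.cardinalMk_eq_trdeg]
    exact hinf
  obtain ⟨n, ⟨e⟩⟩ := Finite.exists_equiv_fin X
  let f : X → B := fun x => Infinite.natEmbedding B (e x)
  have hf : Function.Injective f := fun x y h =>
    e.injective (Fin.ext ((Infinite.natEmbedding B).injective h))
  choose y hy using fun x => hBS (f x).2
  refine ⟨y, ?_⟩
  have := hB.1.comp f hf
  convert this using 1
  funext x
  exact hy x

theorem pairs_indep {k Ω B : Type} [Field k] [CharZero k] [Field Ω] [Algebra k Ω] (I : k)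
    (hI : I * I = -1) (x : B ⊕ B → Ω) (hx : AlgebraicIndependent k x) :
    AlgebraicIndependent k (pairs (algebraMap k Ω I) x) := by
  have hI0 : I ≠ 0 := by
    rintro rfl
    rw [mul_zero] at hI
    exact one_ne_zero (neg_eq_zero.1 hI.symm)
  have h2 : (2 : k) ≠ 0 := two_ne_zero
  have h2Ω : (2 : Ω) ≠ 0 := by
    have : CharZero Ω := charZero_of_injective_algebraMap (algebraMap k Ω).injective
    exact two_ne_zero
  let φ : MvPolynomial (B ⊕ B) k →ₐ[k] MvPolynomial (B ⊕ B) k := MvPolynomial.aeval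
    (Sum.elim (fun b => MvPolynomial.X (.inl b) + MvPolynomial.C I * MvPolynomial.X (.inr b))
      (fun b => MvPolynomial.X (.inl b) - MvPolynomial.C I * MvPolynomial.X (.inr b)))
  let ψ : MvPolynomial (B ⊕ B) k →ₐ[k] MvPolynomial (B ⊕ B) k := MvPolynomial.aeval
    (Sum.elim (fun b => MvPolynomial.C (1 / 2) * (MvPolynomial.X (.inl b) + MvPolynomial.X (.inr b)))
      (fun b => MvPolynomial.C (1 / (2 * I)) *
        (MvPolynomial.X (.inl b) - MvPolynomial.X (.inr b))))
  have hψφ : ψ.comp φ = AlgHom.id k _ := by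
    apply MvPolynomial.algHom_ext
    rintro (b | b)
    · simp only [φ, ψ, AlgHom.comp_apply, MvPolynomial.aeval_X, Sum.elim_inl, map_add, map_mul,
        Sum.elim_inr, MvPolynomial.algHom_C, AlgHom.id_apply, MvPolynomial.algebraMap_eq]
      have : (MvPolynomial.C I * (MvPolynomial.C (1 / (2 * I)) *
        (MvPolynomial.X (.inl b) - MvPolynomial.X (.inr b))) : MvPolynomial (B ⊕ B) k) =
        MvPolynomial.C (1 / 2) * (MvPolynomial.X (.inl b) - MvPolynomial.X (.inr b)) := by
        rw [← mul_assoc, ← MvPolynomial.C_mul]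
        congr 2
        field_simp
      rw [this, ← mul_add]
      have h3 : (MvPolynomial.X (.inl b) + MvPolynomial.X (.inr b) +
        (MvPolynomial.X (.inl b) - MvPolynomial.X (.inr b)) : MvPolynomial (B ⊕ B) k) =
        MvPolynomial.C 2 * MvPolynomial.X (.inl b) := by
        rw [map_ofNat]; ring
      rw [h3, ← mul_assoc, ← MvPolynomial.C_mul]
      rw [one_div, inv_mul_cancel₀ h2, MvPolynomial.C_1, one_mul]
    · simp only [φ, ψ, AlgHom.comp_apply, MvPolynomial.aeval_X, Sum.elim_inl, map_sub, map_mul,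
        Sum.elim_inr, MvPolynomial.algHom_C, AlgHom.id_apply, MvPolynomial.algebraMap_eq]
      have : (MvPolynomial.C I * (MvPolynomial.C (1 / (2 * I)) *
        (MvPolynomial.X (.inl b) - MvPolynomial.X (.inr b))) : MvPolynomial (B ⊕ B) k) =
        MvPolynomial.C (1 / 2) * (MvPolynomial.X (.inl b) - MvPolynomial.X (.inr b)) := by
        rw [← mul_assoc, ← MvPolynomial.C_mul]
        congr 2
        field_simp
      rw [this, ← mul_sub]
      have h3 : (MvPolynomial.X (.inl b) + MvPolynomial.X (.inr b) -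
        (MvPolynomial.X (.inl b) - MvPolynomial.X (.inr b)) : MvPolynomial (B ⊕ B) k) =
        MvPolynomial.C 2 * MvPolynomial.X (.inr b) := by
        rw [map_ofNat]; ring
      rw [h3, ← mul_assoc, ← MvPolynomial.C_mul]
      rw [one_div, inv_mul_cancel₀ h2, MvPolynomial.C_1, one_mul]
  have hcomp : (MvPolynomial.aeval x : MvPolynomial (B ⊕ B) k →ₐ[k] Ω).comp φ =
      MvPolynomial.aeval (pairs (algebraMap k Ω I) x) := by
    apply MvPolynomial.algHom_ext
    rintro (b | b)
    · simp only [φ, AlgHom.comp_apply, MvPolynomial.aeval_X, Sum.elim_inl, map_add, map_mul,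
        MvPolynomial.algHom_C, pairs]
    · simp only [φ, AlgHom.comp_apply, MvPolynomial.aeval_X, Sum.elim_inr, map_sub, map_mul,
        MvPolynomial.algHom_C, pairs]
  have hφinj : Function.Injective φ := by
    intro p q hpq
    have := congrArg ψ hpq
    rw [← AlgHom.comp_apply, ← AlgHom.comp_apply, hψφ] at this
    exact this
  show Function.Injective (MvPolynomial.aeval (pairs (algebraMap k Ω I) x))
  rw [← hcomp]
  intro p q hpq
  exact hφinj (hx hpq)

/-- Real closed fields have the embedding property. -/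
theorem embeds_of_realClosed {K Ω : Type} [Field K] [CharZero K] [Field Ω] [CharZero Ω]
    [Algebra K Ω] [IsAlgClosed Ω] (h : Module.finrank K Ω = 2) : Embeds K Ω := by
  classical
  obtain ⟨hfin, hgal, ⟨C⟩⟩ := exists_conj h
  intro K₀ hinf F _ _ G hG
  obtain ⟨r, t, ht, halg⟩ := exists_tbasis F G hG
  obtain ⟨y, hy⟩ := exists_indep_sub (K := K) K₀ hinf (Fin r ⊕ Fin r)
  let k := algebraicClosure K₀ Ω
  have hkalg : Algebra.IsAlgebraic K₀ k := algebraicClosure.isAlgebraic K₀ Ω
  have hck : CharZero k := RingHom.charZero (algebraMap k Ω)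
  have hIalg : IsAlgebraic ℚ C.I := by
    refine ⟨(X ^ 2 + 1 : ℚ[X]), ?_, ?_⟩
    · intro h0
      have := congrArg (Polynomial.eval 1) h0
      norm_num at this
    · rw [map_add, map_pow, Polynomial.aeval_X, map_one, sq, C.hI]
      ring
  let I0 : k := ⟨C.I, mem_algebraicClosure_iff.2 (hIalg.tower_top K₀)⟩
  have hI0 : I0 * I0 = -1 := Subtype.ext C.hI
  have hy' : AlgebraicIndependent k (fun x => algebraMap K Ω (y x)) :=
    (Algebra.IsAlgebraic.algebraicIndependent_iff K₀ k).1 hy
  have hz' := pairs_indep I0 hI0 _ hy'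
  have hz : AlgebraicIndependent K₀ (pairs C.I (fun x => algebraMap K Ω (y x))) :=
    (Algebra.IsAlgebraic.algebraicIndependent_iff K₀ k).2 hz'
  have hzℚ : AlgebraicIndependent ℚ (pairs C.I (fun x => algebraMap K Ω (y x))) := by
    exact hz.restrictScalars (algebraMap ℚ K₀).injective
  obtain ⟨ψ, hψ⟩ := exists_emb t ht halg _ (hzℚ.comp _ Sum.inl_injective)
  let e := (IntermediateField.topEquiv (F := K) (E := Ω))
  let ψ' : F →+* (⊤ : IntermediateField K Ω) := (e.symm : Ω →+* _).comp ψ
  have hfin' : FiniteDimensional K (⊤ : IntermediateField K Ω) := inferInstance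
  have hgal' : IsGalois K (⊤ : IntermediateField K Ω) := IsGalois.of_algEquiv e.symm
  refine ⟨⊤, hfin', hgal', r, t, ψ', halg, ?_⟩
  let g : ((⊤ : IntermediateField K Ω) ≃ₐ[K] (⊤ : IntermediateField K Ω)) → (Ω ≃ₐ[K] Ω) :=
    fun σ => (e.symm.trans σ).trans e
  have hg : Function.Injective g := by
    intro σ τ h
    ext x
    have h1 := AlgEquiv.congr_fun h (e x)
    simp only [g, AlgEquiv.trans_apply, AlgEquiv.symm_apply_apply] at h1
    exact congrArg _ (e.injective h1)
  have hval : ∀ (σ : (⊤ : IntermediateField K Ω) ≃ₐ[K] (⊤ : IntermediateField K Ω)) (a : F),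
      ((σ (ψ' a) : (⊤ : IntermediateField K Ω)) : Ω) = g σ (ψ a) := fun σ a => rfl
  let f : ((⊤ : IntermediateField K Ω) ≃ₐ[K] (⊤ : IntermediateField K Ω)) × Fin r →
      Fin r ⊕ Fin r := fun q => if g q.1 = 1 then .inl q.2 else .inr q.2
  have hf : Function.Injective f := by
    rintro ⟨σ, a⟩ ⟨τ, b⟩ h
    by_cases h1 : g σ = 1
    · by_cases h2 : g τ = 1
      · simp only [f, h1, h2, if_true, Sum.inl.injEq] at h
        rw [h, hg (h1.trans h2.symm)]
      · simp [f, h1, h2] at h
    · by_cases h2 : g τ = 1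
      · simp [f, h1, h2] at h
      · simp only [f, h1, h2, if_false, Sum.inr.injEq] at h
        rw [h, hg (((C.huniv _).resolve_left h1).trans ((C.huniv _).resolve_left h2).symm)]
  have h1 := hz.comp f hf
  convert h1 using 1
  funext q
  rw [hval, hψ]
  by_cases h2 : g q.1 = 1
  · simp only [f, h2, if_true, Function.comp_apply]
    rfl
  · rw [(C.huniv _).resolve_left h2]
    have h3 : f q = .inr q.2 := if_neg h2
    rw [Function.comp_apply, Function.comp_apply, h3]
    show C.c (algebraMap K Ω _ + C.I * algebraMap K Ω _) = algebraMap K Ω _ - C.I * algebraMap K Ω _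
    rw [map_add, map_mul, C.hcI, C.c.commutes, C.c.commutes]
    ring

end Pool.Agent.KBT.A
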