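import Mathlib
import Pool.Agent.KBT.ASurj

set_option autoImplicit false

open AlgebraicGeometry CategoryTheory Polynomial TensorProduct Cardinal

namespace Pool.Agent.KBT.A

open Pool.Agent.Helper19.BS Pool.Agent.KBT.R

open scoped IntermediateField.algebraAdjoinAdjoin in
theorem trdeg_adjoin_le {K : Type} [Field K] [CharZero K] (S : Set K) :
    Algebra.trdeg ℚ (IntermediateField.adjoin ℚ S) ≤ #S := by
  let A := Algebra.adjoin ℚ S
  let s : Set A := Subtype.val ⁻¹' S
  have h1 : Algebra.adjoin ℚ s = ⊤ := by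
    rw [eq_top_iff]
    rintro ⟨x, hx⟩ -
    have h2 : (Algebra.adjoin ℚ s).map A.val = A := by
      rw [AlgHom.map_adjoin]
      have : A.val '' s = S := by
        ext y
        constructor
        · rintro ⟨z, hz, rfl⟩
          exact hz
        · intro hy
          exact ⟨⟨y, Algebra.subset_adjoin hy⟩, hy, rfl⟩
      rw [this]
    have h3 : x ∈ (Algebra.adjoin ℚ s).map A.val := by rw [h2]; exact hx
    obtain ⟨y, hy, hyx⟩ := h3
    have : y = ⟨x, hx⟩ := Subtype.ext hyx
    rw [← this]
    exact hy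
  have h4 : Algebra.IsAlgebraic (Algebra.adjoin ℚ s) A := by
    rw [h1]
    refine ⟨fun a => ?_⟩
    exact isAlgebraic_algebraMap (⟨a, trivial⟩ : (⊤ : Subalgebra ℚ A))
  have h5 : Algebra.trdeg ℚ A ≤ #s := Algebra.IsAlgebraic.trdeg_le_cardinalMk ℚ s
  have h6 : #s ≤ #S := by
    refine Cardinal.mk_le_of_injective (f := fun x : s => (⟨x.1.1, x.2⟩ : S)) ?_
    intro x y h
    have h' : (x.1.1 : K) = y.1.1 := congrArg (fun z : S => (z : K)) h
    exact Subtype.ext (Subtype.ext h')
  have h7 : Algebra.trdeg ℚ A + Algebra.trdeg A (IntermediateField.adjoin ℚ S) =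
    Algebra.trdeg ℚ (IntermediateField.adjoin ℚ S) := trdeg_add_eq ℚ A
  have h8 : Algebra.trdeg A (IntermediateField.adjoin ℚ S) = 0 := by
    have : Algebra.IsAlgebraic A (IntermediateField.adjoin ℚ S) := inferInstance
    exact trdeg_eq_zero
  rw [h8, add_zero] at h7
  rw [← h7]
  exact h5.trans h6

variable {T : MotTheory} (hT : IsMotivic T)

include hT

/-- If there are few new classes then there is a small subfield over which all are defined. -/
theorem exists_subfield_of_small {K : Type} [Field K] [CharZero K] (hL : Large K) (i j : ℤ)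
    (hsmall : Module.rank ℚ (NewClasses T (Qbar K) K i j) < Algebra.trdeg ℚ K) :
    ∃ K₀ : IntermediateField ℚ K, ℵ₀ ≤ Algebra.trdeg K₀ K ∧
      ∀ u : T.H (Sp K) i j, ∃ a b, u = T.res (algebraMap K₀ K) i j a +
        T.res (algebraMap (Qbar K) K) i j b := by
  classical
  let V := NewClasses T (Qbar K) K i j
  let bs := Module.Basis.ofVectorSpace ℚ V
  let X := Module.Basis.ofVectorSpaceIndex ℚ V
  have hX : #X < Algebra.trdeg ℚ K := by
    rw [bs.mk_eq_rank'']
    exact hsmall
  have h1 : ∀ x : X, ∃ (G : Finset K), ∃ m : T.H (Sp (IntermediateField.adjoin ℚ (G : Set K))) i j,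
      (Submodule.Quotient.mk (T.res (algebraMap _ K) i j m) : V) = bs x := by
    intro x
    obtain ⟨n, hn⟩ := Submodule.Quotient.mk_surjective _ (bs x)
    obtain ⟨F, ⟨G, rfl⟩, b, hb⟩ := hT.continuity K i j n
    exact ⟨G, b, by rw [hb, hn]⟩
  choose G m hm using h1
  let S : Set K := ⋃ x : X, (G x : Set K)
  have hS : #S < Algebra.trdeg ℚ K := by
    by_cases hfin : Finite X
    · have : S.Finite := Set.finite_iUnion fun x => Finset.finite_toSet _
      exact lt_of_lt_of_le this.lt_aleph0 hL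
    · have hinf : Infinite X := not_finite_iff_infinite.1 hfin
      have h2 : #S ≤ #X * ℵ₀ := by
        refine (Cardinal.mk_iUnion_le_sum_mk).trans ?_
        refine (Cardinal.sum_le_mk_mul_iSup _).trans ?_
        refine mul_le_mul' le_rfl (ciSup_le' fun x => ?_)
        exact (Finset.countable_toSet (G x)).le_aleph0
      have h3 : #X * ℵ₀ = #X := Cardinal.mul_eq_left (aleph0_le_mk X) (aleph0_le_mk X)
        Cardinal.aleph0_ne_zero
      exact lt_of_le_of_lt (h2.trans h3.le) hX
  let K₀ := IntermediateField.adjoin ℚ S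
  have hK₀ : Algebra.trdeg ℚ K₀ < Algebra.trdeg ℚ K := lt_of_le_of_lt (trdeg_adjoin_le S) hS
  refine ⟨K₀, ?_, ?_⟩
  · by_contra hcon
    push Not at hcon
    have h2 : Algebra.trdeg ℚ K₀ + Algebra.trdeg K₀ K = Algebra.trdeg ℚ K := trdeg_add_eq ℚ K₀
    have h3 : Algebra.trdeg ℚ K₀ + Algebra.trdeg K₀ K < Algebra.trdeg ℚ K :=
      Cardinal.add_lt_of_lt hL hK₀ (lt_of_lt_of_le hcon hL)
    exact absurd h2 h3.ne
  · intro u
    have hle : ∀ x, IntermediateField.adjoin ℚ (G x : Set K) ≤ K₀ := fun x =>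
      IntermediateField.adjoin.mono ℚ _ _ (Set.subset_iUnion (fun x : X => (G x : Set K)) x)
    let N := LinearMap.range (T.res (algebraMap (Qbar K) K) i j)
    let R := LinearMap.range (T.res (algebraMap K₀ K) i j)
    have h2 : ∀ v : V, v ∈ R.map N.mkQ := by
      intro v
      have h3 : v ∈ Submodule.span ℚ (Set.range bs) := by rw [bs.span_eq]; trivial
      refine (Submodule.span_le.2 ?_) h3
      rintro _ ⟨x, rfl⟩
      refine ⟨T.res (algebraMap _ K) i j (m x), ?_, hm x⟩
      let ε : IntermediateField.adjoin ℚ (G x : Set K) →+* K₀ :=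
        { toFun := fun y => ⟨(y : K), hle x y.2⟩
          map_one' := rfl
          map_mul' := fun _ _ => rfl
          map_zero' := rfl
          map_add' := fun _ _ => rfl }
      refine ⟨T.res ε i j (m x), ?_⟩
      rw [← res_comp' hT]
      rfl
    obtain ⟨_, ⟨a, rfl⟩, ha⟩ := h2 (Submodule.Quotient.mk u)
    have h4 : u - T.res (algebraMap K₀ K) i j a ∈ N := by
      rw [← Submodule.Quotient.mk_eq_zero, Submodule.Quotient.mk_sub, ← ha]
      exact sub_self _
    obtain ⟨b, hb⟩ := h4
    exact ⟨a, b, by rw [hb]; abel⟩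

end Pool.Agent.KBT.A
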