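import Mathlib
import Pool.Agent.KBT.OEmbed
import Pool.Agent.KBT.ASurj

set_option autoImplicit false

open Polynomial Cardinal Pool.Agent.Helper19.BS

namespace Pool.Agent.KBT.O

open Pool.Agent.Helper37.OC

/-- Ample fields have the embedding property. -/
theorem embeds_of_ample {K Ω : Type} [Field K] [CharZero K] [Field Ω] [CharZero Ω]
    [Algebra K Ω] [IsAlgClosed Ω] [Algebra.IsAlgebraic K Ω] (hK : Ample K) :
    Pool.Agent.KBT.A.Embeds K Ω := by
  intro K₀ h₀ F _ _ G hG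
  obtain ⟨K₁, hfin, hgal, r, t, ψ, -, -, hz, hind⟩ := exists_embedding hK K₀ h₀ F G hG
  exact ⟨K₁, hfin, hgal, r, t, ψ, fun z => (mem_clos ℚ _ z).1 (hz z), hind⟩

end Pool.Agent.KBT.O
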