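import Mathlib
import Pool.Agent.KBT.RReal

set_option autoImplicit false

open AlgebraicGeometry CategoryTheory Polynomial TensorProduct Cardinal Pool.Agent.Helper19.BS

namespace Pool.Agent.KBT.R

/-- There is a real closed field `K` of infinite transcendence degree `τ` over `ℚ` such that the
classes over `K` modulo those over the algebraic numbers of `K` have dimension less than `τ`. -/
def SmallRealClosed (T : MotTheory) (k w : ℤ) : Prop :=
  ∃ (K : Type) (_ : Field K) (_ : CharZero K), RealClosed K ∧ Large K ∧
    Module.rank ℚ (NewClasses T (Qbar K) K k w) < Algebra.trdeg ℚ K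

/-- For every real closed field `K` all classes over `K` come from the algebraic numbers
of `K`. -/
def RealRigid (T : MotTheory) (k w : ℤ) : Prop :=
  ∀ (K : Type) [Field K] [CharZero K], RealClosed K →
    Function.Bijective (T.res (algebraMap (Qbar K) K) k w)

theorem realClosed_real : RealClosed ℝ :=
  ⟨ℂ, inferInstance, inferInstance, inferInstance, Complex.finrank_real_complex⟩

theorem trdeg_real : Algebra.trdeg ℚ ℝ = 𝔠 := by
  rw [← trdeg_complex]
  obtain ⟨J, x, hx⟩ := exists_isTranscendenceBasis' ℚ ℝ
  have hx' : IsTranscendenceBasis ℚ (algebraMap ℝ ℂ ∘ x) := hx.algebraMap_comp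
  rw [← hx.cardinalMk_eq_trdeg, ← hx'.cardinalMk_eq_trdeg]

theorem large_real : Large ℝ := by
  unfold Large
  rw [trdeg_real]
  exact Cardinal.aleph0_le_continuum

variable {T : MotTheory} (hT : IsMotivic T) (hD : Descent T)

include hT hD

theorem tfae_real (k w : ℤ) : List.TFAE
    [Rigid T k w, RealRigid T k w, Function.Bijective (T.res (algebraMap (Qbar ℝ) ℝ) k w),
     Module.rank ℚ (NewClasses T (Qbar ℝ) ℝ k w) < 𝔠, SmallRealClosed T k w] := by
  tfae_have 1 → 2 := fun h K _ _ hK => real_of_rigid hT hD hK k w h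
  tfae_have 2 → 3 := fun h => h ℝ realClosed_real
  tfae_have 3 → 4 := by
    intro h
    have ht := LinearMap.range_eq_top.2 h.2
    have : Subsingleton (NewClasses T (Qbar ℝ) ℝ k w) := Submodule.Quotient.subsingleton_iff.2 ht
    rw [rank_subsingleton']
    exact lt_of_lt_of_le Cardinal.aleph0_pos Cardinal.aleph0_le_continuum
  tfae_have 4 → 5 := by
    intro h
    refine ⟨ℝ, inferInstance, inferInstance, realClosed_real, large_real, ?_⟩
    rw [trdeg_real]
    exact h
  tfae_have 5 → 1 := by
    rintro ⟨K, _, _, hK, hL, h⟩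
    exact rigid_of_real hT hD hK hL k w h
  tfae_finish

theorem rigid_of_rank_real (k w : ℤ) (h : Module.rank ℚ (T.H (Sp ℝ) k w) < 𝔠) :
    Rigid T k w :=
  ((tfae_real hT hD k w).out 3 0).1 (lt_of_le_of_lt (rank_quotient_le _) h)

end Pool.Agent.KBT.R
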