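import Mathlib
import Pool.Agent.KBT.ASurj
import Pool.Agent.KBT.ASmall
import Pool.Agent.KBT.ADescend
import Pool.Agent.KBT.ARealEmb
import Pool.Agent.KBT.RFinal
import Pool.Agent.KBT.OEmbedsAmple
import Pool.Agent.KBT.OComplete

set_option autoImplicit false

open AlgebraicGeometry CategoryTheory Polynomial TensorProduct Cardinal

namespace Pool.Agent.KBT.A

open Pool.Agent.Helper19.BS Pool.Agent.KBT.R Pool.Agent.Helper37.OC Pool.Agent.KBT.O

/-- `K` is ample or real closed. (Real closed fields are ample.) -/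
def AmpleOrReal (K : Type) [Field K] : Prop := Ample K ∨ RealClosed K

/-- The classes over `K` that come from the subfield `K₀`. -/
noncomputable def ClassesFrom (T : MotTheory) (K : Type) [Field K] [CharZero K]
    (K₀ : IntermediateField ℚ K) (k w : ℤ) : Submodule ℚ (T.H (Sp K) k w) :=
  LinearMap.range (T.res (algebraMap K₀ K) k w)

/-- Over every field of characteristic zero all classes come from the algebraic numbers in this
field. -/
def FromAlgebraic (T : MotTheory) (k w : ℤ) : Prop :=
  ∀ (K : Type) [Field K] [CharZero K], ClassesFrom T K (Qbar K) k w = ⊤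

/-- The classes over `K` modulo those over the algebraic numbers of `K` have dimension less than
the transcendence degree of `K`. -/
def SmallNew (T : MotTheory) (K : Type) [Field K] [CharZero K] (k w : ℤ) : Prop :=
  Module.rank ℚ (T.H (Sp K) k w ⧸ ClassesFrom T K (Qbar K) k w) < Algebra.trdeg ℚ K

/-- There is an ample field `K` of infinite transcendence degree `τ` over `ℚ` such that the classes
over `K` modulo those over the algebraic numbers of `K` have dimension less than `τ`. -/
def SmallAmple (T : MotTheory) (k w : ℤ) : Prop :=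
  ∃ (K : Type) (_ : Field K) (_ : CharZero K), AmpleOrReal K ∧ Large K ∧ SmallNew T K k w

/-- There are an ample field `K` and a subfield `K₀` such that `K` has infinite transcendence degree
over `K₀` and every class over `K` is the sum of a class coming from `K₀` and a class coming from
the algebraic numbers of `K`. -/
def GeneratedAmple (T : MotTheory) (k w : ℤ) : Prop :=
  ∃ (K : Type) (_ : Field K) (_ : CharZero K) (K₀ : IntermediateField ℚ K), AmpleOrReal K ∧
    ℵ₀ ≤ Algebra.trdeg K₀ K ∧ ClassesFrom T K K₀ k w ⊔ ClassesFrom T K (Qbar K) k w = ⊤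

/-- The dimension of `H^k(Spec K, ℚ(w))` is less than the transcendence degree of `K`. -/
def SmallOver (T : MotTheory) (K : Type) [Field K] [CharZero K] (k w : ℤ) : Prop :=
  Module.rank ℚ (T.H (Sp K) k w) < Algebra.trdeg ℚ K

/-- Complete fields have the largest possible transcendence degree. -/
theorem trdeg_of_complete (K : Type) [NontriviallyNormedField K] [CompleteSpace K] [CharZero K] :
    Algebra.trdeg ℚ K = #K := by
  obtain ⟨s, hs⟩ := exists_isTranscendenceBasis ℚ K
  have hL := large_of_complete K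
  unfold Large at hL
  rw [← hs.cardinalMk_eq_trdeg] at hL ⊢
  have h2 := hs.isAlgebraic
  have h3 : #K ≤ max #(Algebra.adjoin ℚ (Set.range ((↑) : s → K))) ℵ₀ :=
    Algebra.IsAlgebraic.cardinalMk_le_max _ _
  have h4 : #(Algebra.adjoin ℚ (Set.range ((↑) : s → K))) ≤ #s := by
    rw [← Cardinal.mk_congr hs.1.aevalEquiv.toEquiv]
    refine (MvPolynomial.cardinalMk_le_max).trans ?_
    simp [hL]
  exact le_antisymm (Cardinal.mk_le_of_injective hs.1.injective) (h3.trans (max_le h4 hL))

variable {T : MotTheory} (hT : IsMotivic T) (hD : Descent T)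

include hT hD

omit hT hD in
theorem generated_iff (k w : ℤ) {K : Type} [Field K] [CharZero K] (K₀ : IntermediateField ℚ K) :
    ClassesFrom T K K₀ k w ⊔ ClassesFrom T K (Qbar K) k w = ⊤ ↔
    ∀ u : T.H (Sp K) k w, ∃ a b, u = T.res (algebraMap K₀ K) k w a +
      T.res (algebraMap (Qbar K) K) k w b := by
  constructor
  · intro h u
    have h1 : u ∈ ClassesFrom T K K₀ k w ⊔ ClassesFrom T K (Qbar K) k w := by rw [h]; trivial
    obtain ⟨_, ⟨a, rfl⟩, _, ⟨b, rfl⟩, hab⟩ := Submodule.mem_sup.1 h1
    exact ⟨a, b, hab.symm⟩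
  · intro h
    rw [eq_top_iff]
    intro u _
    obtain ⟨a, b, rfl⟩ := h u
    exact Submodule.add_mem_sup ⟨a, rfl⟩ ⟨b, rfl⟩

theorem rigid_of_generated (k w : ℤ) {K : Type} [Field K] [CharZero K] (hK : AmpleOrReal K)
    (K₀ : IntermediateField ℚ K) (hinf : ℵ₀ ≤ Algebra.trdeg K₀ K)
    (hgen : ∀ u : T.H (Sp K) k w, ∃ a b, u = T.res (algebraMap K₀ K) k w a +
      T.res (algebraMap (Qbar K) K) k w b) : Rigid T k w := by
  have key : ∀ (Ω : Type) [Field Ω] [CharZero Ω] [Algebra K Ω] [IsAlgClosed Ω], Embeds K Ω →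
      Rigid T k w := by
    intro Ω _ _ _ _ hE
    have hΩ : Large Ω := by
      unfold Large
      have h1 : Algebra.trdeg ℚ K ≤ Algebra.trdeg ℚ Ω :=
        trdeg_le_of_injective (algebraMap K Ω).toRatAlgHom (algebraMap K Ω).injective
      have h2 : Algebra.trdeg ℚ K₀ + Algebra.trdeg K₀ K = Algebra.trdeg ℚ K := trdeg_add_eq ℚ K₀
      rw [← h2] at h1
      exact hinf.trans ((self_le_add_left _ _).trans h1)
    exact rigid_of_surj hT hΩ k w (surj_of_embeds hT hD hE k w K₀ hinf hgen)
  rcases hK with hK | ⟨Ω, _, _, hcl, hrank⟩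
  · have hc : CharZero (AlgebraicClosure K) :=
      charZero_of_injective_algebraMap (algebraMap K (AlgebraicClosure K)).injective
    exact key (AlgebraicClosure K) (embeds_of_ample hK)
  · have hc : CharZero Ω := charZero_of_injective_algebraMap (algebraMap K Ω).injective
    exact key Ω (embeds_of_realClosed hrank)

omit hD in
theorem generated_of_small (k w : ℤ) {K : Type} [Field K] [CharZero K] (hL : Large K)
    (h : SmallNew T K k w) :
    ∃ K₀ : IntermediateField ℚ K, ℵ₀ ≤ Algebra.trdeg K₀ K ∧
      ∀ u : T.H (Sp K) k w, ∃ a b, u = T.res (algebraMap K₀ K) k w a +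
        T.res (algebraMap (Qbar K) K) k w b :=
  exists_subfield_of_small hT hL k w h

theorem rigid_iff (k w : ℤ) {K : Type} [Field K] [CharZero K] (hK : AmpleOrReal K)
    (hL : Large K) :
    Rigid T k w ↔ SmallNew T K k w := by
  constructor
  · intro h
    have h1 := field_of_rigid hT hD K k w h
    have ht := LinearMap.range_eq_top.2 h1.2
    have : Subsingleton (T.H (Sp K) k w ⧸ ClassesFrom T K (Qbar K) k w) :=
      Submodule.Quotient.subsingleton_iff.2 ht
    unfold SmallNew
    rw [rank_subsingleton']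
    exact lt_of_lt_of_le Cardinal.aleph0_pos hL
  · intro h
    obtain ⟨K₀, h1, h2⟩ := generated_of_small hT k w hL h
    exact rigid_of_generated hT hD k w hK K₀ h1 h2

theorem tfae_ample (k w : ℤ) : List.TFAE
    [Rigid T k w, FromAlgebraic T k w, SmallAmple T k w, GeneratedAmple T k w] := by
  tfae_have 1 → 2 := fun h K _ _ => LinearMap.range_eq_top.2 (field_of_rigid hT hD K k w h).2
  tfae_have 2 → 3 := by
    intro h
    refine ⟨ℝ, inferInstance, inferInstance, .inr realClosed_real, large_real, ?_⟩
    have : Subsingleton (T.H (Sp ℝ) k w ⧸ ClassesFrom T ℝ (Qbar ℝ) k w) :=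
      Submodule.Quotient.subsingleton_iff.2 (h ℝ)
    unfold SmallNew
    rw [rank_subsingleton']
    exact lt_of_lt_of_le Cardinal.aleph0_pos large_real
  tfae_have 3 → 4 := by
    rintro ⟨K, _, _, hK, hL, h⟩
    obtain ⟨K₀, h1, h2⟩ := generated_of_small hT k w hL h
    exact ⟨K, inferInstance, inferInstance, K₀, hK, h1, (generated_iff k w K₀).2 h2⟩
  tfae_have 4 → 1 := by
    rintro ⟨K, _, _, K₀, hK, h1, h2⟩
    exact rigid_of_generated hT hD k w hK K₀ h1 ((generated_iff k w K₀).1 h2)
  tfae_finish

theorem vanish_iff (k w : ℤ) {K : Type} [Field K] [CharZero K]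
    (hK : AmpleOrReal K) (hL : Large K) :
    FieldsVanish T k w ↔ SmallOver T K k w ∧ Subsingleton (T.H (Sp (Qbar ℂ)) k w) := by
  constructor
  · intro h
    refine ⟨?_, h (Qbar ℂ)⟩
    have := h K
    unfold SmallOver
    rw [rank_subsingleton']
    exact lt_of_lt_of_le Cardinal.aleph0_pos hL
  · rintro ⟨h, h0⟩
    exact (rigid_iff_vanish hT k w).2 ⟨(rigid_iff hT hD k w hK hL).2
      (lt_of_le_of_lt (rank_quotient_le _) h), h0⟩

end Pool.Agent.KBT.A
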