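import Mathlib
import Pool.Agent.KBT.OComplete

set_option autoImplicit false

open Cardinal NNReal

namespace Pool.Agent.KBT.O

open Pool.Agent.Helper37.OC

/-- The valuation of the field of Laurent series has rank one. -/
@[instance_reducible]
noncomputable def rankOneLaurent (k : Type) [Field k] :
    Valuation.RankOne (Valued.v : Valuation (LaurentSeries k) (WithZero (Multiplicative ℤ))) where
  hom' := (WithZeroMulInt.toNNReal (e := 2) two_ne_zero).comp
    MonoidWithZeroHom.ValueGroup₀.embedding
  strictMono' := (WithZeroMulInt.toNNReal_strictMono (e := 2) one_lt_two).comp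
    MonoidWithZeroHom.ValueGroup₀.embedding_strictMono
  exists_val_nontrivial := by
    refine ⟨HahnSeries.single 1 1, ?_⟩
    have h := LaurentSeries.valuation_single_zpow k 1
    rw [h]
    constructor
    · exact WithZero.exp_ne_zero
    · intro h1
      have h2 := (WithZero.exp_inj (x := (-1 : ℤ)) (y := 0)).1 (by simpa only [WithZero.exp_zero] using h1)
      norm_num at h2

/-- Fields of Laurent series are ample. -/
theorem ample_laurent (k : Type) [Field k] : Ample (LaurentSeries k) := by
  let _ := rankOneLaurent k
  let N : NontriviallyNormedField (LaurentSeries k) :=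
    Valued.toNontriviallyNormedField (L := LaurentSeries k) (Γ₀ := WithZero (Multiplicative ℤ))
  have hC : @CompleteSpace (LaurentSeries k) N.toNormedField.toUniformSpace :=
    LaurentSeries.instLaurentSeriesComplete
  exact @ample_of_complete (LaurentSeries k) N hC

section Trdeg

variable {q k : Type} [Field q] [Field k] [Algebra q k] (φ : k →ₗ[q] q)

/-- Applying a linear functional to the coefficients of a power series. -/
noncomputable def serMap (f : PowerSeries k) : PowerSeries q :=
  PowerSeries.mk fun n => φ (PowerSeries.coeff n f)

/-- Applying a linear functional to the coefficients of a polynomial. -/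
noncomputable def polMap {B : Type} (P : MvPolynomial B k) : MvPolynomial B q :=
  ∑ m ∈ P.support, MvPolynomial.monomial m (φ (MvPolynomial.coeff m P))

theorem coeff_polMap {B : Type} (P : MvPolynomial B k) (m : B →₀ ℕ) :
    MvPolynomial.coeff m (polMap φ P) = φ (MvPolynomial.coeff m P) := by
  classical
  unfold polMap
  rw [MvPolynomial.coeff_sum]
  simp only [MvPolynomial.coeff_monomial]
  by_cases h : m ∈ P.support
  · rw [Finset.sum_eq_single m]
    · rw [if_pos rfl]
    · intro b _ hb
      rw [if_neg hb]
    · intro h'
      exact absurd h h'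
  · rw [Finset.sum_eq_zero]
    · rw [MvPolynomial.notMem_support_iff.1 h, map_zero]
    · intro b hb
      rw [if_neg]
      rintro rfl
      exact h hb

theorem polMap_add {B : Type} (P Q : MvPolynomial B k) :
    polMap φ (P + Q) = polMap φ P + polMap φ Q := by
  ext m
  rw [MvPolynomial.coeff_add, coeff_polMap, coeff_polMap, coeff_polMap, MvPolynomial.coeff_add,
    map_add]

theorem polMap_monomial {B : Type} (m : B →₀ ℕ) (c : k) :
    polMap φ (MvPolynomial.monomial m c) = MvPolynomial.monomial m (φ c) := by
  classical
  ext m'
  rw [coeff_polMap, MvPolynomial.coeff_monomial, MvPolynomial.coeff_monomial]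
  split_ifs
  · rfl
  · exact map_zero φ

theorem serMap_aeval {B : Type} (b : B → PowerSeries q) (P : MvPolynomial B k) :
    serMap φ (MvPolynomial.aeval (fun i => PowerSeries.map (algebraMap q k) (b i)) P) =
      MvPolynomial.aeval b (polMap φ P) := by
  induction P using MvPolynomial.induction_on' with
  | monomial m c =>
    rw [polMap_monomial, MvPolynomial.aeval_monomial, MvPolynomial.aeval_monomial]
    have h1 : (m.prod fun i e => (PowerSeries.map (algebraMap q k) (b i)) ^ e) =
        PowerSeries.map (algebraMap q k) (m.prod fun i e => b i ^ e) := by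
      rw [Finsupp.prod, Finsupp.prod, map_prod]
      simp only [map_pow]
    rw [h1]
    ext n
    rw [serMap, PowerSeries.coeff_mk, PowerSeries.algebraMap_apply, PowerSeries.algebraMap_apply,
      Algebra.algebraMap_self_apply, Algebra.algebraMap_self_apply, PowerSeries.coeff_C_mul,
      PowerSeries.coeff_C_mul, PowerSeries.coeff_map, mul_comm, ← Algebra.smul_def, map_smul,
      smul_eq_mul, mul_comm]
  | add P Q hP hQ =>
    rw [map_add, polMap_add, map_add, ← hP, ← hQ]
    ext n
    simp [serMap]

/-- Power series over `q` which are independent over `q` remain independent over `k`. -/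
theorem indep_series {B : Type} (b : B → PowerSeries q) (hb : AlgebraicIndependent q b) :
    AlgebraicIndependent k (fun i => PowerSeries.map (algebraMap q k) (b i)) := by
  rw [algebraicIndependent_iff]
  intro P hP
  have h : ∀ φ : k →ₗ[q] q, polMap φ P = 0 := by
    intro φ
    apply (algebraicIndependent_iff.1 hb)
    rw [← serMap_aeval, hP]
    ext n
    simp [serMap]
  ext m
  rw [MvPolynomial.coeff_zero, ← Module.forall_dual_apply_eq_zero_iff q]
  intro φ
  rw [← coeff_polMap, h φ, MvPolynomial.coeff_zero]

end Trdeg

/-- The field of Laurent series has infinite transcendence degree over the constants. -/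
theorem trdeg_laurent (k : Type) [Field k] [CharZero k] :
    ℵ₀ ≤ Algebra.trdeg k (LaurentSeries k) := by
  obtain ⟨B, hB⟩ := exists_isTranscendenceBasis ℚ (PowerSeries ℚ)
  have hinf : ℵ₀ ≤ #B := by
    by_contra hcon
    have h1 : #B ≤ ℵ₀ := (not_le.1 hcon).le
    have h2 := hB.isAlgebraic
    have h3 : #(PowerSeries ℚ) ≤ max #(Algebra.adjoin ℚ (Set.range ((↑) : B → PowerSeries ℚ))) ℵ₀ :=
      Algebra.IsAlgebraic.cardinalMk_le_max _ _
    have h4 : #(Algebra.adjoin ℚ (Set.range ((↑) : B → PowerSeries ℚ))) ≤ ℵ₀ := by
      rw [← Cardinal.mk_congr hB.1.aevalEquiv.toEquiv]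
      refine (MvPolynomial.cardinalMk_le_max).trans ?_
      simp [h1]
    classical
    let f : Set ℕ → PowerSeries ℚ := fun S => PowerSeries.mk fun n => if n ∈ S then 1 else 0
    have hf : Function.Injective f := by
      intro S S' h
      ext n
      have h5 := congrArg (PowerSeries.coeff n) h
      simp only [f, PowerSeries.coeff_mk] at h5
      by_cases h6 : n ∈ S <;> by_cases h7 : n ∈ S' <;> simp_all
    have h8 := Cardinal.mk_le_of_injective hf
    rw [Cardinal.mk_set, Cardinal.mk_nat] at h8
    exact absurd (h8.trans (h3.trans (max_le h4 le_rfl))) (not_le.2 (Cardinal.cantor ℵ₀))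
  have h1 := indep_series (k := k) ((↑) : B → PowerSeries ℚ) hB.1
  let g : PowerSeries k →ₐ[k] LaurentSeries k :=
    { algebraMap (PowerSeries k) (LaurentSeries k) with
      commutes' := fun r => rfl }
  have hg : Function.Injective g := IsFractionRing.injective (PowerSeries k) (LaurentSeries k)
  have h2 := h1.map' (f := g) hg
  exact hinf.trans h2.cardinalMk_le_trdeg

end Pool.Agent.KBT.O
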