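import Pool.Agent.KBT.Rep

/-! KBT-Blk. Stable classes of chains of `GL_ι(R)` for arbitrary finite `ι`, block sums.

PLAN. `perm_conj`: `x` = permutation matrix (`Equiv.Perm.permMatrix` or
`Matrix.GeneralLinearGroup.mk'`/ a unit built from `(1 : Matrix _ _ R).submatrix _ _`), check entries.
`cls_gre_eq`: `a = b` by cardinality (`Fintype.card_congr`), `subst`, then
`gre R e' = (gre R (e.symm.trans e')).comp (gre R e)` (`gre_gre`) and `null_conj` with `perm_conj`
give `Null (push e z - push e' z)`, i.e. `cls_eq_zero_iff`, `cls_sub`. `clsi_upper`: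
`gre (equivFin (ι ⊕ κ)) ∘ upper ι κ` compared with `corner ∘ gre (equivFin ι)`: with
`e := (sumCongr (equivFin ι) (equivFin κ)).trans finSumFinEquiv : ι ⊕ κ ≃ Fin (card ι + card κ)` one
has `(gre R e).comp (upper ι κ R) = (corner R _).comp (gre R (equivFin ι))` (entries), so
`cls_gre_eq` and `cls_corner`. `clsi_lower`: `lower_eq` and `clsi_gre`. `clsi_bsum`: apply
`isBd_of_prim` to `Φ = (blk ι κ R).comp (f.prodMap f')`:
`Φ.comp diag = bsum f f'`, `Φ.comp inl = (upper ι κ R).comp f`, `Φ.comp inr = (lower ι κ R).comp f'`;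
then `clsi_upper`, `clsi_lower` (for the cycles `push f z`, `push f' z`). `clsi_one`:
`isBd_trivial`. -/

set_option autoImplicit false

open Matrix

namespace Pool.Agent.KBT

open Pool.Agent.KBS

variable {ι κ : Type} [Fintype ι] [DecidableEq ι] [Fintype κ] [DecidableEq κ]
variable {R S : Type} [CommRing R] [CommRing S] {n : ℕ} {G : Type} [Group G]

/-- the class of a chain of `GL_ι(R)` -/
noncomputable def clsi (z : Chain (GL ι R) n) : SH R n :=
  cls (push n (gre R (Fintype.equivFin ι)) z)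

/-- `g ↦ diag(f g, f' g)` -/
def bsum (f : G →* GL ι R) (f' : G →* GL κ R) : G →* GL (ι ⊕ κ) R :=
  (blk ι κ R).comp (f.prod f')

theorem perm_conj (e : Equiv.Perm ι) : ∃ x : GL ι R, ∀ g : GL ι R, gre R e g = x * g * x⁻¹ := by
  let P : Matrix ι ι R := Matrix.of fun i j => if e.symm i = j then 1 else 0
  let P' : Matrix ι ι R := Matrix.of fun i j => if i = e.symm j then 1 else 0
  have h1 : P * P' = 1 := by
    ext i j
    rw [Matrix.mul_apply]
    simp only [P, P', Matrix.of_apply, ite_mul, one_mul, zero_mul, Finset.sum_ite_eq,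
      Finset.mem_univ, if_true, Matrix.one_apply, EmbeddingLike.apply_eq_iff_eq]
  have h2 : P' * P = 1 := by
    ext i j
    rw [Matrix.mul_apply, ← Equiv.sum_comp e]
    simp only [P, P', Matrix.of_apply, Equiv.symm_apply_apply, ite_mul, one_mul, zero_mul,
      Finset.sum_ite_eq, Finset.mem_univ, if_true, Matrix.one_apply]
  refine ⟨⟨P, P', h1, h2⟩, fun g => ?_⟩
  rw [eq_mul_inv_iff_mul_eq]
  apply Units.ext
  ext i j
  rw [Units.val_mul, Units.val_mul, gre_val, Matrix.mul_apply, Matrix.mul_apply,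
    ← Equiv.sum_comp e]
  simp only [P, Matrix.of_apply, Matrix.reindex_apply, Matrix.submatrix_apply,
    Equiv.symm_apply_apply, ite_mul, one_mul, zero_mul, mul_ite, mul_one, mul_zero,
    Finset.sum_ite_eq, Finset.sum_ite_eq', Finset.mem_univ, if_true]

theorem cls_gre_eq {a b : ℕ} (e : ι ≃ Fin a) (e' : ι ≃ Fin b) (z : Chain (GL ι R) (n + 1))
    (hz : bd _ n z = 0) : cls (push (n + 1) (gre R e) z) = cls (push (n + 1) (gre R e') z) := by
  have hab : a = b := Fin.equiv_iff_eq.1 ⟨e.symm.trans e'⟩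
  subst hab
  have h1 : gre R e' = (gre R (e.symm.trans e')).comp (gre R e) := by
    rw [gre_gre, ← Equiv.trans_assoc, Equiv.self_trans_symm, Equiv.refl_trans]
  obtain ⟨x, hx⟩ := perm_conj (R := R) (e.symm.trans e')
  have h2 := null_conj (gre R e) (gre R e') x (fun g => by
    rw [h1, MonoidHom.comp_apply, hx]) z hz
  rw [← cls_eq_zero_iff, cls_sub, sub_eq_zero] at h2
  exact h2

theorem clsi_add (z z' : Chain (GL ι R) n) : clsi (z + z') = clsi z + clsi z' := by
  rw [clsi, map_add, cls_add]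
  rfl

theorem clsi_sub (z z' : Chain (GL ι R) n) : clsi (z - z') = clsi z - clsi z' := by
  rw [clsi, map_sub, cls_sub]
  rfl

theorem clsi_smul (q : ℚ) (z : Chain (GL ι R) n) : clsi (q • z) = q • clsi z := by
  rw [clsi, map_smul, cls_smul]
  rfl

theorem clsi_eq_zero_iff (z : Chain (GL ι R) n) : clsi z = 0 ↔ Null z := by
  rw [clsi, cls_eq_zero_iff, null_gre]

private theorem bd_push0 {G H : Type} [Group G] [Group H] (f : G →* H) {z : Chain G (n + 1)}
    (hz : bd G n z = 0) : bd H n (push (n + 1) f z) = 0 := by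
  rw [bd_push, hz, map_zero]

theorem clsi_gre (e : ι ≃ κ) (z : Chain (GL ι R) (n + 1)) (hz : bd _ n z = 0) :
    clsi (push (n + 1) (gre R e) z) = clsi z := by
  rw [clsi, ← push_comp, gre_gre]
  exact cls_gre_eq _ _ z hz

theorem clsi_fin {m : ℕ} (z : Chain (GL (Fin m) R) (n + 1)) (hz : bd _ n z = 0) :
    clsi z = cls z := by
  rw [clsi, cls_gre_eq _ (Equiv.refl (Fin m)) z hz, gre_refl, push_id]

theorem clsi_upper (z : Chain (GL ι R) (n + 1)) (hz : bd _ n z = 0) :
    clsi (push (n + 1) (upper ι κ R) z) = clsi z := by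
  have h : Fintype.card ι ≤ Fintype.card ι + Fintype.card κ := Nat.le_add_right _ _
  let eκ : κ ≃ Fin (Fintype.card ι + Fintype.card κ - Fintype.card ι) :=
    (Fintype.equivFin κ).trans (finCongr (by omega))
  rw [clsi, cls_gre_eq _ (((Equiv.sumCongr (Equiv.refl ι) eκ).trans
    (Equiv.sumCongr (Fintype.equivFin ι) (Equiv.refl _))).trans (monoEquiv h)) _
    (bd_push0 _ hz), ← push_comp, ← gre_gre, ← gre_gre, MonoidHom.comp_assoc,
    MonoidHom.comp_assoc, upper_congr, ← gre_upper, ← MonoidHom.comp_assoc, push_comp]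
  exact cls_corner h _

theorem clsi_lower (z : Chain (GL κ R) (n + 1)) (hz : bd _ n z = 0) :
    clsi (push (n + 1) (lower ι κ R) z) = clsi z := by
  rw [lower_eq, push_comp, clsi_gre _ _ (bd_push0 _ hz), clsi_upper z hz]

theorem clsi_conj (f f' : G →* GL ι R) (x : GL ι R) (h : ∀ g, f' g = x * f g * x⁻¹)
    (z : Chain G (n + 1)) (hz : bd _ n z = 0) :
    clsi (push (n + 1) f z) = clsi (push (n + 1) f' z) := by
  rw [← sub_eq_zero, ← clsi_sub, clsi_eq_zero_iff]
  exact null_conj f f' x h z hz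

theorem clsi_one (z : Chain G (n + 1)) (hz : bd _ n z = 0) :
    clsi (push (n + 1) (1 : G →* GL ι R) z) = 0 := by
  rw [clsi_eq_zero_iff]
  exact null_of_isBd (isBd_trivial z hz)

theorem clsi_bsum (f : G →* GL ι R) (f' : G →* GL κ R) (z : Chain G (n + 1)) (hz : IsPrim z) :
    clsi (push (n + 1) (bsum f f') z) = clsi (push (n + 1) f z) + clsi (push (n + 1) f' z) := by
  have h := null_of_isBd (isBd_of_prim z hz.primitive ((blk ι κ R).comp (f.prodMap f')))
  have h1 : ((blk ι κ R).comp (f.prodMap f')).comp ((MonoidHom.id G).prod (MonoidHom.id G)) =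
      bsum f f' := rfl
  have h2 : ((blk ι κ R).comp (f.prodMap f')).comp (MonoidHom.inl G G) =
      (upper ι κ R).comp f := by
    apply MonoidHom.ext
    intro g
    simp [upper]
  have h3 : ((blk ι κ R).comp (f.prodMap f')).comp (MonoidHom.inr G G) =
      (lower ι κ R).comp f' := by
    apply MonoidHom.ext
    intro g
    simp [lower]
  rw [h1, h2, h3, push_comp _ (upper ι κ R), push_comp _ (lower ι κ R), ← clsi_eq_zero_iff,
    clsi_sub, clsi_sub, clsi_upper _ (bd_push0 _ hz.cycle), clsi_lower _ (bd_push0 _ hz.cycle),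
    sub_sub, sub_eq_zero] at h
  exact h

theorem smap_clsi (f : R →+* S) (z : Chain (GL ι R) n) :
    smap f n (clsi z) = clsi (push n (glMap ι f) z) := by
  rw [clsi, smap_cls, clsi, ← push_comp, ← push_comp]
  have h : (glMap (Fin (Fintype.card ι)) f).comp (gre R (Fintype.equivFin ι)) =
      (gre S (Fintype.equivFin ι)).comp (glMap ι f) := by
    apply MonoidHom.ext
    intro g
    apply Units.ext
    rfl
  rw [h]

end Pool.Agent.KBT
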