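import Pool.Agent.KBT.Rep
import Pool.Agent.KBT.Thy

/-! Elements of `K_(n+1)(L)_ℚ^(w)` are defined over finitely generated subrings: continuity and
spreading out. -/

set_option autoImplicit false

open Matrix

namespace Pool.Agent.KBT

open Pool.Agent.KBS

variable {R S T : Type} [CommRing R] [CommRing S] [CommRing T] {n w : ℕ}

theorem push_gl_injective {ι : Type} [Fintype ι] [DecidableEq ι] (f : R →+* S)
    (hf : Function.Injective f) : Function.Injective (push n (glMap ι f)) :=
  push_injective _ (glMap_injective f hf)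

theorem push_pair_injective {ι : Type} [Fintype ι] [DecidableEq ι] (f : R →+* S)
    (hf : Function.Injective f) :
    Function.Injective (push n ((glMap ι f).prodMap (glMap ι f))) := by
  apply push_injective
  rintro ⟨a, b⟩ ⟨c, d⟩ h
  have h1 : glMap ι f a = glMap ι f c := congrArg Prod.fst h
  have h2 : glMap ι f b = glMap ι f d := congrArg Prod.snd h
  exact Prod.ext (glMap_injective f hf h1) (glMap_injective f hf h2)

theorem exists_kclass_descent {L : Type} [CommRing L] {m : ℕ}
    (z : Chain (GL (Fin m) L) (n + 1)) (h : IsKClass w z) :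
    ∃ S : Finset L, ∀ B : Subring L, (S : Set L) ⊆ B →
      ∃ zB : Chain (GL (Fin m) B) (n + 1),
        push (n + 1) (glMap (Fin m) B.subtype) zB = z ∧ IsKClass w zB := by
  classical
  obtain ⟨S0, hS0⟩ := exists_chain_descent z
  obtain ⟨b1, hb1⟩ := h.prim.primitive
  obtain ⟨k2, b2, hb2⟩ := h.weight'
  obtain ⟨S1, hS1⟩ := exists_chain_descent_pair b1
  obtain ⟨S2, hS2⟩ := exists_chain_descent b2
  refine ⟨S0 ∪ (S1 ∪ S2), fun B hB => ?_⟩
  rw [Finset.coe_union, Finset.coe_union, Set.union_subset_iff, Set.union_subset_iff] at hB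
  obtain ⟨zB, hzB⟩ := hS0 B hB.1
  obtain ⟨c1, hc1⟩ := hS1 B hB.2.1
  obtain ⟨c2, hc2⟩ := hS2 B hB.2.2
  have hinj : Function.Injective B.subtype := Subtype.val_injective
  have hp : IsPrim zB := by
    constructor
    · apply push_gl_injective B.subtype hinj
      rw [← bd_push, hzB, h.cycle, map_zero]
    · refine ⟨c1, ?_⟩
      apply push_pair_injective B.subtype hinj
      rw [← bd_push, hc1, hb1, ← hzB, primDefect_push]
  refine ⟨zB, hzB, isKClass_mk hp ⟨k2, c2, ?_⟩⟩
  apply push_gl_injective B.subtype hinj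
  rw [← bd_push, hc2, hb2, ← hzB, ← nuMap_coe, weightDefect_push, nuMap_coe, ← push_comp,
    ← push_comp, ← nuMap_coe, ← nuMap_coe, nuMap_upper]

theorem exists_kq_descent {L : Type} [CommRing L] {x : SH L (n + 1)} (hx : x ∈ KSub L n w) :
    ∃ S : Finset L, ∀ B : Subring L, (S : Set L) ⊆ B →
      ∃ y : KQ B n w, smap B.subtype (n + 1) (kval B n w y) = x := by
  classical
  induction hx using Submodule.span_induction with
  | mem x h =>
    obtain ⟨m, z, hz, rfl⟩ := h
    obtain ⟨S, hS⟩ := exists_kclass_descent z hz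
    refine ⟨S, fun B hB => ?_⟩
    obtain ⟨zB, hzB, h1⟩ := hS B hB
    obtain ⟨y, hy⟩ := exists_kval (cls_mem h1)
    exact ⟨y, by rw [hy, smap_cls, hzB]⟩
  | zero => exact ⟨∅, fun B _ => ⟨0, by rw [map_zero, map_zero]⟩⟩
  | add x y _ _ hx hy =>
    obtain ⟨S, hS⟩ := hx
    obtain ⟨T, hT⟩ := hy
    refine ⟨S ∪ T, fun B hB => ?_⟩
    rw [Finset.coe_union, Set.union_subset_iff] at hB
    obtain ⟨a, ha⟩ := hS B hB.1
    obtain ⟨b, hb⟩ := hT B hB.2
    exact ⟨a + b, by rw [map_add, map_add, ha, hb]⟩
  | smul q x _ hx =>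
    obtain ⟨S, hS⟩ := hx
    refine ⟨S, fun B hB => ?_⟩
    obtain ⟨a, ha⟩ := hS B hB
    exact ⟨q • a, by rw [map_smul, map_smul, ha]⟩

theorem kq_descent {L : Type} [CommRing L] (x : KQ L n w) :
    ∃ S : Finset L, ∀ B : Subring L, (S : Set L) ⊆ B →
      ∃ y : KQ B n w, kmap B.subtype n w y = x := by
  obtain ⟨S, hS⟩ := exists_kq_descent (kval_mem x)
  refine ⟨S, fun B hB => ?_⟩
  obtain ⟨y, hy⟩ := hS B hB
  exact ⟨y, kval_injective (by rw [kval_kmap, hy])⟩

theorem kq_continuity (E : Type) [Field E] [CharZero E] (a : KQ E n w) :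
    ∃ F : IntermediateField ℚ E, F.FG ∧ ∃ b : KQ F n w, kmap (algebraMap F E) n w b = a := by
  obtain ⟨S, hS⟩ := kq_descent a
  let F : IntermediateField ℚ E := IntermediateField.adjoin ℚ (S : Set E)
  obtain ⟨y, hy⟩ := hS F.toSubring (IntermediateField.subset_adjoin ℚ (S : Set E))
  let j : F.toSubring →+* F := F.toSubring.subtype.codRestrict F (fun a => a.2)
  refine ⟨F, ⟨S, rfl⟩, kmap j n w y, ?_⟩
  rw [← kmap_comp, ← hy]
  rfl

/-- a finite subset of the fraction field of `A` lies in a localisation `A[1/s]` -/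
theorem exists_away (A K : Type) [CommRing A] [IsDomain A] [Field K] [Algebra A K]
    [IsFractionRing A K] (S : Finset K) : ∃ (s : A) (f : Localization.Away s →+* K), s ≠ 0 ∧
      f.comp (algebraMap A (Localization.Away s)) = algebraMap A K ∧ Function.Injective f ∧
      (S : Set K) ⊆ f.range := by
  obtain ⟨b, hb⟩ := IsLocalization.exist_integer_multiples_of_finset (nonZeroDivisors A) S
  have hb0 : (b : A) ≠ 0 := nonZeroDivisors.ne_zero b.2
  have hbK : IsUnit (algebraMap A K (b : A)) := by
    rw [isUnit_iff_ne_zero]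
    intro h
    exact hb0 ((IsFractionRing.injective A K) (by rw [h, map_zero]))
  let f : Localization.Away (b : A) →+* K := IsLocalization.Away.lift (b : A) hbK
  have hf : f.comp (algebraMap A (Localization.Away (b : A))) = algebraMap A K :=
    IsLocalization.Away.lift_comp (b : A) hbK
  refine ⟨(b : A), f, hb0, hf, ?_, ?_⟩
  · rw [injective_iff_map_eq_zero]
    intro c hc
    obtain ⟨n, a, ha⟩ := IsLocalization.Away.surj (b : A) c
    have h1 : f (c * algebraMap A _ (b : A) ^ n) = f (algebraMap A _ a) := congrArg f ha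
    rw [map_mul, hc, zero_mul, ← RingHom.comp_apply, hf] at h1
    have h4 : a = 0 := (IsFractionRing.injective A K) (by rw [← h1, map_zero])
    rw [h4, map_zero] at ha
    have hu : IsUnit (algebraMap A (Localization.Away (b : A)) (b : A) ^ n) :=
      (IsLocalization.Away.algebraMap_isUnit (b : A)).pow n
    rwa [hu.mul_left_eq_zero] at ha
  · intro x hx
    obtain ⟨a, ha⟩ := hb x hx
    obtain ⟨c, hc⟩ := IsLocalization.Away.algebraMap_isUnit (S := Localization.Away (b : A)) (b : A)
    refine ⟨algebraMap A _ a * ↑(c⁻¹), ?_⟩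
    have h1 : f (c : Localization.Away (b : A)) = algebraMap A K (b : A) := by
      rw [hc, ← RingHom.comp_apply, hf]
    have h2 : f (↑(c⁻¹) : Localization.Away (b : A)) * algebraMap A K (b : A) = 1 := by
      rw [← h1, ← map_mul, Units.inv_mul, map_one]
    have h3 : f (algebraMap A _ a) = algebraMap A K (b : A) * x := by
      rw [← RingHom.comp_apply, hf, ha]
      exact Algebra.smul_def (b : A) x
    rw [map_mul, h3, mul_right_comm, mul_comm (algebraMap A K (b : A)), h2, one_mul]

theorem kq_spreadOut (A K : Type) [CommRing A] [IsDomain A] [Field K] [Algebra A K]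
    [IsFractionRing A K] (u : KQ K n w) : ∃ (s : A) (f : Localization.Away s →+* K), s ≠ 0 ∧
      f.comp (algebraMap A (Localization.Away s)) = algebraMap A K ∧ ∃ v, kmap f n w v = u := by
  obtain ⟨S, hS⟩ := kq_descent u
  obtain ⟨s, f, hs, hf, hfinj, hSB⟩ := exists_away A K S
  obtain ⟨y, hy⟩ := hS f.range hSB
  let e : Localization.Away s ≃+* f.range := RingEquiv.ofBijective f.rangeRestrict
    ⟨fun x y h => hfinj (congrArg Subtype.val h), f.rangeRestrict_surjective⟩
  refine ⟨s, f, hs, hf, kmap (e.symm : f.range →+* Localization.Away s) n w y, ?_⟩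
  have h1 : f.comp (e.symm : f.range →+* Localization.Away s) = f.range.subtype := by
    ext x
    obtain ⟨t, rfl⟩ := e.surjective x
    show f (e.symm (e t)) = ((e t : f.range) : K)
    rw [RingEquiv.symm_apply_apply]
    rfl
  rw [← kmap_comp, h1, hy]

theorem kq_agree (A K : Type) [CommRing A] [IsDomain A] [Field K] [Algebra A K]
    [IsFractionRing A K] (u v : KQ A n w) (h : kmap (algebraMap A K) n w u =
      kmap (algebraMap A K) n w v) :
    ∃ s : A, s ≠ 0 ∧ kmap (algebraMap A (Localization.Away s)) n w u =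
        kmap (algebraMap A (Localization.Away s)) n w v := by
  obtain ⟨m, z, hz, hzx⟩ := exists_rep (kval_mem (u - v))
  have h1 : smap (algebraMap A K) (n + 1) (cls z) = 0 := by
    rw [hzx, ← kval_kmap, map_sub, h, sub_self, map_zero]
  rw [smap_cls, cls_eq_zero_iff] at h1
  obtain ⟨S, hS⟩ := exists_null_descent (IsFractionRing.injective A K) z h1
  obtain ⟨s, f, hs, hf, hfinj, hSB⟩ := exists_away A K S
  -- the map from the finitely generated algebra to the localisation
  let f' : Localization.Away s →ₐ[A] K :=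
    { f with
      commutes' := by
        intro a
        exact congrArg (fun g : A →+* K => g a) hf }
  have hle : Algebra.adjoin A (S : Set K) ≤ f'.range := by
    rw [Algebra.adjoin_le_iff]
    intro x hx
    obtain ⟨y, hy⟩ := hSB hx
    exact ⟨y, hy⟩
  let e : Localization.Away s ≃ₐ[A] f'.range := AlgEquiv.ofInjective f' hfinj
  let g : Algebra.adjoin A (S : Set K) →+* Localization.Away s :=
    ((e.symm : f'.range →ₐ[A] Localization.Away s).comp
      (Subalgebra.inclusion hle)).toRingHom
  have hg : g.comp (algebraMap A (Algebra.adjoin A (S : Set K))) =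
      algebraMap A (Localization.Away s) := by
    ext a
    exact ((e.symm : f'.range →ₐ[A] Localization.Away s).comp
      (Subalgebra.inclusion hle)).commutes a
  refine ⟨s, hs, ?_⟩
  have h2 := hS.map_gl g
  rw [← push_comp, glMap_comp', hg, ← cls_eq_zero_iff, ← smap_cls, hzx, ← kval_kmap] at h2
  have h3 : kmap (algebraMap A (Localization.Away s)) n w (u - v) = 0 :=
    kval_injective (by rw [h2, map_zero])
  rwa [map_sub, sub_eq_zero] at h3

end Pool.Agent.KBT
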