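import Pool.Agent.KBS.Cls

/-! The inclusions `GL_a(R) → GL_b(R)`, `g ↦ diag(g, 1)`. -/

set_option autoImplicit false

open Matrix

namespace Pool.Agent.KBT

open Pool.Agent.KBS

variable {R S : Type} [CommRing R] [CommRing S] {n : ℕ}

/-- `GL_a(R) → GL_b(R)`, `g ↦ diag(g, 1)` -/
def corner (R : Type) [CommRing R] {a b : ℕ} (h : a ≤ b) : GL (Fin a) R →* GL (Fin b) R :=
  (gre R (monoEquiv h)).comp (upper (Fin a) (Fin (b - a)) R)

theorem monoEquiv_symm_lt {a b : ℕ} (h : a ≤ b) (i : Fin b) (hi : i.1 < a) :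
    (monoEquiv h).symm i = Sum.inl ⟨i.1, hi⟩ := by
  rw [Equiv.symm_apply_eq]
  apply Fin.ext
  simp [monoEquiv]

theorem monoEquiv_symm_ge {a b : ℕ} (h : a ≤ b) (i : Fin b) (hi : ¬ i.1 < a) :
    (monoEquiv h).symm i = Sum.inr ⟨i.1 - a, by omega⟩ := by
  rw [Equiv.symm_apply_eq]
  apply Fin.ext
  simp [monoEquiv]
  omega

theorem corner_apply {a b : ℕ} (h : a ≤ b) (g : GL (Fin a) R) (i j : Fin b) :
    ((corner R h g : GL (Fin b) R) : Matrix (Fin b) (Fin b) R) i j =
      if hi : i.1 < a then (if hj : j.1 < a then (g : Matrix (Fin a) (Fin a) R) ⟨i.1, hi⟩ ⟨j.1, hj⟩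
        else 0) else (if i = j then 1 else 0) := by
  have h1 : ((corner R h g : GL (Fin b) R) : Matrix (Fin b) (Fin b) R) i j =
      (Matrix.fromBlocks (g : Matrix (Fin a) (Fin a) R) 0 0 1) ((monoEquiv h).symm i)
        ((monoEquiv h).symm j) := rfl
  rw [h1]
  by_cases hi : i.1 < a
  · rw [dif_pos hi, monoEquiv_symm_lt h i hi]
    by_cases hj : j.1 < a
    · rw [dif_pos hj, monoEquiv_symm_lt h j hj]
      rfl
    · rw [dif_neg hj, monoEquiv_symm_ge h j hj]
      rfl
  · rw [dif_neg hi, monoEquiv_symm_ge h i hi]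
    by_cases hj : j.1 < a
    · rw [monoEquiv_symm_lt h j hj]
      have : i ≠ j := by rintro rfl; exact hi hj
      rw [if_neg this]
      rfl
    · rw [monoEquiv_symm_ge h j hj]
      simp only [Matrix.fromBlocks_apply₂₂, Matrix.one_apply, Fin.mk.injEq]
      congr 1
      rw [Fin.ext_iff, eq_iff_iff]
      omega

theorem corner_comp {a b c : ℕ} (hab : a ≤ b) (hbc : b ≤ c) :
    (corner R hbc).comp (corner R hab) = corner R (hab.trans hbc) := by
  apply MonoidHom.ext
  intro g
  apply Units.ext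
  ext i j
  rw [MonoidHom.comp_apply, corner_apply, corner_apply]
  by_cases hib : i.1 < b
  · by_cases hjb : j.1 < b
    · rw [dif_pos hib, dif_pos hjb, corner_apply]
      by_cases hia : i.1 < a
      · simp [hia]
      · simp [hia, Fin.ext_iff]
    · rw [dif_pos hib, dif_neg hjb]
      have hja : ¬ j.1 < a := by omega
      have hij : i ≠ j := by rintro rfl; exact hjb hib
      simp [hja, hij]
  · have hia : ¬ i.1 < a := by omega
    simp [hib, hia]

theorem corner_refl {a : ℕ} (h : a ≤ a) : corner R h = MonoidHom.id _ := by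
  apply MonoidHom.ext
  intro g
  apply Units.ext
  ext i j
  rw [corner_apply]
  simp

theorem corner_gl {a b : ℕ} (h : a ≤ b) (f : R →+* S) :
    (glMap (Fin b) f).comp (corner R h) = (corner S h).comp (glMap (Fin a) f) := by
  apply MonoidHom.ext
  intro g
  apply Units.ext
  ext i j
  have h1 : (((glMap (Fin b) f).comp (corner R h) g : GL (Fin b) S) : Matrix _ _ S) i j =
      f (((corner R h g : GL (Fin b) R) : Matrix _ _ R) i j) := rfl
  rw [h1, MonoidHom.comp_apply, corner_apply, corner_apply]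
  split_ifs <;> simp

theorem null_corner {a b : ℕ} (h : a ≤ b) (z : Chain (GL (Fin a) R) n) :
    Null (push n (corner R h) z) ↔ Null z := by
  rw [corner, push_comp, null_gre, null_upper]

theorem exists_corner_of_null {a : ℕ} {z : Chain (GL (Fin a) R) n} (h : Null z) :
    ∃ (b : ℕ) (hab : a ≤ b), IsBd (push n (corner R hab) z) := by
  obtain ⟨k, hk⟩ := h
  refine ⟨a + k, Nat.le_add_right a k, ?_⟩
  have h1 : corner R (Nat.le_add_right a k) =
      (gre R ((Equiv.sumCongr (Equiv.refl (Fin a)) (finCongr (by omega : k = a + k - a))).trans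
        (monoEquiv (Nat.le_add_right a k)))).comp (upper (Fin a) (Fin k) R) := by
    rw [← gre_gre, MonoidHom.comp_assoc, upper_congr]
    rfl
  rw [h1, push_comp]
  exact hk.push' _

end Pool.Agent.KBT
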