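import Pool.Agent.KBT.Dsum

/-! KBT-Tr. Restriction of scalars for a finite Galois extension `L/K` becomes the sum of the
conjugates over `L`.

PLAN. `ρ = Algebra.leftMulMatrix (Module.finBasis K L)`, `b = Module.finBasis K L`,
`d = Module.finrank K L`, `e : Fin d ≃ (L ≃ₐ[K] L)` from `IsGalois.card_aut_eq_finrank`. Let
`M : Matrix (Fin d) (Fin d) L`, `M s j = e s (b j)`. From `x * b j = ∑ i, ρ x i j • b i`:
`(diagonal fun s => e s x) * M = M * (ρ x).map (algebraMap K L)`. `M` is invertible: a vector `c`
with `c ᵥ* M = 0` gives `∑ s, c s • (e s : L →ₗ[K] L) = 0` on the basis, so `c = 0` by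
`linearIndependent_toLinearMap` / `linearIndependent_monoidHom` (Dedekind);
`Matrix.isUnit_iff_isUnit_det`, `Matrix.exists_vecMul_eq_zero_iff`. `P = (M⁻¹ ⊗ 1)` on
`Fin d × Fin m`, i.e. `P (s, i) (j, k) = M⁻¹ s j * δ_ik`. -/

set_option autoImplicit false

open Matrix

namespace Pool.Agent.KBT

open Pool.Agent.KBS

/-- replacing the entries by matrices -/
def entries {A B : Type} [CommRing A] [CommRing B] {d : ℕ}
    (ρ : B →+* Matrix (Fin d) (Fin d) A) (ι : Type) [Fintype ι] [DecidableEq ι] :
    GL ι B →* GL (Fin d × ι) A :=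
  MonoidHom.toHomUnits
    { toFun := fun g => Matrix.of fun p q : Fin d × ι =>
        ρ ((g : Matrix ι ι B) p.2 q.2) p.1 q.1
      map_one' := by
        ext p q
        simp only [Units.val_one, Matrix.of_apply, Matrix.one_apply, Prod.ext_iff]
        by_cases h2 : p.2 = q.2
        · simp [h2, Matrix.one_apply]
        · simp [h2]
      map_mul' := fun g h => by
        ext p q
        simp only [Units.val_mul, Matrix.of_apply, Matrix.mul_apply, map_sum, map_mul,
          Matrix.sum_apply, Fintype.sum_prod_type]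
        exact Finset.sum_comm }

/-- restriction of scalars `GL_ι(L) → GL_(dι)(K)` -/
noncomputable def tr (K L : Type) [Field K] [Field L] [Algebra K L] [FiniteDimensional K L]
    (ι : Type) [Fintype ι] [DecidableEq ι] :
    GL ι L →* GL (Fin (Module.finrank K L) × ι) K :=
  entries ((Algebra.leftMulMatrix (Module.finBasis K L)).toRingHom) ι

/-- the matrix of the values of the conjugates on a basis -/
private noncomputable def conjMat {K L : Type} [Field K] [Field L] [Algebra K L] {d : ℕ}
    (b : Module.Basis (Fin d) K L) (e : Fin d → (L ≃ₐ[K] L)) : Matrix (Fin d) (Fin d) L :=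
  Matrix.of fun s j => e s (b j)

private theorem conjMat_det {K L : Type} [Field K] [Field L] [Algebra K L] {d : ℕ}
    (b : Module.Basis (Fin d) K L) (e : Fin d → (L ≃ₐ[K] L)) (he : Function.Injective e) :
    (conjMat b e).det ≠ 0 := by
  intro h
  obtain ⟨c, hc0, hc⟩ := Matrix.exists_vecMul_eq_zero_iff.mpr h
  apply hc0
  have hinj : Function.Injective (fun s => ((e s : L ≃ₐ[K] L) : L →ₐ[K] L)) := by
    intro s t hst
    apply he
    ext x
    exact congrArg (fun f : L →ₐ[K] L => f x) hst
  have hli := (linearIndependent_toLinearMap K L L).comp _ hinj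
  rw [Fintype.linearIndependent_iff] at hli
  funext s
  refine hli c ?_ s
  apply b.ext
  intro j
  have := congrFun hc j
  simpa [Matrix.vecMul, dotProduct, conjMat, LinearMap.sum_apply] using this

private theorem conjMat_mul {K L : Type} [Field K] [Field L] [Algebra K L] {d : ℕ}
    (b : Module.Basis (Fin d) K L) (e : Fin d → (L ≃ₐ[K] L)) (x : L) (s j : Fin d) :
    ∑ i, e s (b i) * algebraMap K L (Algebra.leftMulMatrix b x i j) = e s x * e s (b j) := by
  have h : x * b j = ∑ i, (Algebra.leftMulMatrix b x i j) • b i := by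
    conv_lhs => rw [← b.sum_repr (x * b j)]
    refine Finset.sum_congr rfl fun i _ => ?_
    rw [Algebra.leftMulMatrix_eq_repr_mul]
  rw [← map_mul, h, map_sum]
  refine Finset.sum_congr rfl fun i _ => ?_
  rw [map_smul, Algebra.smul_def, mul_comm]

theorem tr_conj (K L : Type) [Field K] [Field L] [Algebra K L] [FiniteDimensional K L]
    [IsGalois K L] (ι : Type) [Fintype ι] [DecidableEq ι] :
    ∃ (e : Fin (Module.finrank K L) ≃ (L ≃ₐ[K] L)) (P : GL (Fin (Module.finrank K L) × ι) L),
      ∀ g : GL ι L, glMap _ (algebraMap K L) (tr K L ι g) =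
        P * dsum (fun s => glMap ι ((e s : L ≃ₐ[K] L) : L →+* L)) g * P⁻¹ := by
  classical
  have hcard : Nat.card (L ≃ₐ[K] L) = Module.finrank K L := IsGalois.card_aut_eq_finrank K L
  let e : Fin (Module.finrank K L) ≃ (L ≃ₐ[K] L) := (Finite.equivFinOfCardEq hcard).symm
  have hdet : IsUnit (conjMat (Module.finBasis K L) e).det :=
    isUnit_iff_ne_zero.mpr (conjMat_det _ _ e.injective)
  let Q : GL (Fin (Module.finrank K L) × ι) L :=
    ⟨Matrix.kroneckerMap (fun x y => x * y) (conjMat (Module.finBasis K L) e) (1 : Matrix ι ι L),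
      Matrix.kroneckerMap (fun x y => x * y) (conjMat (Module.finBasis K L) e)⁻¹
        (1 : Matrix ι ι L), by
        rw [← Matrix.mul_kronecker_mul, Matrix.mul_nonsing_inv _ hdet, one_mul,
          Matrix.one_kronecker_one], by
        rw [← Matrix.mul_kronecker_mul, Matrix.nonsing_inv_mul _ hdet, one_mul,
          Matrix.one_kronecker_one]⟩
  refine ⟨e, Q⁻¹, fun g => ?_⟩
  have hkey : Q * glMap _ (algebraMap K L) (tr K L ι g) =
      dsum (fun s => glMap ι ((e s : L ≃ₐ[K] L) : L →+* L)) g * Q := by
    apply Units.ext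
    ext ⟨s, i⟩ ⟨j, k⟩
    have h1 := conjMat_mul (Module.finBasis K L) e ((g : Matrix ι ι L) i k) s j
    have hL : ((Q * glMap _ (algebraMap K L) (tr K L ι g) :
        GL (Fin (Module.finrank K L) × ι) L) :
        Matrix (Fin (Module.finrank K L) × ι) (Fin (Module.finrank K L) × ι) L) (s, i) (j, k) =
        ∑ r, ∑ i', (e s (Module.finBasis K L r) * (1 : Matrix ι ι L) i i') *
          algebraMap K L (Algebra.leftMulMatrix (Module.finBasis K L)
            ((g : Matrix ι ι L) i' k) r j) := by
      rw [Units.val_mul, Matrix.mul_apply, Fintype.sum_prod_type]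
      rfl
    have hR : ((dsum (fun s => glMap ι ((e s : L ≃ₐ[K] L) : L →+* L)) g * Q :
        GL (Fin (Module.finrank K L) × ι) L) :
        Matrix (Fin (Module.finrank K L) × ι) (Fin (Module.finrank K L) × ι) L) (s, i) (j, k) =
        ∑ r, ∑ i', (if s = r then e s ((g : Matrix ι ι L) i i') else 0) *
          (e r (Module.finBasis K L j) * (1 : Matrix ι ι L) i' k) := by
      rw [Units.val_mul, Matrix.mul_apply, Fintype.sum_prod_type]
      rfl
    rw [hL, hR]
    have hL' : ∀ r, ∑ i', (e s (Module.finBasis K L r) * (1 : Matrix ι ι L) i i') *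
          algebraMap K L (Algebra.leftMulMatrix (Module.finBasis K L)
            ((g : Matrix ι ι L) i' k) r j) = e s (Module.finBasis K L r) *
          algebraMap K L (Algebra.leftMulMatrix (Module.finBasis K L)
            ((g : Matrix ι ι L) i k) r j) := by
      intro r
      rw [Finset.sum_eq_single i]
      · rw [Matrix.one_apply_eq, mul_one]
      · intro i' _ hi'
        rw [Matrix.one_apply_ne (Ne.symm hi'), mul_zero, zero_mul]
      · intro h
        exact absurd (Finset.mem_univ i) h
    rw [Finset.sum_congr rfl fun r _ => hL' r, h1, Finset.sum_eq_single s]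
    · rw [Finset.sum_eq_single k]
      · rw [if_pos rfl, Matrix.one_apply_eq, mul_one]
      · intro i' _ hi'
        rw [Matrix.one_apply_ne hi', mul_zero, mul_zero]
      · intro h
        exact absurd (Finset.mem_univ k) h
    · intro r _ hr
      refine Finset.sum_eq_zero fun i' _ => ?_
      rw [if_neg (Ne.symm hr), zero_mul]
    · intro h
      exact absurd (Finset.mem_univ s) h
  rw [inv_inv, mul_assoc, ← hkey, inv_mul_cancel_left]

end Pool.Agent.KBT
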