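import Pool.Agent.KBT.Wt
import Pool.Agent.KBT.Tr

/-! Galois descent for `K_(n+1)(-)_ℚ^(w)`: the sum of the conjugates of a class comes from
the base field. -/

set_option autoImplicit false

open Matrix

namespace Pool.Agent.KBT

open Pool.Agent.KBS

variable {n w : ℕ}

theorem null_of_field_ext' {ι : Type} [Fintype ι] [DecidableEq ι] {L E : Type} [Field L] [Field E]
    (f : L →+* E) {z : Chain (GL ι L) (n + 1)} (hz : IsPrim z)
    (h : Null (push (n + 1) (glMap ι f) z)) : Null z := by
  rw [← clsi_eq_zero_iff, ← smap_clsi] at h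
  rw [← clsi_eq_zero_iff]
  exact smap_injective_field f (hz.push' _) h

theorem isPrim_weightDefect {R : Type} [CommRing R] {m : ℕ} {z : Chain (GL (Fin m) R) (n + 1)}
    (hz : IsPrim z) : IsPrim (weightDefect w z) :=
  ((hz.push' _).sub ((hz.push' _).smul _)).sub ((hz.push' _).smul _)

theorem wt_push {R : Type} [CommRing R] {G H : Type} [Group G] [Group H] {m : ℕ} (g : G →* H)
    (f : H →* GL (Fin m) R) (z : Chain G n) : wt w f (push n g z) = wt w (f.comp g) z := by
  rw [wt, wt, ← push_comp, ← push_comp, ← push_comp]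
  rfl

theorem descent_cls (K L : Type) [Field K] [Field L] [Algebra K L] [FiniteDimensional K L]
    [IsGalois K L] {m : ℕ} {z : Chain (GL (Fin m) L) (n + 1)} (hz : IsKClass w z) :
    ∃ y ∈ KSub K n w, smap (algebraMap K L) (n + 1) y =
      ∑ σ : L ≃ₐ[K] L, smap (σ : L →+* L) (n + 1) (cls z) := by
  obtain ⟨e, P, hP⟩ := tr_conj K L (Fin m)
  let d := Module.finrank K L
  let F : GL (Fin m) L →* GL (Fin (d * m)) K := (gre K finProdFinEquiv).comp (tr K L (Fin m))
  let D : GL (Fin m) L →* GL (Fin d × Fin m) L :=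
    dsum (fun s => glMap (Fin m) ((e s : L ≃ₐ[K] L) : L →+* L))
  let D' : GL (Fin m) L →* GL (Fin (d * m)) L := (gre L finProdFinEquiv).comp D
  let FL : GL (Fin m) L →* GL (Fin (d * m)) L := (glMap _ (algebraMap K L)).comp F
  have hFL : ∀ g, FL g = gre L finProdFinEquiv P * D' g * (gre L finProdFinEquiv P)⁻¹ := by
    intro g
    have h1 : FL g = gre L finProdFinEquiv (glMap _ (algebraMap K L) (tr K L (Fin m) g)) := by
      apply Units.ext
      ext i j
      rfl
    rw [h1, hP g, map_mul, map_mul, map_inv]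
    rfl
  let y := push (n + 1) F z
  have hy : IsPrim y := hz.prim.push' F
  have hwz : wt w (MonoidHom.id _) z = 0 := (wt_iff w z hz.cycle).1 hz.weight'
  have hw0 : wt w FL z = 0 := by
    rw [← wt_conj w D' FL _ hFL z hz.cycle, wt_dsum w _ z hz.prim]
    refine Finset.sum_eq_zero fun s _ => ?_
    have h1 := smap_wt w ((e s : L ≃ₐ[K] L) : L →+* L) (MonoidHom.id (GL (Fin m) L)) z
    rw [hwz, map_zero, MonoidHom.comp_id] at h1
    exact h1.symm
  have hyc : IsKClass w y := by
    refine isKClass_mk hy (null_of_field_ext' (algebraMap K L) (isPrim_weightDefect hy) ?_)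
    rw [← nuMap_coe, ← weightDefect_push, nuMap_coe, wt_iff _ _ (hy.push' _).cycle, wt_push]
    have h2 : ((MonoidHom.id _).comp (glMap (Fin (d * m)) (algebraMap K L))).comp F = FL := rfl
    rw [wt_push]
    exact hw0
  refine ⟨cls y, cls_mem hyc, ?_⟩
  have hcy : bd _ n (push (n + 1) FL z) = 0 := by rw [bd_push, hz.cycle, map_zero]
  rw [smap_cls, ← push_comp]
  show cls (push (n + 1) FL z) = _
  rw [← clsi_fin _ hcy, ← clsi_conj D' FL _ hFL z hz.cycle]
  show clsi (push (n + 1) ((gre L finProdFinEquiv).comp D) z) = _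
  rw [push_comp, clsi_gre _ _ (by rw [bd_push, hz.cycle, map_zero]), clsi_dsum _ z hz.prim,
    ← e.sum_comp]
  refine Finset.sum_congr rfl fun s _ => ?_
  rw [smap_cls, clsi_fin _ (by rw [bd_push, hz.cycle, map_zero])]

theorem descent (K L : Type) [Field K] [Field L] [Algebra K L] [FiniteDimensional K L]
    [IsGalois K L] (x : KQ L n w) :
    ∑ σ : L ≃ₐ[K] L, kmap (σ : L →+* L) n w x ∈ LinearMap.range (kmap (algebraMap K L) n w) := by
  have key : ∀ x : SH L (n + 1), x ∈ KSub L n w → ∃ y ∈ KSub K n w,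
      smap (algebraMap K L) (n + 1) y = ∑ σ : L ≃ₐ[K] L, smap (σ : L →+* L) (n + 1) x := by
    intro x hx
    induction hx using Submodule.span_induction with
    | mem x h =>
      obtain ⟨m, z, hz, rfl⟩ := h
      exact descent_cls K L hz
    | zero => exact ⟨0, Submodule.zero_mem _, by simp⟩
    | add a b _ _ ha hb =>
      obtain ⟨y, hy, hya⟩ := ha
      obtain ⟨y', hy', hyb⟩ := hb
      refine ⟨y + y', Submodule.add_mem _ hy hy', ?_⟩
      rw [map_add, hya, hyb, ← Finset.sum_add_distrib]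
      exact Finset.sum_congr rfl fun σ _ => (map_add _ _ _).symm
    | smul q a _ ha =>
      obtain ⟨y, hy, hya⟩ := ha
      refine ⟨q • y, Submodule.smul_mem _ _ hy, ?_⟩
      rw [map_smul, hya, Finset.smul_sum]
      exact Finset.sum_congr rfl fun σ _ => (map_smul _ _ _).symm
  obtain ⟨y, hy, hxy⟩ := key _ (kval_mem x)
  obtain ⟨y', rfl⟩ := exists_kval hy
  refine ⟨y', kval_injective ?_⟩
  rw [kval_kmap, hxy, map_sum]
  rfl

end Pool.Agent.KBT
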