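import Pool.Agent.KBT.Blk

/-! KBT-Dsum. Block diagonal sums of finitely many representations.

PLAN. `Fintype.induction_empty_option` on `Γ` for the statement `∀ [DecidableEq Γ] f, ...` (the
`DecidableEq` instances are a subsingleton). Transport along `e : Γ ≃ Γ'`:
`dsum f = gre (Equiv.prodCongr e (Equiv.refl ι)) ∘ dsum (f ∘ e)` and `clsi_gre`. Empty: the
homomorphism is trivial (`GL (PEmpty × ι) R` is a subsingleton), `clsi_one`. Option:
`gre e (dsum f) = bsum (f none) (dsum fun σ => f (some σ))` for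
`e : Option Γ × ι ≃ ι ⊕ (Γ × ι)`, then `clsi_bsum`, `clsi_gre` and `Fintype.sum_option`. -/

set_option autoImplicit false

open Matrix

namespace Pool.Agent.KBT

open Pool.Agent.KBS

variable {ι Γ : Type} [Fintype ι] [DecidableEq ι] [Fintype Γ] [DecidableEq Γ]
variable {R : Type} [CommRing R] {n : ℕ} {G : Type} [Group G]

/-- the block diagonal matrix with blocks `M σ` -/
def dmat (M : Γ → Matrix ι ι R) : Matrix (Γ × ι) (Γ × ι) R :=
  Matrix.of fun p q => if p.1 = q.1 then M p.1 p.2 q.2 else 0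

theorem dmat_one : dmat (fun _ : Γ => (1 : Matrix ι ι R)) = 1 := by
  ext ⟨a, i⟩ ⟨b, j⟩
  simp only [dmat, Matrix.of_apply, Matrix.one_apply, Prod.mk.injEq]
  by_cases h1 : a = b <;> by_cases h2 : i = j <;> simp [h1, h2]

theorem dmat_mul (M N : Γ → Matrix ι ι R) : dmat (fun σ => M σ * N σ) = dmat M * dmat N := by
  ext ⟨a, i⟩ ⟨b, j⟩
  rw [Matrix.mul_apply, Fintype.sum_prod_type, Finset.sum_eq_single a]
  · simp only [dmat, Matrix.of_apply]
    by_cases h1 : a = b
    · simp only [h1, if_true]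
      rw [Matrix.mul_apply]
    · simp [h1]
  · intro c _ hc
    refine Finset.sum_eq_zero fun k _ => ?_
    simp only [dmat, Matrix.of_apply]
    rw [if_neg (fun h => hc h.symm), zero_mul]
  · intro h
    exact absurd (Finset.mem_univ a) h

/-- the representation `⊕_σ f σ` -/
def dsum (f : Γ → G →* GL ι R) : G →* GL (Γ × ι) R :=
  MonoidHom.toHomUnits
    { toFun := fun g => dmat fun σ => ((f σ g : GL ι R) : Matrix ι ι R)
      map_one' := by simpa using dmat_one
      map_mul' := fun g h => by simpa using dmat_mul _ _ }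

theorem dsum_apply (f : Γ → G →* GL ι R) (g : G) (p q : Γ × ι) :
    ((dsum f g : GL (Γ × ι) R) : Matrix (Γ × ι) (Γ × ι) R) p q =
      if p.1 = q.1 then ((f p.1 g : GL ι R) : Matrix ι ι R) p.2 q.2 else 0 := rfl

theorem gre_apply' {α β : Type} [Fintype α] [DecidableEq α] [Fintype β] [DecidableEq β]
    (e : α ≃ β) (g : GL α R) (p q : β) :
    ((gre R e g : GL β R) : Matrix β β R) p q = (g : Matrix α α R) (e.symm p) (e.symm q) := rfl

theorem dsum_equiv {Γ' : Type} [Fintype Γ'] [DecidableEq Γ'] (e : Γ ≃ Γ')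
    (f : Γ' → G →* GL ι R) :
    (gre R (Equiv.prodCongr e (Equiv.refl ι))).comp (dsum fun σ => f (e σ)) = dsum f := by
  apply MonoidHom.ext
  intro g
  apply Units.ext
  ext p q
  rw [MonoidHom.comp_apply, gre_apply', dsum_apply, dsum_apply]
  simp only [Equiv.prodCongr_symm, Equiv.prodCongr_apply, Prod.map, Equiv.apply_symm_apply,
    EmbeddingLike.apply_eq_iff_eq, Equiv.refl_symm, Equiv.refl_apply]

/-- splitting off the first block -/
def succE (k : ℕ) (ι : Type) : Fin (k + 1) × ι ≃ ι ⊕ (Fin k × ι) where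
  toFun p := Fin.cases (Sum.inl p.2) (fun a => Sum.inr (a, p.2)) p.1
  invFun := Sum.elim (fun i => (0, i)) (fun q => (q.1.succ, q.2))
  left_inv := by
    rintro ⟨a, i⟩
    induction a using Fin.cases with
    | zero => rfl
    | succ a => rfl
  right_inv := by
    rintro (i | ⟨a, i⟩)
    · rfl
    · rfl

theorem dsum_succ {k : ℕ} (f : Fin (k + 1) → G →* GL ι R) :
    (gre R (succE k ι)).comp (dsum f) = bsum (f 0) (dsum fun a => f a.succ) := by
  apply MonoidHom.ext
  intro g
  apply Units.ext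
  ext p q
  rw [MonoidHom.comp_apply, gre_apply', dsum_apply]
  have hb : ((bsum (f 0) (dsum fun a => f a.succ) g : GL (ι ⊕ (Fin k × ι)) R) :
      Matrix (ι ⊕ (Fin k × ι)) (ι ⊕ (Fin k × ι)) R) =
      Matrix.fromBlocks ((f 0 g : GL ι R) : Matrix ι ι R) 0 0
        ((dsum (fun a => f a.succ) g : GL (Fin k × ι) R) : Matrix (Fin k × ι) (Fin k × ι) R) := rfl
  rw [hb]
  rcases p with i | ⟨a, i⟩ <;> rcases q with j | ⟨b, j⟩
  · rw [Matrix.fromBlocks_apply₁₁]
    exact if_pos rfl
  · rw [Matrix.fromBlocks_apply₁₂, Matrix.zero_apply]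
    exact if_neg (Fin.succ_ne_zero b).symm
  · rw [Matrix.fromBlocks_apply₂₁, Matrix.zero_apply]
    exact if_neg (Fin.succ_ne_zero a)
  · rw [Matrix.fromBlocks_apply₂₂, dsum_apply]
    show (if a.succ = b.succ then _ else _) = _
    simp only [Fin.succ_inj]
    rfl

theorem clsi_dsum_fin (z : Chain G (n + 1)) (hz : IsPrim z) : ∀ (k : ℕ)
    (f : Fin k → G →* GL ι R),
    clsi (push (n + 1) (dsum f) z) = ∑ σ, clsi (push (n + 1) (f σ) z) := by
  intro k
  induction k with
  | zero =>
    intro f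
    have h1 : dsum f = 1 := by
      apply MonoidHom.ext
      intro g
      apply Units.ext
      ext p q
      exact p.1.elim0
    rw [h1, clsi_one z hz.cycle, Fin.sum_univ_zero]
  | succ k ih =>
    intro f
    have h1 := clsi_gre (succE k ι) (push (n + 1) (dsum f) z) (by rw [bd_push, hz.cycle, map_zero])
    rw [← push_comp, dsum_succ, clsi_bsum _ _ _ hz, ih] at h1
    rw [← h1, Fin.sum_univ_succ]

theorem clsi_dsum (f : Γ → G →* GL ι R) (z : Chain G (n + 1)) (hz : IsPrim z) :
    clsi (push (n + 1) (dsum f) z) = ∑ σ, clsi (push (n + 1) (f σ) z) := by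
  have e := (Fintype.equivFin Γ).symm
  have h1 := clsi_gre (Equiv.prodCongr e (Equiv.refl ι))
    (push (n + 1) (dsum fun σ => f (e σ)) z) (by rw [bd_push, hz.cycle, map_zero])
  rw [← push_comp, dsum_equiv, clsi_dsum_fin z hz] at h1
  rw [h1]
  exact Equiv.sum_comp e fun σ => clsi (push (n + 1) (f σ) z)

end Pool.Agent.KBT
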