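import Pool.Agent.KBT.Ten

/-! KBT-ExtD. The exterior square of a direct sum: `Λ²(⊕ V_σ) = ⊕ Λ² V_σ ⊕ ⊕_(σ<τ) V_σ ⊗ V_τ`.

PLAN. `finProdFinEquiv : Fin d × Fin m ≃ Fin (d * m)`, `(σ, i) ↦ i + m * σ`, is lexicographic
(`finProdFinEquiv` values: `Nat` arithmetic), so `(σ, i) < (τ, j)` iff `σ < τ` or (`σ = τ` and
`i < j`). The map `φ : (Fin d × Pairs m) ⊕ (Pairs d × (Fin m × Fin m)) → Pairs (d * m)`,
`(σ, (i, j)) ↦ ((σ, i), (σ, j))`, `((σ, τ), (i, j)) ↦ ((σ, i), (τ, j))`, is bijective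
(`Equiv.ofBijective`), and
`extSq (d * m) ∘ gre finProdFinEquiv ∘ dsum f = gre φ ∘ bsum (dsum fun σ => (extSq m R).comp (f σ))
(dsum fun p : Pairs d => kron (f p.1.1) (f p.1.2))` (entries; the second product of the minor
vanishes for `σ < τ`, `σ' < τ'`). Then `clsi_gre`, `clsi_bsum`, `clsi_dsum`. -/

set_option autoImplicit false

open Matrix

namespace Pool.Agent.KBT

open Pool.Agent.KBS

variable {R : Type} [CommRing R] {n m d : ℕ} {G : Type} [Group G]

private theorem extD_lt (σ τ : Fin d) (i j : Fin m) :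
    finProdFinEquiv (σ, i) < finProdFinEquiv (τ, j) ↔ σ < τ ∨ (σ = τ ∧ i < j) := by
  have hi := i.2
  have hj := j.2
  have h1 : ((finProdFinEquiv (σ, i) : Fin (d * m)) : ℕ) = i + m * σ := rfl
  have h2 : ((finProdFinEquiv (τ, j) : Fin (d * m)) : ℕ) = j + m * τ := rfl
  rw [Fin.lt_def, h1, h2, Fin.lt_def, Fin.lt_def, Fin.ext_iff]
  constructor
  · intro h
    rcases lt_trichotomy (σ : ℕ) (τ : ℕ) with h3 | h3 | h3
    · exact Or.inl h3
    · rw [h3] at h
      exact Or.inr ⟨h3, by omega⟩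
    · exfalso
      have h4 : m * ((τ : ℕ) + 1) ≤ m * σ := Nat.mul_le_mul_left m h3
      rw [mul_add, mul_one] at h4
      omega
  · rintro (h | ⟨h, h'⟩)
    · have h4 : m * ((σ : ℕ) + 1) ≤ m * τ := Nat.mul_le_mul_left m h
      rw [mul_add, mul_one] at h4
      omega
    · rw [h]
      omega

private def extDfun (m d : ℕ) :
    (Fin d × Pairs m) ⊕ (Pairs d × (Fin m × Fin m)) → Pairs (d * m)
  | Sum.inl x => ⟨(finProdFinEquiv (x.1, x.2.1.1), finProdFinEquiv (x.1, x.2.1.2)),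
      (extD_lt _ _ _ _).2 (Or.inr ⟨rfl, x.2.2⟩)⟩
  | Sum.inr x => ⟨(finProdFinEquiv (x.1.1.1, x.2.1), finProdFinEquiv (x.1.1.2, x.2.2)),
      (extD_lt _ _ _ _).2 (Or.inl x.1.2)⟩

private theorem extDfun_bij (m d : ℕ) : Function.Bijective (extDfun m d) := by
  constructor
  · rintro (⟨σ, ⟨⟨i, j⟩, hij⟩⟩ | ⟨⟨⟨σ, τ⟩, hσ⟩, ⟨i, j⟩⟩)
      (⟨σ', ⟨⟨i', j'⟩, hij'⟩⟩ | ⟨⟨⟨σ', τ'⟩, hσ'⟩, ⟨i', j'⟩⟩) h
    · have h1 := congrArg Subtype.val h
      simp only [extDfun, Prod.mk.injEq, EmbeddingLike.apply_eq_iff_eq] at h1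
      obtain ⟨⟨rfl, rfl⟩, _, rfl⟩ := h1
      rfl
    · have h1 := congrArg Subtype.val h
      simp only [extDfun, Prod.mk.injEq, EmbeddingLike.apply_eq_iff_eq] at h1
      obtain ⟨⟨rfl, rfl⟩, rfl, rfl⟩ := h1
      exact absurd hσ' (lt_irrefl _)
    · have h1 := congrArg Subtype.val h
      simp only [extDfun, Prod.mk.injEq, EmbeddingLike.apply_eq_iff_eq] at h1
      obtain ⟨⟨rfl, rfl⟩, rfl, rfl⟩ := h1
      exact absurd hσ (lt_irrefl _)
    · have h1 := congrArg Subtype.val h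
      simp only [extDfun, Prod.mk.injEq, EmbeddingLike.apply_eq_iff_eq] at h1
      obtain ⟨⟨rfl, rfl⟩, rfl, rfl⟩ := h1
      rfl
  · rintro ⟨⟨a, b⟩, hab⟩
    obtain ⟨⟨σ, i⟩, rfl⟩ := finProdFinEquiv.surjective a
    obtain ⟨⟨τ, j⟩, rfl⟩ := finProdFinEquiv.surjective b
    have hab' : finProdFinEquiv (σ, i) < finProdFinEquiv (τ, j) := hab
    rcases (extD_lt σ τ i j).1 hab' with h | ⟨rfl, h⟩
    · exact ⟨Sum.inr (⟨(σ, τ), h⟩, (i, j)), rfl⟩
    · exact ⟨Sum.inl (σ, ⟨(i, j), h⟩), rfl⟩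

private noncomputable def extDE (m d : ℕ) :
    (Fin d × Pairs m) ⊕ (Pairs d × (Fin m × Fin m)) ≃ Pairs (d * m) :=
  Equiv.ofBijective (extDfun m d) (extDfun_bij m d)

private theorem extD_minors (M : Fin d → Matrix (Fin m) (Fin m) R)
    (A : Matrix (Fin (d * m)) (Fin (d * m)) R)
    (hA : ∀ p q, A (finProdFinEquiv p) (finProdFinEquiv q) = dmat M p q)
    (x y : (Fin d × Pairs m) ⊕ (Pairs d × (Fin m × Fin m))) :
    minors A (extDfun m d x) (extDfun m d y) =
      Matrix.fromBlocks (dmat fun σ => minors (M σ)) 0 0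
        (dmat fun p : Pairs d => Matrix.kroneckerMap (· * ·) (M p.1.1) (M p.1.2)) x y := by
  rcases x with ⟨σ, ⟨⟨i, j⟩, hij⟩⟩ | ⟨⟨⟨σ, τ⟩, hσ⟩, ⟨i, j⟩⟩ <;>
    rcases y with ⟨σ', ⟨⟨i', j'⟩, hij'⟩⟩ | ⟨⟨⟨σ', τ'⟩, hσ'⟩, ⟨i', j'⟩⟩
  · simp only [minors, extDfun, Matrix.of_apply, hA, dmat, Matrix.fromBlocks_apply₁₁]
    by_cases h : σ = σ'
    · simp [h]
    · simp [h]
  · simp only [minors, extDfun, Matrix.of_apply, hA, dmat, Matrix.fromBlocks_apply₁₂,
      Matrix.zero_apply]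
    by_cases h : σ = σ'
    · have h2 : σ ≠ τ' := by
        rintro rfl
        rw [h] at hσ'
        exact absurd hσ' (lt_irrefl _)
      simp [h2]
    · simp [h]
  · simp only [minors, extDfun, Matrix.of_apply, hA, dmat, Matrix.fromBlocks_apply₂₁,
      Matrix.zero_apply]
    by_cases h : σ = σ'
    · have h2 : τ ≠ σ' := by
        rintro rfl
        rw [h] at hσ
        exact absurd hσ (lt_irrefl _)
      simp [h2]
    · simp [h]
  · simp only [minors, extDfun, Matrix.of_apply, hA, dmat, Matrix.fromBlocks_apply₂₂,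
      Subtype.mk.injEq, Prod.mk.injEq, Matrix.kroneckerMap_apply]
    have h3 : (if σ = τ' then M σ i j' else 0) * (if τ = σ' then M τ j i' else 0) = 0 := by
      by_cases h : σ = τ'
      · have h2 : τ ≠ σ' := by
          rintro rfl
          rw [h] at hσ
          exact absurd (hσ.trans hσ') (lt_irrefl _)
        simp [h2]
      · simp [h]
    rw [h3, sub_zero]
    by_cases h : σ = σ'
    · by_cases h' : τ = τ'
      · simp [h, h']
      · simp [h']
    · simp [h]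

private theorem extD_comp (f : Fin d → G →* GL (Fin m) R) :
    (extSq (d * m) R).comp ((gre R finProdFinEquiv).comp (dsum f)) =
      (gre R (extDE m d)).comp (bsum (dsum fun σ => (extSq m R).comp (f σ))
        (dsum fun p : Pairs d => kron (f p.1.1) (f p.1.2))) := by
  ext g p q
  obtain ⟨x, rfl⟩ := (extDE m d).surjective p
  obtain ⟨y, rfl⟩ := (extDE m d).surjective q
  have h1 : ((((gre R (extDE m d)).comp (bsum (dsum fun σ => (extSq m R).comp (f σ))
      (dsum fun p : Pairs d => kron (f p.1.1) (f p.1.2)))) g : GL (Pairs (d * m)) R) :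
      Matrix _ _ R) (extDE m d x) (extDE m d y) =
      Matrix.fromBlocks (dmat fun σ => minors ((f σ g : GL (Fin m) R) : Matrix _ _ R)) 0 0
        (dmat fun p : Pairs d => Matrix.kroneckerMap (· * ·)
          ((f p.1.1 g : GL (Fin m) R) : Matrix _ _ R)
          ((f p.1.2 g : GL (Fin m) R) : Matrix _ _ R))
        ((extDE m d).symm (extDE m d x)) ((extDE m d).symm (extDE m d y)) := rfl
  rw [h1, Equiv.symm_apply_apply, Equiv.symm_apply_apply]
  refine extD_minors (fun σ => ((f σ g : GL (Fin m) R) : Matrix _ _ R))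
    ((((gre R finProdFinEquiv).comp (dsum f)) g : GL (Fin (d * m)) R) :
      Matrix (Fin (d * m)) (Fin (d * m)) R) (fun p q => ?_) x y
  have h2 : ((((gre R finProdFinEquiv).comp (dsum f)) g : GL (Fin (d * m)) R) :
      Matrix (Fin (d * m)) (Fin (d * m)) R) (finProdFinEquiv p) (finProdFinEquiv q) =
      dmat (fun σ => ((f σ g : GL (Fin m) R) : Matrix _ _ R))
        (finProdFinEquiv.symm (finProdFinEquiv p))
        (finProdFinEquiv.symm (finProdFinEquiv q)) := rfl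
  rw [h2, Equiv.symm_apply_apply, Equiv.symm_apply_apply]

theorem clsi_extSq_dsum (f : Fin d → G →* GL (Fin m) R) (z : Chain G (n + 1)) (hz : IsPrim z) :
    clsi (push (n + 1) ((extSq (d * m) R).comp ((gre R finProdFinEquiv).comp (dsum f))) z) =
      ∑ σ, clsi (push (n + 1) ((extSq m R).comp (f σ)) z) +
        ∑ p : Pairs d, clsi (push (n + 1) (kron (f p.1.1) (f p.1.2)) z) := by
  rw [extD_comp, push_comp, clsi_gre _ _ (by rw [bd_push, hz.cycle, map_zero]),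
    clsi_bsum _ _ z hz, clsi_dsum _ z hz, clsi_dsum _ z hz]

end Pool.Agent.KBT
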