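import Pool.Agent.KBT.SH
import Pool.Agent.KBS.SEq

/-! Rational algebraic K-theory with its weights as a functor to rational vector spaces:
`KQ R n w = K_(n+1)(R)_ℚ^(w)` is the space of the classes of the cycles `z` of degree `n + 1` of the
groups `GL_m(R)` which are primitive and of weight `w`. -/

set_option autoImplicit false

open Matrix

namespace Pool.Agent.KBT

open Pool.Agent.KBS

variable {R S T : Type} [CommRing R] [CommRing S] [CommRing T] {n w : ℕ}

/-- a primitive cycle of positive degree: `Δ_* z - z × 1 - 1 × z` is a boundary -/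
structure IsPrim {G : Type} [Group G] {n : ℕ} (z : Chain G (n + 1)) : Prop where
  cycle : bd G n z = 0
  primitive : IsBd (primDefect z)

/-- `z` is a cycle of degree `n + 1` of `GL_m(R)`, it is primitive, and its class in
`H_(n+1)(GL(R); ℚ)` has weight `w`: `ψ² z - 2^w z` is stably a boundary. -/
structure IsKClass {R : Type} [CommRing R] {m n : ℕ} (w : ℕ) (z : Chain (GL (Fin m) R) (n + 1)) :
    Prop where
  prim : IsPrim z
  weight : Pool.Agent.KBS.S.Null (Pool.Agent.KBS.S.weightDefect w z)

theorem IsKClass.cycle {m : ℕ} {z : Chain (GL (Fin m) R) (n + 1)} (h : IsKClass w z) :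
    bd _ n z = 0 := h.prim.cycle

theorem IsKClass.weight' {m : ℕ} {z : Chain (GL (Fin m) R) (n + 1)} (h : IsKClass w z) :
    Null (weightDefect w z) := h.weight

theorem isKClass_mk {m : ℕ} {z : Chain (GL (Fin m) R) (n + 1)} (h : IsPrim z)
    (h' : Null (weightDefect w z)) : IsKClass w z := ⟨h, h'⟩

/-- `K_(n+1)(R)_ℚ^(w)` as a subspace of the stable chains modulo boundaries -/
noncomputable def KSub (R : Type) [CommRing R] (n w : ℕ) : Submodule ℚ (SH R (n + 1)) :=
  Submodule.span ℚ {x | ∃ (m : ℕ) (z : Chain (GL (Fin m) R) (n + 1)), IsKClass w z ∧ cls z = x}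

/-- `K_(n+1)(R)_ℚ^(w)` -/
def KQ (R : Type) [CommRing R] (n w : ℕ) : Type := KSub R n w

noncomputable instance (R : Type) [CommRing R] (n w : ℕ) : AddCommGroup (KQ R n w) :=
  Submodule.addCommGroup (KSub R n w)

noncomputable instance (R : Type) [CommRing R] (n w : ℕ) : Module ℚ (KQ R n w) :=
  Submodule.module (KSub R n w)

/-- the inclusion in the stable chains modulo boundaries -/
noncomputable def kval (R : Type) [CommRing R] (n w : ℕ) : KQ R n w →ₗ[ℚ] SH R (n + 1) :=
  (KSub R n w).subtype

theorem kval_injective : Function.Injective (kval R n w) := Subtype.val_injective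

theorem kval_mem (x : KQ R n w) : kval R n w x ∈ KSub R n w := x.2

theorem exists_kval {x : SH R (n + 1)} (h : x ∈ KSub R n w) : ∃ y, kval R n w y = x :=
  ⟨⟨x, h⟩, rfl⟩

theorem IsPrim.push' {G H : Type} [Group G] [Group H] {z : Chain G (n + 1)} (h : IsPrim z)
    (f : G →* H) : IsPrim (push (n + 1) f z) where
  cycle := by rw [bd_push, h.cycle, map_zero]
  primitive := by
    rw [primDefect_push]
    exact h.primitive.push' _

theorem IsKClass.map {m : ℕ} {z : Chain (GL (Fin m) R) (n + 1)} (h : IsKClass w z)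
    (f : R →+* S) : IsKClass w (push (n + 1) (glMap (Fin m) f) z) := by
  refine isKClass_mk (h.prim.push' _) ?_
  rw [← nuMap_coe, weightDefect_push]
  exact h.weight'.map_nu _

theorem cls_mem {m : ℕ} {z : Chain (GL (Fin m) R) (n + 1)} (h : IsKClass w z) :
    cls z ∈ KSub R n w :=
  Submodule.subset_span ⟨m, z, h, rfl⟩

theorem smap_mem (f : R →+* S) (x : SH R (n + 1)) (h : x ∈ KSub R n w) :
    smap f (n + 1) x ∈ KSub S n w := by
  have h1 : KSub R n w ≤ (KSub S n w).comap (smap f (n + 1)) := by
    refine Submodule.span_le.2 ?_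
    rintro _ ⟨m, z, hz, rfl⟩
    show smap f (n + 1) (cls z) ∈ KSub S n w
    rw [smap_cls]
    exact cls_mem (hz.map f)
  exact h1 h

/-- the map `K_(n+1)(R)_ℚ^(w) → K_(n+1)(S)_ℚ^(w)` induced by a ring homomorphism -/
noncomputable def kmap (f : R →+* S) (n w : ℕ) : KQ R n w →ₗ[ℚ] KQ S n w :=
  (smap f (n + 1)).restrict (smap_mem f)

theorem kval_kmap (f : R →+* S) (x : KQ R n w) :
    kval S n w (kmap f n w x) = smap f (n + 1) (kval R n w x) := rfl

theorem kmap_comp (f : R →+* S) (g : S →+* T) (x : KQ R n w) :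
    kmap (g.comp f) n w x = kmap g n w (kmap f n w x) := by
  apply kval_injective
  rw [kval_kmap, kval_kmap, kval_kmap, smap_comp]

theorem kmap_id (x : KQ R n w) : kmap (RingHom.id R) n w x = x := by
  apply kval_injective
  rw [kval_kmap, smap_id]

end Pool.Agent.KBT
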