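import Pool.Agent.KBT.KSp
import Pool.Agent.KBS.Fld

/-! Every element of `K_(n+1)(R)_ℚ^(w)` is the class of one primitive cycle. Extensions of fields
induce injective maps. -/

set_option autoImplicit false

open Matrix

namespace Pool.Agent.KBT

open Pool.Agent.KBS

variable {R S T : Type} [CommRing R] [CommRing S] [CommRing T] {n w : ℕ}

theorem primDefect_add {G : Type} [Group G] (z z' : Chain G n) :
    primDefect (z + z') = primDefect z + primDefect z' := by
  rw [primDefect, primDefect, primDefect, map_add, map_add, map_add]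
  abel

theorem primDefect_smul {G : Type} [Group G] (q : ℚ) (z : Chain G n) :
    primDefect (q • z) = q • primDefect z := by
  rw [primDefect, primDefect, map_smul, map_smul, map_smul, smul_sub, smul_sub]

theorem IsPrim.add {G : Type} [Group G] {z z' : Chain G (n + 1)} (h : IsPrim z)
    (h' : IsPrim z') : IsPrim (z + z') where
  cycle := by rw [map_add, h.cycle, h'.cycle, add_zero]
  primitive := by
    rw [primDefect_add]
    exact h.primitive.add h'.primitive

theorem IsPrim.smul {G : Type} [Group G] {z : Chain G (n + 1)} (q : ℚ) (h : IsPrim z) :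
    IsPrim (q • z) where
  cycle := by rw [map_smul, h.cycle, smul_zero]
  primitive := by
    rw [primDefect_smul]
    exact h.primitive.smul q

theorem IsPrim.sub {G : Type} [Group G] {z z' : Chain G (n + 1)} (h : IsPrim z)
    (h' : IsPrim z') : IsPrim (z - z') := by
  rw [sub_eq_add_neg, ← neg_one_smul ℚ z']
  exact h.add (h'.smul _)

theorem isPrim_zero {G : Type} [Group G] : IsPrim (0 : Chain G (n + 1)) where
  cycle := map_zero _
  primitive := by
    have h := primDefect_smul (n := n + 1) (0 : ℚ) (0 : Chain G (n + 1))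
    rw [zero_smul, zero_smul] at h
    rw [h]
    exact isBd_zero

theorem IsPrim.nullPair {ι : Type} [Fintype ι] [DecidableEq ι] {z : Chain (GL ι R) (n + 1)}
    (h : IsPrim z) : NullPair (primDefect z) :=
  ⟨0, h.primitive.push' _⟩

theorem exists_rep {x : SH R (n + 1)} (hx : x ∈ KSub R n w) :
    ∃ (m : ℕ) (z : Chain (GL (Fin m) R) (n + 1)), IsPrim z ∧ cls z = x := by
  induction hx using Submodule.span_induction with
  | mem x h =>
    obtain ⟨m, z, hz, rfl⟩ := h
    exact ⟨m, z, hz.prim, rfl⟩
  | zero => exact ⟨0, 0, isPrim_zero, cls_zero⟩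
  | add x y _ _ hx hy =>
    obtain ⟨a, z, hz, rfl⟩ := hx
    obtain ⟨b, z', hz', rfl⟩ := hy
    refine ⟨max a b, push (n + 1) (corner R (le_max_left a b)) z +
      push (n + 1) (corner R (le_max_right a b)) z', (hz.push' _).add (hz'.push' _), ?_⟩
    rw [cls_add, cls_corner, cls_corner]
  | smul q x _ hx =>
    obtain ⟨a, z, hz, rfl⟩ := hx
    exact ⟨a, q • z, hz.smul q, cls_smul q z⟩

theorem smap_injective_field {F E : Type} [Field F] [Field E] (f : F →+* E) {m : ℕ}
    {z : Chain (GL (Fin m) F) (n + 1)} (hz : IsPrim z) (h : smap f (n + 1) (cls z) = 0) :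
    cls z = 0 := by
  rw [smap_cls, cls_eq_zero_iff] at h
  rw [cls_eq_zero_iff]
  exact null_of_field_ext f z hz.cycle hz.nullPair h

theorem kmap_injective {F E : Type} [Field F] [Field E] (f : F →+* E) :
    Function.Injective (kmap f n w) := by
  rw [injective_iff_map_eq_zero]
  intro x h
  obtain ⟨m, z, hz, hzx⟩ := exists_rep (kval_mem x)
  apply kval_injective
  rw [map_zero, ← hzx]
  refine smap_injective_field f hz ?_
  rw [hzx, ← kval_kmap, h, map_zero]

end Pool.Agent.KBT
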