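import Pool.Agent.KBT.Cor

/-! The stable chains modulo boundaries: `colim_m C_n(GL_m(R); ℚ) / (boundaries)`. It contains
`H_n(GL(R); ℚ)`. -/

set_option autoImplicit false

open Matrix

namespace Pool.Agent.KBT

open Pool.Agent.KBS

section Quot

variable {G H K : Type} [Group G] [Group H] [Group K] {n : ℕ}

/-- chains modulo boundaries -/
def HH (G : Type) [Group G] (n : ℕ) : Type := Chain G n ⧸ LinearMap.range (bd G n)

noncomputable instance instAddCommGroupHH (G : Type) [Group G] (n : ℕ) : AddCommGroup (HH G n) :=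
  Submodule.Quotient.addCommGroup (LinearMap.range (bd G n))

noncomputable instance instModuleHH (G : Type) [Group G] (n : ℕ) : Module ℚ (HH G n) :=
  Submodule.Quotient.module (LinearMap.range (bd G n))

/-- the class of a chain modulo boundaries -/
noncomputable def hmk (G : Type) [Group G] (n : ℕ) : Chain G n →ₗ[ℚ] HH G n :=
  (LinearMap.range (bd G n)).mkQ

theorem hmk_surjective (x : HH G n) : ∃ z, hmk G n z = x :=
  Submodule.Quotient.mk_surjective _ x

theorem push_range (f : G →* H) :
    LinearMap.range (bd G n) ≤ (LinearMap.range (bd H n)).comap (push n f) := by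
  rintro _ ⟨b, rfl⟩
  exact ⟨push (n + 1) f b, bd_push f b⟩

/-- the map induced by a homomorphism of groups -/
noncomputable def hpush (n : ℕ) (f : G →* H) : HH G n →ₗ[ℚ] HH H n :=
  Submodule.mapQ _ _ (push n f) (push_range f)

theorem hpush_mk (f : G →* H) (z : Chain G n) :
    hpush n f (hmk G n z) = hmk H n (push n f z) := rfl

theorem hpush_comp (f : G →* H) (g : H →* K) (x : HH G n) :
    hpush n (g.comp f) x = hpush n g (hpush n f x) := by
  obtain ⟨z, rfl⟩ := hmk_surjective x
  rw [hpush_mk, hpush_mk, hpush_mk, push_comp]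

theorem hpush_id (x : HH G n) : hpush n (MonoidHom.id G) x = x := by
  obtain ⟨z, rfl⟩ := hmk_surjective x
  rw [hpush_mk, push_id]

theorem mk_eq_zero_iff (z : Chain G n) : hmk G n z = 0 ↔ IsBd z :=
  Submodule.Quotient.mk_eq_zero _

end Quot

variable {R S T : Type} [CommRing R] [CommRing S] [CommRing T] {n : ℕ}

/-- the chains of degree `n` of `GL_m(R)` modulo boundaries -/
def Lev (R : Type) [CommRing R] (n m : ℕ) : Type := HH (GL (Fin m) R) n

noncomputable instance (R : Type) [CommRing R] (n m : ℕ) : AddCommGroup (Lev R n m) :=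
  instAddCommGroupHH (GL (Fin m) R) n

noncomputable instance (R : Type) [CommRing R] (n m : ℕ) : Module ℚ (Lev R n m) :=
  instModuleHH (GL (Fin m) R) n

/-- the class of a chain -/
noncomputable def lmk (R : Type) [CommRing R] (n m : ℕ) : Chain (GL (Fin m) R) n →ₗ[ℚ] Lev R n m :=
  hmk (GL (Fin m) R) n

/-- the transition maps -/
noncomputable def trans (R : Type) [CommRing R] (n : ℕ) (a b : ℕ) (h : a ≤ b) :
    Lev R n a →ₗ[ℚ] Lev R n b :=
  hpush n (corner R h)

instance directedSystem (R : Type) [CommRing R] (n : ℕ) :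
    DirectedSystem (Lev R n) fun a b h => trans R n a b h where
  map_self := by
    intro a x
    show hpush n (corner R _) x = x
    rw [corner_refl, hpush_id]
  map_map := by
    intro a b c h1 h2 x
    show hpush n (corner R _) (hpush n (corner R _) x) = hpush n (corner R _) x
    rw [← hpush_comp, corner_comp]

/-- The stable chains modulo boundaries, which contain the homology `H_n(GL(R); ℚ)`. -/
def SH (R : Type) [CommRing R] (n : ℕ) : Type :=
  Module.DirectLimit (Lev R n) (trans R n)

noncomputable instance (R : Type) [CommRing R] (n : ℕ) : AddCommGroup (SH R n) :=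
  Module.DirectLimit.addCommGroup (Lev R n) (trans R n)

noncomputable instance (R : Type) [CommRing R] (n : ℕ) : Module ℚ (SH R n) :=
  Module.DirectLimit.module (Lev R n) (trans R n)

/-- the map to the direct limit -/
noncomputable def ofSH (R : Type) [CommRing R] (n m : ℕ) : Lev R n m →ₗ[ℚ] SH R n :=
  Module.DirectLimit.of ℚ ℕ (Lev R n) (trans R n) m

/-- the class of a chain of `GL_m(R)` -/
noncomputable def cls {m n : ℕ} (z : Chain (GL (Fin m) R) n) : SH R n :=
  ofSH R n m (lmk R n m z)

theorem cls_add {m : ℕ} (z z' : Chain (GL (Fin m) R) n) : cls (z + z') = cls z + cls z' := by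
  rw [cls, map_add, map_add]
  rfl

theorem cls_sub {m : ℕ} (z z' : Chain (GL (Fin m) R) n) : cls (z - z') = cls z - cls z' := by
  rw [cls, map_sub, map_sub]
  rfl

theorem cls_smul {m : ℕ} (q : ℚ) (z : Chain (GL (Fin m) R) n) : cls (q • z) = q • cls z := by
  rw [cls, map_smul, map_smul]
  rfl

theorem cls_zero {m : ℕ} : cls (0 : Chain (GL (Fin m) R) n) = 0 := by
  have := cls_smul (0 : ℚ) (0 : Chain (GL (Fin m) R) n)
  simpa using this

theorem cls_corner {a b : ℕ} (h : a ≤ b) (z : Chain (GL (Fin a) R) n) :
    cls (push n (corner R h) z) = cls z :=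
  Module.DirectLimit.of_f (G := Lev R n) (f := trans R n) (hij := h) (x := lmk R n a z)

theorem exists_cls (x : SH R n) : ∃ (m : ℕ) (z : Chain (GL (Fin m) R) n), cls z = x := by
  obtain ⟨m, y, hy⟩ := Module.DirectLimit.exists_of x
  obtain ⟨z, rfl⟩ := hmk_surjective (G := GL (Fin m) R) y
  exact ⟨m, z, hy⟩

theorem cls_eq_zero_iff {m : ℕ} (z : Chain (GL (Fin m) R) n) : cls z = 0 ↔ Null z := by
  constructor
  · intro h
    obtain ⟨b, hb, h1⟩ := Module.DirectLimit.of.zero_exact h
    have h2 : IsBd (push n (corner R hb) z) := (mk_eq_zero_iff _).1 h1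
    exact (null_corner hb z).1 (null_of_isBd h2)
  · intro h
    obtain ⟨b, hb, h1⟩ := exists_corner_of_null h
    have h2 : lmk R n b (push n (corner R hb) z) = 0 := (mk_eq_zero_iff _).2 h1
    rw [← cls_corner hb, cls, h2, map_zero]

/-- the map of the chains of `GL_m` modulo boundaries induced by a ring homomorphism -/
noncomputable def lmap (f : R →+* S) (n m : ℕ) : Lev R n m →ₗ[ℚ] Lev S n m :=
  hpush n (glMap (Fin m) f)

theorem lmap_trans (f : R →+* S) (n a b : ℕ) (h : a ≤ b) :
    lmap f n b ∘ₗ trans R n a b h = trans S n a b h ∘ₗ lmap f n a := by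
  apply LinearMap.ext
  intro x
  show hpush n (glMap (Fin b) f) (hpush n (corner R h) x) =
    hpush n (corner S h) (hpush n (glMap (Fin a) f) x)
  rw [← hpush_comp, ← hpush_comp, corner_gl]

/-- the map on stable classes induced by a ring homomorphism -/
noncomputable def smap (f : R →+* S) (n : ℕ) : SH R n →ₗ[ℚ] SH S n :=
  Module.DirectLimit.map (lmap f n) (lmap_trans f n)

theorem smap_cls (f : R →+* S) {m : ℕ} (z : Chain (GL (Fin m) R) n) :
    smap f n (cls z) = cls (push n (glMap (Fin m) f) z) :=
  Module.DirectLimit.map_apply_of _ _ _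

theorem smap_comp (f : R →+* S) (g : S →+* T) (x : SH R n) :
    smap (g.comp f) n x = smap g n (smap f n x) := by
  obtain ⟨m, z, rfl⟩ := exists_cls x
  rw [smap_cls, smap_cls, smap_cls, ← push_comp, glMap_comp']

theorem smap_id (x : SH R n) : smap (RingHom.id R) n x = x := by
  obtain ⟨m, z, rfl⟩ := exists_cls x
  rw [smap_cls]
  have h1 : glMap (Fin m) (RingHom.id R) = MonoidHom.id _ := by
    apply MonoidHom.ext
    intro g
    apply Units.ext
    ext i j
    rfl
  rw [h1, push_id]

end Pool.Agent.KBT
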