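import Pool.Agent.KBT.KSp
import Pool.Agent.Helper37.OC.Ample

/-! The statements on `K_(n+1)(-)_ℚ^(w)` for fields of characteristic zero. -/

set_option autoImplicit false

open Cardinal

namespace Pool.Agent.KBT.C

open Pool.Agent.KBT Pool.Agent.Helper37.OC

/-- The algebraic numbers in a field of characteristic zero. -/
abbrev Alg (K : Type) [Field K] [CharZero K] : IntermediateField ℚ K := algebraicClosure ℚ K

/-- The transcendence degree over `ℚ` is infinite. -/
def Large (K : Type) [Field K] [CharZero K] : Prop := ℵ₀ ≤ Algebra.trdeg ℚ K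

/-- Real closed fields, characterised (Artin-Schreier) by the property of having an algebraically
closed extension of degree two. -/
def RealClosed (K : Type) [Field K] : Prop :=
  ∃ (Ω : Type) (_ : Field Ω) (_ : Algebra K Ω), IsAlgClosed Ω ∧ Module.finrank K Ω = 2

/-- `K` is ample (large in the sense of Pop) or real closed. (Real closed fields are ample.) -/
def AmpleOrReal (K : Type) [Field K] : Prop := Ample K ∨ RealClosed K

/-- The classes over `K` that come from the subfield `K₀`. -/
noncomputable def From (K : Type) [Field K] [CharZero K] (K₀ : IntermediateField ℚ K) (n w : ℕ) :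
    Submodule ℚ (KQ K n w) :=
  LinearMap.range (kmap (algebraMap K₀ K) n w)

/-- The classes over `K` modulo those over its algebraic numbers. -/
abbrev New (K : Type) [Field K] [CharZero K] (n w : ℕ) : Type := KQ K n w ⧸ From K (Alg K) n w

/-- `K_(n+1)(F)_ℚ^(w) = 0` for all fields `F` of characteristic zero. -/
def FieldsVanish (n w : ℕ) : Prop :=
  ∀ (F : Type) [Field F] [CharZero F], Subsingleton (KQ F n w)

/-- `K_(n+1)(ℚ̄)_ℚ^(w) = 0`; by Borel this holds unless `n + 1 = 2 w - 1`. -/
def AlgVanish (n w : ℕ) : Prop := Subsingleton (KQ (Alg ℂ) n w)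

/-- All maps between algebraically closed fields of characteristic zero induce bijections. -/
def Rigid (n w : ℕ) : Prop :=
  ∀ (F E : Type) [Field F] [Field E] [CharZero F] [IsAlgClosed F] [IsAlgClosed E] (f : F →+* E),
    Function.Bijective (kmap f n w)

/-- Over every field of characteristic zero all classes come from its algebraic numbers. -/
def FromAlgebraic (n w : ℕ) : Prop :=
  ∀ (K : Type) [Field K] [CharZero K], From K (Alg K) n w = ⊤

/-- The classes over `K` modulo those over its algebraic numbers have dimension less than the
transcendence degree of `K`. -/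
def SmallNew (K : Type) [Field K] [CharZero K] (n w : ℕ) : Prop :=
  Module.rank ℚ (New K n w) < Algebra.trdeg ℚ K

/-- `K_(n+1)(K)_ℚ^(w)` has dimension less than the transcendence degree of `K`. -/
def SmallOver (K : Type) [Field K] [CharZero K] (n w : ℕ) : Prop :=
  Module.rank ℚ (KQ K n w) < Algebra.trdeg ℚ K

/-- There is an ample field `K` of infinite transcendence degree `τ` over `ℚ` such that the classes
over `K` modulo those over its algebraic numbers have dimension less than `τ`. -/
def SmallAmple (n w : ℕ) : Prop :=
  ∃ (K : Type) (_ : Field K) (_ : CharZero K), AmpleOrReal K ∧ Large K ∧ SmallNew K n w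

/-- There are an ample field `K` and a subfield `K₀` such that `K` has infinite transcendence degree
over `K₀` and every class over `K` is the sum of a class coming from `K₀` and a class coming from
the algebraic numbers of `K`. -/
def GeneratedAmple (n w : ℕ) : Prop :=
  ∃ (K : Type) (_ : Field K) (_ : CharZero K) (K₀ : IntermediateField ℚ K), AmpleOrReal K ∧
    ℵ₀ ≤ Algebra.trdeg K₀ K ∧ From K K₀ n w ⊔ From K (Alg K) n w = ⊤

/-- The automorphisms of `ℂ` over the algebraic numbers act trivially. -/
def AutTrivial (n w : ℕ) : Prop :=
  ∀ (σ : ℂ ≃ₐ[Alg ℂ] ℂ) (u : KQ ℂ n w), kmap (σ : ℂ →+* ℂ) n w u = u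

/-- The orbits of the automorphisms of `ℂ` over the algebraic numbers have less than continuum
many elements. -/
def SmallOrbits (n w : ℕ) : Prop :=
  ∀ u : KQ ℂ n w, #(Set.range fun σ : ℂ ≃ₐ[Alg ℂ] ℂ => kmap (σ : ℂ →+* ℂ) n w u) < 𝔠

/-- For all complex curves all classes over the function field are constant. -/
def CurvesConstant (n w : ℕ) : Prop :=
  ∀ (E : Type) [Field E] [Algebra (RatFunc ℂ) E] [FiniteDimensional (RatFunc ℂ) E],
    Function.Surjective (kmap ((algebraMap (RatFunc ℂ) E).comp (algebraMap ℂ (RatFunc ℂ))) n w)

/-- All classes over `k((t))` come from `k`. -/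
def LaurentConstant (k : Type) [Field k] (n w : ℕ) : Prop :=
  Function.Surjective (kmap (algebraMap k (LaurentSeries k)) n w)

end Pool.Agent.KBT.C
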