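import Pool.Agent.KBT.Dsum

/-! KBT-Ten. The tensor square of a direct sum.

PLAN. `tensorSq (Γ × ι) ∘ dsum f = gre e ∘ dsum (fun s : Γ × Γ => kron (f s.1) (f s.2))` with
`e = Equiv.prodProdProdComm Γ Γ ι ι : (Γ × Γ) × (ι × ι) ≃ (Γ × ι) × (Γ × ι)` (entries: a product of
two `if`s); then `clsi_gre`, `clsi_dsum`, `Fintype.sum_prod_type`. `clsi_kron_comm`:
`kron f' f = gre (Equiv.prodComm ι ι) ∘ kron f f'`. -/

set_option autoImplicit false

open Matrix

namespace Pool.Agent.KBT

open Pool.Agent.KBS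

variable {ι Γ : Type} [Fintype ι] [DecidableEq ι] [Fintype Γ] [DecidableEq Γ]
variable {R : Type} [CommRing R] {n : ℕ} {G : Type} [Group G]

/-- the representation `f ⊗ f'` -/
def kron (f f' : G →* GL ι R) : G →* GL (ι × ι) R :=
  MonoidHom.toHomUnits
    { toFun := fun g => Matrix.kroneckerMap (· * ·) ((f g : GL ι R) : Matrix ι ι R)
        ((f' g : GL ι R) : Matrix ι ι R)
      map_one' := by simp
      map_mul' := fun g h => by
        rw [map_mul, map_mul]
        exact Matrix.mul_kronecker_mul _ _ _ _ }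

theorem tensorSq_eq_kron (f : G →* GL ι R) : (tensorSq ι R).comp f = kron f f := by
  apply MonoidHom.ext
  intro g
  apply Units.ext
  rfl

private theorem ten_comm (f f' : G →* GL ι R) :
    kron f' f = (gre R (Equiv.prodComm ι ι)).comp (kron f f') := by
  apply MonoidHom.ext
  intro g
  apply Units.ext
  ext ⟨i1, i2⟩ ⟨j1, j2⟩
  exact mul_comm _ _

theorem clsi_kron_comm (f f' : G →* GL ι R) (z : Chain G (n + 1)) (hz : bd _ n z = 0) :
    clsi (push (n + 1) (kron f f') z) = clsi (push (n + 1) (kron f' f) z) := by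
  rw [ten_comm f f', push_comp, clsi_gre]
  rw [bd_push, hz, map_zero]

private theorem ten_dsum (f : Γ → G →* GL ι R) :
    (tensorSq (Γ × ι) R).comp (dsum f) = (gre R (Equiv.prodProdProdComm Γ Γ ι ι)).comp
      (dsum fun s : Γ × Γ => kron (f s.1) (f s.2)) := by
  apply MonoidHom.ext
  intro g
  apply Units.ext
  ext ⟨⟨a, i⟩, ⟨b, j⟩⟩ ⟨⟨c, k⟩, ⟨d, l⟩⟩
  change (if a = c then ((f a g : GL ι R) : Matrix ι ι R) i k else 0) *
      (if b = d then ((f b g : GL ι R) : Matrix ι ι R) j l else 0) =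
    if ((a, b) : Γ × Γ) = (c, d) then ((f a g : GL ι R) : Matrix ι ι R) i k *
      ((f b g : GL ι R) : Matrix ι ι R) j l else 0
  by_cases h1 : a = c
  · by_cases h2 : b = d
    · rw [if_pos h1, if_pos h2, if_pos (by rw [h1, h2])]
    · rw [if_neg h2, mul_zero, if_neg]
      intro h
      exact h2 (congrArg Prod.snd h)
  · rw [if_neg h1, zero_mul, if_neg]
    intro h
    exact h1 (congrArg Prod.fst h)

theorem clsi_tensorSq_dsum (f : Γ → G →* GL ι R) (z : Chain G (n + 1)) (hz : IsPrim z) :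
    clsi (push (n + 1) ((tensorSq (Γ × ι) R).comp (dsum f)) z) =
      ∑ σ, ∑ τ, clsi (push (n + 1) (kron (f σ) (f τ)) z) := by
  rw [ten_dsum, push_comp, clsi_gre, clsi_dsum _ _ hz, Fintype.sum_prod_type]
  rw [bd_push, hz.cycle, map_zero]

end Pool.Agent.KBT
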