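import Pool.Agent.KBT.Stmt
import Pool.Agent.KBT.Cont
import Pool.Agent.KBT.Des
import Pool.Agent.KBT.ALaurent

/-! The functors `K_(n+1)(-)_ℚ^(w)` have the formal properties used in the rigidity library; final
theorems. -/

set_option autoImplicit false

open CategoryTheory Cardinal

namespace Pool.Agent.KBT.C

open Pool.Agent.KBT Pool.Agent.KBT.R Pool.Agent.KBT.A Pool.Agent.KBT.O Pool.Agent.Helper37.OC

/-- the functor as a theory -/
noncomputable def th (n w : ℕ) : MotTheory where
  H X _ _ := KQ X n w
  pull f _ _ := kmap f.hom n w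

theorem th_res (n w : ℕ) {A B : Type} [CommRing A] [CommRing B] (f : A →+* B) (k j : ℤ) :
    (th n w).res f k j = kmap f n w := rfl

theorem th_isMotivic (n w : ℕ) : IsMotivic (th n w) where
  functoriality := by
    constructor
    · intro X k j
      apply LinearMap.ext
      intro x
      exact kmap_id (R := X) x
    · intro X Y Z f g k j
      apply LinearMap.ext
      intro x
      exact kmap_comp (R := X) (S := Y) (T := Z) f.hom g.hom x
  res_injective := by
    intro F E _ _ _ f k j
    exact kmap_injective f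
  continuity := by
    intro E _ _ k j a
    exact kq_continuity E a
  spread_out' := by
    intro A K _ _ _ _ _ k j u
    exact kq_spreadOut A K u
  agree' := by
    intro A K _ _ _ _ _ k j u v h
    exact kq_agree A K u v h

theorem th_descent (n w : ℕ) : Descent (th n w) := by
  intro K L _ _ _ _ _ _ k j u
  exact descent K L u

theorem rigid_iff_th (n w : ℕ) : Rigid n w ↔ Pool.Agent.KBT.Rigid (th n w) 0 0 := Iff.rfl

theorem tfae_rigid (n w : ℕ) : List.TFAE
    [Rigid n w, FromAlgebraic n w, SmallNew ℂ n w, SmallNew ℝ n w, SmallAmple n w,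
      GeneratedAmple n w, AutTrivial n w, SmallOrbits n w, CurvesConstant n w,
      LaurentConstant ℚ n w] := by
  have h1 := Pool.Agent.KBT.tfae_rigid (th_isMotivic n w) 0 0
  have h2 := Pool.Agent.KBT.A.tfae_ample (th_isMotivic n w) (th_descent n w) 0 0
  have hC : Large ℂ := large_complex
  have hR : Large ℝ := large_real
  tfae_have 1 ↔ 2 := h2.out 0 1
  tfae_have 1 ↔ 3 := by
    refine (h1.out 0 2).trans ?_
    show _ ↔ SmallNew ℂ n w
    unfold SmallNew
    rw [trdeg_complex]
    rfl
  tfae_have 1 ↔ 4 := rigid_iff (th_isMotivic n w) (th_descent n w) 0 0 (.inr realClosed_real) hR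
  tfae_have 1 ↔ 5 := h2.out 0 2
  tfae_have 1 ↔ 6 := h2.out 0 3
  tfae_have 1 ↔ 7 := h1.out 0 3
  tfae_have 1 ↔ 8 := h1.out 0 4
  tfae_have 1 ↔ 9 := h1.out 0 5
  tfae_have 1 ↔ 10 := rigid_iff_laurent (th_isMotivic n w) (th_descent n w) ℚ 0 0
  tfae_finish

theorem rigid_iff_laurent' (n w : ℕ) (k : Type) [Field k] [CharZero k] :
    Rigid n w ↔ LaurentConstant k n w :=
  rigid_iff_laurent (th_isMotivic n w) (th_descent n w) k 0 0

theorem rigid_iff_small (n w : ℕ) (K : Type) [Field K] [CharZero K] (hK : AmpleOrReal K)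
    (hL : Large K) : Rigid n w ↔ SmallNew K n w :=
  rigid_iff (th_isMotivic n w) (th_descent n w) 0 0 hK hL

theorem vanish_iff_small (n w : ℕ) (K : Type) [Field K] [CharZero K] (hK : AmpleOrReal K)
    (hL : Large K) : FieldsVanish n w ↔ SmallOver K n w ∧ AlgVanish n w :=
  vanish_iff (th_isMotivic n w) (th_descent n w) 0 0 hK hL

theorem complete_ample (K : Type) [NontriviallyNormedField K] [CompleteSpace K] [CharZero K] :
    AmpleOrReal K ∧ Large K ∧ Algebra.trdeg ℚ K = #K :=
  ⟨.inl (ample_of_complete K), large_of_complete K, trdeg_of_complete K⟩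

theorem vanish_iff_rigid (n w : ℕ) : FieldsVanish n w ↔ Rigid n w ∧ AlgVanish n w :=
  rigid_iff_vanish (th_isMotivic n w) 0 0

end Pool.Agent.KBT.C
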