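import Pool.Agent.KBT.ExtD

/-! KBT-Wt. The weight condition is additive: `ψ²(⊕ V_σ) = ⊕ ψ² V_σ`. -/

set_option autoImplicit false

open Matrix

namespace Pool.Agent.KBT

open Pool.Agent.KBS

variable {R S : Type} [CommRing R] [CommRing S] {n m d : ℕ} {G : Type} [Group G]

/-- the class of `ψ² z - 2^w z` for the representation `f` -/
noncomputable def wt (w : ℕ) (f : G →* GL (Fin m) R) (z : Chain G n) : SH R n :=
  clsi (push n ((tensorSq (Fin m) R).comp f) z) - (2 : ℚ) • clsi (push n ((extSq m R).comp f) z) -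
    (2 : ℚ) ^ w • clsi (push n f z)

private theorem wt_cyc {G H : Type} [Group G] [Group H] (f : G →* H) {z : Chain G (n + 1)}
    (hz : bd _ n z = 0) : bd _ n (push (n + 1) f z) = 0 := by
  rw [bd_push, hz, map_zero]

theorem wt_iff (w : ℕ) (z : Chain (GL (Fin m) R) (n + 1)) (hz : bd _ n z = 0) :
    Null (weightDefect w z) ↔ wt w (MonoidHom.id _) z = 0 := by
  rw [← clsi_eq_zero_iff]
  have h1 : clsi (weightDefect w z) = wt w (MonoidHom.id _) z := by
    unfold weightDefect wt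
    rw [clsi_sub, clsi_sub, clsi_smul, clsi_smul, MonoidHom.comp_id, MonoidHom.comp_id, push_id,
      push_comp, clsi_upper _ (wt_cyc _ hz), push_comp, push_comp,
      clsi_lower _ (wt_cyc _ (wt_cyc _ hz)), clsi_upper _ (wt_cyc _ hz), push_comp,
      clsi_lower _ (wt_cyc _ hz), clsi_lower _ hz, clsi_fin _ hz]
  rw [h1]

theorem wt_conj (w : ℕ) (f f' : G →* GL (Fin m) R) (x : GL (Fin m) R)
    (h : ∀ g, f' g = x * f g * x⁻¹) (z : Chain G (n + 1)) (hz : bd _ n z = 0) :
    wt w f z = wt w f' z := by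
  unfold wt
  rw [clsi_conj f f' x h z hz,
    clsi_conj ((tensorSq (Fin m) R).comp f) ((tensorSq (Fin m) R).comp f')
      (tensorSq (Fin m) R x) (fun g => by
        rw [MonoidHom.comp_apply, MonoidHom.comp_apply, h g, map_mul, map_mul, map_inv]) z hz,
    clsi_conj ((extSq m R).comp f) ((extSq m R).comp f') (extSq m R x) (fun g => by
        rw [MonoidHom.comp_apply, MonoidHom.comp_apply, h g, map_mul, map_mul, map_inv]) z hz]

/-- a symmetric double sum -/
private theorem wt_sum {M : Type} [AddCommGroup M] (h : Fin d → Fin d → M)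
    (hs : ∀ σ τ, h σ τ = h τ σ) :
    ∑ σ, ∑ τ, h σ τ = ∑ σ, h σ σ + (∑ p : Pairs d, h p.1.1 p.1.2 + ∑ p : Pairs d, h p.1.1 p.1.2) := by
  classical
  have e0 : ∑ σ, ∑ τ, h σ τ = ∑ x : Fin d × Fin d, h x.1 x.2 := by
    rw [Fintype.sum_prod_type]
  have e1 : ∑ p : Pairs d, h p.1.1 p.1.2 =
      ∑ x : Fin d × Fin d, if x.1 < x.2 then h x.1 x.2 else 0 := by
    rw [← Finset.sum_filter,
      Finset.sum_subtype (p := fun x : Fin d × Fin d => x.1 < x.2) _ (fun x => by simp)]
  have e2 : ∑ x : Fin d × Fin d, (if x.1 < x.2 then h x.1 x.2 else 0) =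
      ∑ x : Fin d × Fin d, if x.2 < x.1 then h x.1 x.2 else 0 := by
    rw [← (Equiv.prodComm (Fin d) (Fin d)).sum_comp]
    refine Finset.sum_congr rfl fun x _ => ?_
    change (if x.2 < x.1 then h x.2 x.1 else 0) = (if x.2 < x.1 then h x.1 x.2 else 0)
    by_cases h1 : x.2 < x.1
    · rw [if_pos h1, if_pos h1, hs]
    · rw [if_neg h1, if_neg h1]
  have e3 : ∑ σ, h σ σ = ∑ x : Fin d × Fin d, if x.1 = x.2 then h x.1 x.2 else 0 := by
    rw [Fintype.sum_prod_type]
    refine Finset.sum_congr rfl fun σ _ => ?_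
    rw [Finset.sum_ite_eq]
    simp
  have e4 : ∑ p : Pairs d, h p.1.1 p.1.2 + ∑ p : Pairs d, h p.1.1 p.1.2 =
      ∑ x : Fin d × Fin d, ((if x.1 < x.2 then h x.1 x.2 else 0) +
        if x.2 < x.1 then h x.1 x.2 else 0) := by
    rw [Finset.sum_add_distrib, ← e2, ← e1]
  rw [e0, e4, e3, ← Finset.sum_add_distrib]
  refine Finset.sum_congr rfl fun x _ => ?_
  rcases lt_trichotomy x.1 x.2 with h1 | h1 | h1
  · rw [if_neg h1.ne, if_pos h1, if_neg h1.not_gt]
    simp
  · rw [if_pos h1, if_neg h1.not_lt, if_neg h1.symm.not_lt]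
    simp
  · rw [if_neg h1.ne', if_neg h1.not_gt, if_pos h1]
    simp

private theorem wt_tensor_gre {ι κ : Type} [Fintype ι] [DecidableEq ι] [Fintype κ] [DecidableEq κ]
    (e : ι ≃ κ) : (tensorSq κ R).comp (gre R e) =
      (gre R (Equiv.prodCongr e e)).comp (tensorSq ι R) := by
  apply MonoidHom.ext
  intro g
  apply Units.ext
  ext ⟨i, j⟩ ⟨k, l⟩
  rfl

theorem wt_dsum (w : ℕ) (f : Fin d → G →* GL (Fin m) R) (z : Chain G (n + 1)) (hz : IsPrim z) :
    wt w ((gre R finProdFinEquiv).comp (dsum f)) z = ∑ σ, wt w (f σ) z := by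
  have h1 : clsi (push (n + 1) ((tensorSq (Fin (d * m)) R).comp
      ((gre R finProdFinEquiv).comp (dsum f))) z) =
      ∑ σ, ∑ τ, clsi (push (n + 1) (kron (f σ) (f τ)) z) := by
    rw [← MonoidHom.comp_assoc, wt_tensor_gre, MonoidHom.comp_assoc, push_comp,
      clsi_gre _ _ (wt_cyc _ hz.cycle), clsi_tensorSq_dsum f z hz]
  have h2 : clsi (push (n + 1) ((gre R finProdFinEquiv).comp (dsum f)) z) =
      ∑ σ, clsi (push (n + 1) (f σ) z) := by
    rw [push_comp, clsi_gre _ _ (wt_cyc _ hz.cycle), clsi_dsum f z hz]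
  unfold wt
  rw [h1, h2, clsi_extSq_dsum f z hz,
    wt_sum (fun σ τ => clsi (push (n + 1) (kron (f σ) (f τ)) z))
      (fun σ τ => clsi_kron_comm _ _ z hz.cycle),
    Finset.sum_sub_distrib, Finset.sum_sub_distrib, ← Finset.smul_sum, ← Finset.smul_sum]
  simp only [tensorSq_eq_kron]
  rw [smul_add, ← two_smul ℚ (∑ p : Pairs d, clsi (push (n + 1) (kron (f p.1.1) (f p.1.2)) z))]
  abel

theorem smap_wt (w : ℕ) (φ : R →+* S) (f : G →* GL (Fin m) R) (z : Chain G n) :
    smap φ n (wt w f z) = wt w ((glMap (Fin m) φ).comp f) z := by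
  have e1 : (glMap (Fin m × Fin m) φ).comp ((tensorSq (Fin m) R).comp f) =
      (tensorSq (Fin m) S).comp ((glMap (Fin m) φ).comp f) := by
    rw [← MonoidHom.comp_assoc, glMap_tensorSq, MonoidHom.comp_assoc]
  have e2 : (glMap (Pairs m) φ).comp ((extSq m R).comp f) =
      (extSq m S).comp ((glMap (Fin m) φ).comp f) := by
    rw [← MonoidHom.comp_assoc, glMap_extSq, MonoidHom.comp_assoc]
  unfold wt
  rw [map_sub, map_sub, map_smul, map_smul, smap_clsi, smap_clsi, smap_clsi, ← push_comp,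
    ← push_comp, ← push_comp, e1, e2]

end Pool.Agent.KBT
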